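import Pool.Agent.Run7.h795.HJ.Stm
import Pool.Agent.Run7.h795.UW.AR

/-!
# The archimedean bound for the Hankel determinants, rational combinations of consecutive zeta values

Port of `Run7/h795/UW/AR.lean` (helper973).
-/

set_option autoImplicit false

open Polynomial Pool.Agent.H337R2 Filter Topology Pool.Agent.W165.OZ

namespace Run7.h795.HJ

open Run7.h795.UW

namespace AR

noncomputable section

open Run7.h795.UW.AR (Qn Qn_monic Qn_deg Qn_dvd Qn_MY)

variable {N : ℕ} {δ c1 c2 : ℝ} {τ : ℕ → ℝ} {Ω : ℕ → ℕ → ℝ} {n h b : ℕ} {μ : ℕ → ℝ}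

lemma hasSum_LJ (hM : MomJ n h b τ Ω μ) (P : ℝ[X]) (hP : P.natDegree + 2 ≤ h * n) :
    HasSum (fun i => ∑ l ∈ Finset.range (b + 1), Ω i l * Dv n h l (τ i) P) (Lf μ P) := by
  rw [Lf_apply μ P (P.natDegree + 1) (Nat.lt_succ_self _)]
  have h1 : (fun i => ∑ l ∈ Finset.range (b + 1), Ω i l * Dv n h l (τ i) P) = fun i =>
      ∑ k ∈ Finset.range (P.natDegree + 1),
        P.coeff k * ∑ l ∈ Finset.range (b + 1), Ω i l * Dv n h l (τ i) (X ^ k) := by
    funext i
    have h2 : ∀ l, Ω i l * Dv n h l (τ i) P = ∑ k ∈ Finset.range (P.natDegree + 1),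
        P.coeff k * (Ω i l * Dv n h l (τ i) (X ^ k)) := by
      intro l
      conv_lhs => rw [P.as_sum_range_C_mul_X_pow]
      rw [Dv_sum, Finset.mul_sum]
      refine Finset.sum_congr rfl fun k _ => ?_
      rw [Dv_C_mul]
      ring
    rw [Finset.sum_congr rfl fun l _ => h2 l, Finset.sum_comm]
    refine Finset.sum_congr rfl fun k _ => ?_
    rw [Finset.mul_sum]
  rw [h1]
  refine hasSum_sum fun k hk => (hM k ?_).mul_left _
  have := Finset.mem_range.1 hk
  omega

lemma entryJ (h2 : Pool.Agent.W165.OZ.S_TB) (hN : NodesJ N b δ c1 c2 τ Ω) (hn : 1 ≤ n) (hh : 1 ≤ h)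
    (hM : MomJ n h b τ Ω μ) (i j : ℕ) (hij : i + j + 2 ≤ h * n) :
    |Lf μ (Qn n b τ i * Qn n b τ j)| ≤
      CJ b c1 c2 * (4 * (N : ℝ) ^ 2 * c2) * (4 * h * n + b + 1) ^ b *
        (MM N (max i j / (b + 1)) ^ (2 * (h * n - 2 - (i + j))))⁻¹ := by
  have hNn := hN.nodes
  have hc1 : 0 < c1 := hNn.hc1
  have hc2 : 0 ≤ c2 := (abs_nonneg _).trans (hNn.whi 0)
  set P := Qn n b τ i * Qn n b τ j with hPd
  have hdeg : P.natDegree = i + j := by
    rw [hPd, (Qn_monic n b τ i).natDegree_mul (Qn_monic n b τ j), Qn_deg, Qn_deg]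
  have hs := hasSum_LJ hM P (by rw [hdeg]; exact hij)
  set M := max i j / (b + 1) with hMd
  obtain ⟨t1, t2⟩ := h2 N δ c1 c2 τ (fun i => Ω i b) hNn n h M (i + j) hn hh hij
  obtain ⟨W2, hW2⟩ : ∃ W2 : ℝ, W2 = (4 * h * n + b + 1 : ℝ) ^ b := ⟨_, rfl⟩
  have hW20 : 0 ≤ W2 := by rw [hW2]; positivity
  have hCJ : 0 ≤ CJ b c1 c2 := by unfold CJ; positivity
  have hz : ∀ l < M, ∑ l' ∈ Finset.range (b + 1), Ω l l' * Dv n h l' (τ l) P = 0 := by
    intro l hl
    refine Finset.sum_eq_zero fun l' hl' => ?_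
    have hl'' : l' + 1 ≤ b + 1 := by
      have := Finset.mem_range.1 hl'
      omega
    have : Dv n h l' (τ l) P = 0 := by
      apply Dv_vanish
      refine (pow_dvd_pow _ hl'').trans ?_
      rw [hPd]
      rcases le_total i j with h | h
      · rw [hMd, max_eq_right h] at hl
        exact Dvd.dvd.mul_left (Qn_dvd n b τ hl) _
      · rw [hMd, max_eq_left h] at hl
        exact Dvd.dvd.mul_right (Qn_dvd n b τ hl) _
    rw [this, mul_zero]
  have hs2 : HasSum (fun l => ∑ l' ∈ Finset.range (b + 1), Ω (l + M) l' * Dv n h l' (τ (l + M)) P)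
      (Lf μ P) := by
    have h3 := (hasSum_nat_add_iff' M).2 hs
    rw [Finset.sum_eq_zero (fun l hl => hz l (Finset.mem_range.1 hl)), sub_zero] at h3
    exact h3
  have hb : ∀ l, ‖∑ l' ∈ Finset.range (b + 1), Ω (l + M) l' * Dv n h l' (τ (l + M)) P‖ ≤
      CJ b c1 c2 * W2 * (|Ω (l + M) b| * (Rv n h (τ (l + M)) * yv n (τ (l + M)) ^ (i + j))) := by
    intro l
    have h0 := Pool.Agent.W165.OZ.CO.tau_gt hNn (l + M)
    have hi : i / (b + 1) ≤ l + M :=
      (Nat.div_le_div_right (le_max_left i j)).trans (Nat.le_add_left _ _)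
    have hj : j / (b + 1) ≤ l + M :=
      (Nat.div_le_div_right (le_max_right i j)).trans (Nat.le_add_left _ _)
    have hMY := (Qn_MY hNn hn b hi).mul hn h0.le (Qn_MY hNn hn b hj)
    obtain ⟨Z, hZ⟩ : ∃ Z : ℝ, Z = Rv n h (τ (l + M)) * yv n (τ (l + M)) ^ (i + j) := ⟨_, rfl⟩
    have hterm : ∀ l' ∈ Finset.range (b + 1), |Ω (l + M) l' * Dv n h l' (τ (l + M)) P| ≤
        c2 * (W2 * Z) := by
      intro l' hl'
      have hl'' : l' ≤ b := by
        have := Finset.mem_range.1 hl'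
        omega
      have h3 := Dv_bound (h := h) (b := l') hn h0.le (by omega) hMY
      rw [← hPd, ← hZ] at h3
      have hZ0 : 0 ≤ Z := by
        have h5 : 0 ≤ (4 * h * n + l' + 1 : ℝ) ^ l' * Z := (abs_nonneg _).trans h3
        have h6 : (0 : ℝ) < (4 * h * n + l' + 1 : ℝ) ^ l' := by positivity
        exact nonneg_of_mul_nonneg_right h5 h6
      have h4 : (4 * h * n + l' + 1 : ℝ) ^ l' ≤ W2 := by
        rw [hW2]
        have e1 : (4 * h * n + l' + 1 : ℝ) ≤ 4 * h * n + b + 1 := by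
          have : (l' : ℝ) ≤ b := by exact_mod_cast hl''
          linarith
        calc (4 * h * n + l' + 1 : ℝ) ^ l' ≤ (4 * h * n + b + 1 : ℝ) ^ l' :=
              pow_le_pow_left₀ (by positivity) e1 _
          _ ≤ (4 * h * n + b + 1 : ℝ) ^ b := by
              apply pow_le_pow_right₀ _ hl''
              have : (0 : ℝ) ≤ 4 * h * n + b := by positivity
              linarith
      rw [abs_mul]
      refine mul_le_mul (hN.le _ _ hl'') (h3.trans ?_) (abs_nonneg _) hc2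
      exact mul_le_mul_of_nonneg_right h4 hZ0
    have hZ0 : 0 ≤ c2 * (W2 * Z) := (abs_nonneg _).trans (hterm 0 (Finset.mem_range.2 (by omega)))
    rw [Real.norm_eq_abs, ← hZ]
    refine (Finset.abs_sum_le_sum_abs _ _).trans ?_
    refine (Finset.sum_le_card_nsmul _ _ _ hterm).trans ?_
    rw [Finset.card_range, nsmul_eq_mul]
    have h5 := hNn.wlo (l + M)
    have h6 : CJ b c1 c2 * W2 * (|Ω (l + M) b| * Z) =
        (((b : ℝ) + 1) * (c2 * (W2 * Z))) * (|Ω (l + M) b| / c1) := by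
      unfold CJ
      field_simp
    rw [h6]
    push_cast
    have h7 : 1 ≤ |Ω (l + M) b| / c1 := by
      rw [le_div_iff₀ hc1, one_mul]
      exact h5
    have h8 : 0 ≤ ((b : ℝ) + 1) * (c2 * (W2 * Z)) := by positivity
    nlinarith
  have h4 : ‖Lf μ P‖ ≤
      ∑' l, CJ b c1 c2 * W2 * (|Ω (l + M) b| * (Rv n h (τ (l + M)) * yv n (τ (l + M)) ^ (i + j))) := by
    rw [← hs2.tsum_eq]
    exact tsum_of_norm_bounded (t1.mul_left (CJ b c1 c2 * W2)).hasSum hb
  rw [Real.norm_eq_abs, tsum_mul_left] at h4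
  refine h4.trans ((mul_le_mul_of_nonneg_left t2 (by positivity)).trans (le_of_eq ?_))
  rw [hW2]
  ring

end

end AR

open AR Run7.h795.UW.AR in
open Pool.Agent.W165.OZ.AR (MM_one MM_mono) in
theorem t_ar (h1 : S_BAS) (h2 : S_TB) : Run7.h795.HJ.S_AR := by
  intro N b δ c1 c2 τ Ω hN n h hn hh hev μ hM r hr
  have hNn := hN.nodes
  have hc1 : 0 < c1 := hNn.hc1
  have hc2 : 0 ≤ c2 := (abs_nonneg _).trans (hNn.whi 0)
  obtain ⟨m, hm⟩ : ∃ m, h * n = 2 * m := by
    obtain ⟨k, hk⟩ := hev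
    exact ⟨h * k, by rw [hk]; ring⟩
  have hm2 : h * n / 2 = m := by omega
  have hrm : r ≤ m := by omega
  have hCJ : 0 ≤ CJ b c1 c2 := by unfold CJ; positivity
  obtain ⟨C0, hC0⟩ : ∃ C0 : ℝ, C0 = CJ b c1 c2 * (4 * (N : ℝ) ^ 2 * c2) * (4 * h * n + b + 1) ^ b :=
    ⟨_, rfl⟩
  have hC0n : 0 ≤ C0 := by rw [hC0]; positivity
  let A : ℕ → ℝ := fun i => (MM N (i / (b + 1)) ^ (2 * (m - 1 - i)))⁻¹
  have hA0 : ∀ i, 0 ≤ A i := fun i => by
    have := MM_one N (i / (b + 1))
    positivity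
  have hdet := h1 ℝ ℝ (Lf μ) (Qn n b τ) (Qn_monic n b τ) (Qn_deg n b τ) r
  have hDH : DH (fun k => Lf μ (X ^ k)) r = DH μ r := by
    congr 1
    funext k
    exact Lf_X_pow μ k
  rw [hDH] at hdet
  rw [← hdet]
  have hent : ∀ i j : Fin r, |Lf μ (Qn n b τ i.1 * Qn n b τ j.1)| ≤ C0 * (A i.1 * A j.1) := by
    intro i j
    have hi := i.2
    have hj := j.2
    refine (entryJ h2 hN hn hh hM i.1 j.1 (by omega)).trans ?_
    rw [← hC0]
    apply mul_le_mul_of_nonneg_left _ hC0n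
    have e1 : 2 * (h * n - 2 - (i.1 + j.1)) = 2 * (m - 1 - i.1) + 2 * (m - 1 - j.1) := by omega
    rw [e1, pow_add, ← mul_inv]
    have p1 := MM_one N (i.1 / (b + 1))
    have p2 := MM_one N (j.1 / (b + 1))
    have p3 := MM_one N (max i.1 j.1 / (b + 1))
    apply inv_anti₀ (by positivity)
    apply mul_le_mul
    · exact pow_le_pow_left₀ (by linarith) (MM_mono N (Nat.div_le_div_right (le_max_left _ _))) _
    · exact pow_le_pow_left₀ (by linarith) (MM_mono N (Nat.div_le_div_right (le_max_right _ _))) _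
    · positivity
    · positivity
  rw [Matrix.det_apply]
  calc |∑ σ : Equiv.Perm (Fin r), Equiv.Perm.sign σ •
        ∏ i, Matrix.of (fun i j : Fin r => Lf μ (Qn n b τ i.1 * Qn n b τ j.1)) (σ i) i|
      ≤ ∑ σ : Equiv.Perm (Fin r), |Equiv.Perm.sign σ •
        ∏ i, Matrix.of (fun i j : Fin r => Lf μ (Qn n b τ i.1 * Qn n b τ j.1)) (σ i) i| :=
        Finset.abs_sum_le_sum_abs _ _
    _ ≤ ∑ _σ : Equiv.Perm (Fin r), C0 ^ r * (∏ i : Fin r, A i.1) ^ 2 := by
        apply Finset.sum_le_sum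
        intro σ _
        have e1 : |Equiv.Perm.sign σ •
            ∏ i, Matrix.of (fun i j : Fin r => Lf μ (Qn n b τ i.1 * Qn n b τ j.1)) (σ i) i| =
            ∏ i, |Lf μ (Qn n b τ (σ i).1 * Qn n b τ i.1)| := by
          rw [Units.smul_def, zsmul_eq_mul, abs_mul, Finset.abs_prod]
          have : |(((Equiv.Perm.sign σ : ℤˣ) : ℤ) : ℝ)| = 1 := by
            rcases Int.units_eq_one_or (Equiv.Perm.sign σ) with h | h <;> rw [h] <;> simp
          rw [this, one_mul]
          rfl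
        rw [e1]
        calc ∏ i, |Lf μ (Qn n b τ (σ i).1 * Qn n b τ i.1)| ≤
              ∏ i : Fin r, (C0 * (A (σ i).1 * A i.1)) :=
              Finset.prod_le_prod (fun i _ => abs_nonneg _) (fun i _ => hent (σ i) i)
          _ = C0 ^ r * ((∏ i : Fin r, A (σ i).1) * ∏ i : Fin r, A i.1) := by
              rw [Finset.prod_mul_distrib (f := fun _ : Fin r => C0),
                Finset.prod_mul_distrib (f := fun i : Fin r => A (σ i).1), Finset.prod_const,
                Finset.card_univ, Fintype.card_fin]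
          _ = C0 ^ r * (∏ i : Fin r, A i.1) ^ 2 := by
              rw [Equiv.prod_comp σ (fun i : Fin r => A i.1), sq]
    _ = Run7.h795.UW.Arc N n h b (CJ b c1 c2 * (4 * (N : ℝ) ^ 2 * c2)) r := by
        rw [Finset.sum_const, Finset.card_univ, Fintype.card_perm, Fintype.card_fin,
          nsmul_eq_mul]
        unfold Run7.h795.UW.Arc
        rw [← hC0, mul_assoc]
        congr 2
        rw [← Finset.prod_pow, Finset.prod_range]
        apply Finset.prod_congr rfl
        intro i _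
        change ((MM N (i.1 / (b + 1)) ^ (2 * (m - 1 - i.1)))⁻¹) ^ 2 = _
        rw [inv_pow, ← pow_mul, hm2]
        congr 2
        ring

end Run7.h795.HJ
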