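import Pool.Agent.Run7.h795.HJ.Stm

/-!
# Rational combinations of consecutive zeta values: the asymptotic size
-/

open Polynomial Pool.Agent.H337R2 Pool.Agent.W165.OZ Filter Topology

namespace Run7.h795.HJ

noncomputable section

open Run7.h795.UW

/-- the splitting of the logarithm -/
lemma as_splitj {N n h b r B q m : ℕ} {C : ℝ} (hN : 1 ≤ N) (hC : 0 < C) (hq : 1 ≤ q)
    (hm : h * n / 2 = m) (hr : r ≤ m) :
    Real.log (Run7.h795.UW.Arc N n h b C r * (((q : ℝ) * (Dl n B : ℝ) ^ b) ^ r *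
      (∏ i ∈ Finset.range r, (sc n h B i : ℝ) ^ 2) * (PPn n (hj h b) B : ℝ))) ≤
    Real.log (Pool.Agent.W165.OZ.Arc (N * (b + 1)) n h C r *
      ((q : ℝ) ^ r * (∏ i ∈ Finset.range r, (sc n h B i : ℝ) ^ 2) * (PPn n h B : ℝ))) +
    (b * r : ℕ) * Real.log (4 * (h : ℝ) * n + b + 1) + (4 * m ^ 2 : ℕ) * Real.log 2 +
    (b * r : ℕ) * Real.log (Dl n B : ℝ) + Real.log (PPn n (hj h b) B : ℝ) := by
  have hD : (0 : ℝ) < (Dl n B : ℝ) := by exact_mod_cast Dl_pos n B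
  have hP1 : (1 : ℝ) ≤ (PPn n h B : ℝ) := by exact_mod_cast PPn_pos n h B
  have hP2 : (0 : ℝ) < (PPn n (hj h b) B : ℝ) := by exact_mod_cast PPn_pos n _ B
  have hs : (0 : ℝ) < ∏ i ∈ Finset.range r, (sc n h B i : ℝ) ^ 2 := by
    apply Finset.prod_pos
    intro i _
    have : (0 : ℝ) < (sc n h B i : ℝ) := by exact_mod_cast sc_pos n h B i
    positivity
  have hq0 : (0 : ℝ) < (q : ℝ) := by exact_mod_cast hq
  have hA := arcOZ_pos (N * (b + 1)) n h r hC
  have hA' := arc_pos N n h b r hC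
  have hY : (0 : ℝ) < 4 * (h : ℝ) * n + b + 1 := by positivity
  have key : Run7.h795.UW.Arc N n h b C r * (((q : ℝ) * (Dl n B : ℝ) ^ b) ^ r *
      (∏ i ∈ Finset.range r, (sc n h B i : ℝ) ^ 2) * (PPn n (hj h b) B : ℝ)) ≤
      (Pool.Agent.W165.OZ.Arc (N * (b + 1)) n h C r *
      ((q : ℝ) ^ r * (∏ i ∈ Finset.range r, (sc n h B i : ℝ) ^ 2) * (PPn n h B : ℝ))) *
      (4 * (h : ℝ) * n + b + 1) ^ (b * r) * 2 ^ (4 * m ^ 2) * (Dl n B : ℝ) ^ (b * r) *
      (PPn n (hj h b) B : ℝ) := by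
    have e1 := as_arc (b := b) hN hC hm hr
    rw [mul_pow, ← pow_mul]
    calc _ ≤ (Pool.Agent.W165.OZ.Arc (N * (b + 1)) n h C r *
          ((4 * (h : ℝ) * n + b + 1) ^ (b * r) * 2 ^ (4 * m ^ 2))) *
          (((q : ℝ) ^ r * (Dl n B : ℝ) ^ (b * r)) *
          (∏ i ∈ Finset.range r, (sc n h B i : ℝ) ^ 2) * (PPn n (hj h b) B : ℝ)) :=
          mul_le_mul_of_nonneg_right e1 (by positivity)
      _ = (Pool.Agent.W165.OZ.Arc (N * (b + 1)) n h C r *
          ((q : ℝ) ^ r * (∏ i ∈ Finset.range r, (sc n h B i : ℝ) ^ 2) * 1)) *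
          (4 * (h : ℝ) * n + b + 1) ^ (b * r) * 2 ^ (4 * m ^ 2) * (Dl n B : ℝ) ^ (b * r) *
          (PPn n (hj h b) B : ℝ) := by ring
      _ ≤ _ := by gcongr
  have hL : 0 < Run7.h795.UW.Arc N n h b C r * (((q : ℝ) * (Dl n B : ℝ) ^ b) ^ r *
      (∏ i ∈ Finset.range r, (sc n h B i : ℝ) ^ 2) * (PPn n (hj h b) B : ℝ)) := by positivity
  have hP1' : (0 : ℝ) < (PPn n h B : ℝ) := by linarith
  refine (Real.log_le_log hL key).trans (le_of_eq ?_)
  rw [Real.log_mul (by positivity) (by positivity), Real.log_mul (by positivity) (by positivity),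
    Real.log_mul (by positivity) (by positivity), Real.log_mul (by positivity) (by positivity),
    Real.log_pow, Real.log_pow, Real.log_pow]

theorem t_as : S_AS := by
  have h1 := Pool.Agent.W165.OZ.z_as
  have h2 := Pool.Agent.W165.OZ.t_pp
  have h3 := Pool.Agent.W165.OZ.t_dl
  obtain ⟨C1, hC1, H⟩ := h1
  refine ⟨C1 + 10, by linarith, ?_⟩
  intro N κ B b q C hN hκ hB hq hC hNκ
  obtain ⟨h, hh⟩ : ∃ h, h = (b + 1) * κ := ⟨_, rfl⟩
  rw [← hh]
  have hh1 : 1 ≤ h := by rw [hh]; exact Nat.mul_pos (by omega) (by omega)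
  have hbh : b + 1 ≤ h := by
    rw [hh]; exact Nat.le_mul_of_pos_right _ (by omega)
  have hNh : 2 * (N * (b + 1)) ≤ h := by
    rw [hh]
    calc 2 * (N * (b + 1)) = (b + 1) * (2 * N) := by ring
      _ ≤ (b + 1) * κ := Nat.mul_le_mul_left _ hNκ
  obtain ⟨n1, hn1⟩ := H (N * (b + 1)) h B q C (Nat.mul_pos (by omega) (by omega)) hh1 hB hq hC hNh
  obtain ⟨n2, hn2⟩ := as_growth ((b : ℝ) * Real.log (4 * (h : ℝ) + b + 1)) (b : ℝ)
    ((b : ℝ) * (4 * (B : ℝ) ^ ((3 : ℝ) / 4)))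
  refine ⟨max n1 n2, fun n hn hev r hr1 hr2 => ?_⟩
  obtain ⟨hn0, hgr⟩ := hn2 n ((le_max_right _ _).trans hn)
  have hOZ := hn1 n ((le_max_left _ _).trans hn) hev r hr1 hr2
  obtain ⟨m, hm⟩ : ∃ m, 2 * m = h * n := by
    obtain ⟨k, hk⟩ := hev
    exact ⟨h * k, by rw [hk]; ring⟩
  have hrm : r ≤ m := by omega
  have hsp := as_splitj (B := B) (b := b) (q := q) hN hC hq (show h * n / 2 = m by omega) hrm
  refine hsp.trans ?_
  have hPP := h2 n (hj h b) B hn0 hB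
  have hDL := h3 n B hn0 hB
  -- casts
  have hNR : (1 : ℝ) ≤ N := by exact_mod_cast hN
  have hκR : (1 : ℝ) ≤ κ := by exact_mod_cast hκ
  have hBR : (1 : ℝ) ≤ B := by exact_mod_cast hB
  have hnR : (1 : ℝ) ≤ n := by exact_mod_cast hn0
  have hhR : (1 : ℝ) ≤ h := by exact_mod_cast hh1
  have hbhR : (b : ℝ) + 1 ≤ h := by exact_mod_cast hbh
  have hb0 : (0 : ℝ) ≤ b := by positivity
  have hmR : 2 * (m : ℝ) = h * n := by exact_mod_cast hm
  have hrmR : (r : ℝ) ≤ m := by exact_mod_cast hrm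
  have hhe : (h : ℝ) = ((b : ℝ) + 1) * κ := by rw [hh]; push_cast; ring
  have hnh : (n : ℝ) ≤ h * n := by nlinarith
  have hhn0 : 0 ≤ (h : ℝ) * n := by positivity
  have hlogB : 0 ≤ Real.log B := Real.log_nonneg hBR
  have hW : ((b : ℝ) + 1) * κ * n = h * n := by rw [hhe]
  rw [hW]
  -- the main term
  obtain ⟨W, hWd⟩ : ∃ W : ℝ, W = ((h : ℝ) * n) ^ 2 := ⟨_, rfl⟩
  rw [← hWd] at hOZ ⊢
  have hW0 : 0 ≤ W := by rw [hWd]; positivity
  have hlr : Real.log ((h : ℝ) / (2 * ((N * (b + 1) : ℕ) : ℝ))) = Real.log ((κ : ℝ) / (2 * N)) := by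
    congr 1
    rw [hhe]
    push_cast
    field_simp
  rw [hlr] at hOZ
  have hx : (B : ℝ) * (B + 1) / h ≤ (B : ℝ) * (B + 1) / κ := by
    apply div_le_div_of_nonneg_left (by positivity) (by linarith)
    rw [hhe]; nlinarith
  have m1 : (C1 * (1 + ((B : ℝ) * (B + 1) / h) * (1 + Real.log B)) -
        (1 / 16) * Real.log ((κ : ℝ) / (2 * N))) * W ≤
      (C1 * (1 + ((B : ℝ) * (B + 1) / κ) * (1 + Real.log B)) -
        (1 / 16) * Real.log ((κ : ℝ) / (2 * N))) * W := by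
    apply mul_le_mul_of_nonneg_right _ hW0
    have := mul_le_mul_of_nonneg_right hx (show 0 ≤ 1 + Real.log (B : ℝ) by linarith)
    have := mul_le_mul_of_nonneg_left this hC1.le
    linarith
  -- 2^(4 m^2)
  have m2 : ((4 * m ^ 2 : ℕ) : ℝ) * Real.log 2 ≤ 1 * W := by
    have h2 : Real.log 2 ≤ 1 := by
      have := Real.log_le_sub_one_of_pos (show (0 : ℝ) < 2 by norm_num)
      linarith
    have e : ((4 * m ^ 2 : ℕ) : ℝ) = W := by
      rw [hWd, ← hmR]; push_cast; ring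
    rw [e, one_mul]
    calc W * Real.log 2 ≤ W * 1 := mul_le_mul_of_nonneg_left h2 hW0
      _ = W := mul_one W
  -- the small terms
  have hlogn : 0 ≤ Real.log n := Real.log_nonneg hnR
  have g1 : Real.log (4 * (h : ℝ) * n + b + 1) ≤ Real.log (4 * (h : ℝ) + b + 1) + Real.log n := by
    rw [← Real.log_mul (by positivity) (by positivity)]
    apply Real.log_le_log (by positivity)
    nlinarith
  have hBn : 0 < (B : ℝ) * n := by positivity
  have g2 : Real.sqrt ((B : ℝ) * n) * Real.log ((B : ℝ) * n) ≤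
      4 * (B : ℝ) ^ ((3 : ℝ) / 4) * (n : ℝ) ^ ((3 : ℝ) / 4) := by
    have := as_sqrt_log (y := (B : ℝ) * n) hBn
    rw [Real.mul_rpow (by linarith) (by linarith)] at this
    linarith
  have g3 : (b : ℝ) * Real.log (4 * (h : ℝ) * n + b + 1) +
      b * (Real.sqrt ((B : ℝ) * n) * Real.log ((B : ℝ) * n)) ≤ 6 * n := by
    have e1 := mul_le_mul_of_nonneg_left g1 hb0
    have e2 := mul_le_mul_of_nonneg_left g2 hb0
    refine le_trans (add_le_add e1 e2) (le_trans (le_of_eq ?_) hgr)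
    ring
  have g4 : (b : ℝ) * (n * Real.log 4) ≤ 2 * (h * n) := by
    have e1 : (b : ℝ) * (n * Real.log 4) = (b * n) * Real.log 4 := by ring
    rw [e1]
    calc (b * n : ℝ) * Real.log 4 ≤ (b * n) * 2 := mul_le_mul_of_nonneg_left log4_le (by positivity)
      _ ≤ 2 * (h * n) := by nlinarith
  have g5 : (b : ℝ) * Real.log (4 * (h : ℝ) * n + b + 1) + b * Real.log (Dl n B : ℝ) ≤
      8 * (h * n) := by
    have e1 := mul_le_mul_of_nonneg_left hDL hb0
    nlinarith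
  have hlogD : 0 ≤ Real.log (Dl n B : ℝ) := Real.log_nonneg (by exact_mod_cast Dl_pos n B)
  have hlogY : 0 ≤ Real.log (4 * (h : ℝ) * n + b + 1) := Real.log_nonneg (by nlinarith)
  have m3 : ((b * r : ℕ) : ℝ) * Real.log (4 * (h : ℝ) * n + b + 1) +
      ((b * r : ℕ) : ℝ) * Real.log (Dl n B : ℝ) ≤ 4 * W := by
    have e0 : 0 ≤ (b : ℝ) * Real.log (4 * (h : ℝ) * n + b + 1) + b * Real.log (Dl n B : ℝ) := by
      positivity
    calc ((b * r : ℕ) : ℝ) * Real.log (4 * (h : ℝ) * n + b + 1) +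
          ((b * r : ℕ) : ℝ) * Real.log (Dl n B : ℝ) =
        (r : ℝ) * ((b : ℝ) * Real.log (4 * (h : ℝ) * n + b + 1) + b * Real.log (Dl n B : ℝ)) := by
          push_cast; ring
      _ ≤ m * ((b : ℝ) * Real.log (4 * (h : ℝ) * n + b + 1) + b * Real.log (Dl n B : ℝ)) :=
          mul_le_mul_of_nonneg_right hrmR e0
      _ ≤ m * (8 * (h * n)) := mul_le_mul_of_nonneg_left g5 (by positivity)
      _ = 4 * W := by rw [hWd, ← hmR]; ring
  -- PPn
  have m4 : Real.log (PPn n (hj h b) B : ℝ) ≤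
      8 * (((B : ℝ) * (B + 1) / κ) * (1 + Real.log B)) * W := by
    refine hPP.trans ?_
    have e1 : ((hj h b : ℕ) : ℝ) ≤ 2 * (((b : ℝ) + 1) * h) := by
      have : hj h b ≤ 2 * ((b + 1) * h) := by
        unfold hj
        have : h + (b + 1) / 2 ≤ 2 * h := by omega
        calc (b + 1) * (h + (b + 1) / 2) ≤ (b + 1) * (2 * h) := Nat.mul_le_mul_left _ this
          _ = 2 * ((b + 1) * h) := by ring
      exact_mod_cast this
    have e2 : ((hj h b : ℕ) : ℝ) * Real.log 4 ≤ 8 * (((b : ℝ) + 1) * h) := by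
      have hl4 : 0 ≤ Real.log 4 := Real.log_nonneg (by norm_num)
      calc ((hj h b : ℕ) : ℝ) * Real.log 4 ≤ 2 * (((b : ℝ) + 1) * h) * Real.log 4 :=
            mul_le_mul_of_nonneg_right e1 hl4
        _ ≤ 2 * (((b : ℝ) + 1) * h) * 2 := mul_le_mul_of_nonneg_left log4_le (by positivity)
        _ ≤ 8 * (((b : ℝ) + 1) * h) := by nlinarith
    calc ((hj h b : ℕ) : ℝ) * Real.log 4 * ((B : ℝ) * (B + 1)) * (n : ℝ) ^ 2 * (1 + Real.log B) ≤
        8 * (((b : ℝ) + 1) * h) * ((B : ℝ) * (B + 1)) * (n : ℝ) ^ 2 * (1 + Real.log B) := by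
          have : 0 ≤ ((B : ℝ) * (B + 1)) * (n : ℝ) ^ 2 * (1 + Real.log B) := by positivity
          have := mul_le_mul_of_nonneg_right e2 this
          calc _ = ((hj h b : ℕ) : ℝ) * Real.log 4 * (((B : ℝ) * (B + 1)) * (n : ℝ) ^ 2 * (1 + Real.log B)) := by ring
            _ ≤ _ := this
            _ = _ := by ring
      _ = _ := by
          rw [hWd, hhe]
          have : (κ : ℝ) ≠ 0 := by linarith
          field_simp
  -- together
  have hX0 : 0 ≤ (B : ℝ) * (B + 1) / κ * (1 + Real.log B) * W := by positivity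
  have m5 := hOZ.trans m1
  have e : (C1 + 10) * (1 + (B : ℝ) * (B + 1) / κ * (1 + Real.log B)) * W =
      C1 * (1 + (B : ℝ) * (B + 1) / κ * (1 + Real.log B)) * W + 10 * W +
      10 * ((B : ℝ) * (B + 1) / κ * (1 + Real.log B) * W) := by ring
  have e' : ((C1 + 10) * (1 + (B : ℝ) * (B + 1) / κ * (1 + Real.log B)) -
      (1 / 16) * Real.log ((κ : ℝ) / (2 * N))) * W =
      (C1 * (1 + (B : ℝ) * (B + 1) / κ * (1 + Real.log B)) -
      (1 / 16) * Real.log ((κ : ℝ) / (2 * N))) * W + 10 * W +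
      10 * ((B : ℝ) * (B + 1) / κ * (1 + Real.log B) * W) := by
    rw [sub_mul, e]; ring
  rw [e']
  have e'' : 8 * ((B : ℝ) * (B + 1) / κ * (1 + Real.log B)) * W =
      8 * ((B : ℝ) * (B + 1) / κ * (1 + Real.log B) * W) := by ring
  rw [e''] at m4
  linarith

end

end Run7.h795.HJ
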