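import Pool.Agent.Run7.h795.HJ.Stm
import Pool.Agent.Run7.h795.UW.CO

/-!
# Rational combinations of consecutive zeta values: the core of the non-vanishing argument

Port of `Pool.Agent.Run7.h795.UW.CO` to the functionals `∑_{l ≤ b} Ω_l [s^l]`.
-/

set_option autoImplicit false

open Polynomial Pool.Agent.H337R2 Pool.Agent.W165.OZ Filter Topology

namespace Run7.h795.HJ

noncomputable section

open Run7.h795.UW

/-- the functional at a node -/
def DJ (n h b : ℕ) (t : ℝ) (o : ℕ → ℝ) (P : ℝ[X]) : ℝ :=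
  ∑ l ∈ Finset.range (b + 1), o l * Dv n h l t P

lemma DJ_C_mul (n h b : ℕ) (t : ℝ) (o : ℕ → ℝ) (c : ℝ) (P : ℝ[X]) :
    DJ n h b t o (C c * P) = c * DJ n h b t o P := by
  unfold DJ
  rw [Finset.mul_sum]
  refine Finset.sum_congr rfl fun l _ => ?_
  rw [Dv_C_mul]
  ring

lemma DJ_sum {ι : Type*} (n h b : ℕ) (t : ℝ) (o : ℕ → ℝ) (s : Finset ι) (P : ι → ℝ[X]) :
    DJ n h b t o (∑ i ∈ s, P i) = ∑ i ∈ s, DJ n h b t o (P i) := by
  unfold DJ
  rw [Finset.sum_comm]
  refine Finset.sum_congr rfl fun l _ => ?_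
  rw [Dv_sum, Finset.mul_sum]

lemma DJ_vanish {n h b : ℕ} {t : ℝ} {o : ℕ → ℝ} {P : ℝ[X]} (hP : (X - C (yv n t)) ^ (b + 1) ∣ P) :
    DJ n h b t o P = 0 := by
  unfold DJ
  refine Finset.sum_eq_zero fun l hl => ?_
  rw [Finset.mem_range] at hl
  rw [Dv_vanish ((pow_dvd_pow _ (by omega : l + 1 ≤ b + 1)).trans hP), mul_zero]

section

variable {N : ℕ} {δ c1 c2 : ℝ} {τ : ℕ → ℝ} {Ω : ℕ → ℕ → ℝ} {n h b : ℕ} {μ : ℕ → ℝ}

lemma c2_pos (hN : NodesJ N b δ c1 c2 τ Ω) : 0 < c2 :=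
  lt_of_lt_of_le hN.nodes.hc1 ((hN.nodes.wlo 0).trans (hN.nodes.whi 0))

lemma CJ_ge_one (hN : NodesJ N b δ c1 c2 τ Ω) : 1 ≤ CJ b c1 c2 := by
  have h1 := hN.nodes.hc1
  have h2 : c1 ≤ c2 := (hN.nodes.wlo 0).trans (hN.nodes.whi 0)
  unfold CJ
  rw [le_div_iff₀ h1, one_mul]
  have h3 : (0 : ℝ) ≤ b := Nat.cast_nonneg b
  nlinarith

lemma CJ_eq (hN : NodesJ N b δ c1 c2 τ Ω) : CJ b c1 c2 * c1 = ((b : ℝ) + 1) * c2 := by
  have h1 := hN.nodes.hc1
  unfold CJ
  field_simp

/-- the sum over `l` -/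
lemma sum_le (hN : NodesJ N b δ c1 c2 τ Ω) (i : ℕ) (f : ℕ → ℝ) (X : ℝ) (hX : 0 ≤ X)
    (hf : ∀ l ≤ b, |f l| ≤ X) : |∑ l ∈ Finset.range (b + 1), Ω i l * f l| ≤ CJ b c1 c2 * |Ω i b| * X := by
  have h1 : c1 ≤ |Ω i b| := hN.nodes.wlo i
  have h0 := CJ_ge_one hN
  calc |∑ l ∈ Finset.range (b + 1), Ω i l * f l| ≤ ∑ l ∈ Finset.range (b + 1), |Ω i l * f l| :=
        Finset.abs_sum_le_sum_abs _ _
    _ ≤ ∑ l ∈ Finset.range (b + 1), c2 * X := by
        refine Finset.sum_le_sum fun l hl => ?_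
        rw [Finset.mem_range] at hl
        rw [abs_mul]
        exact mul_le_mul (hN.le i l (by omega)) (hf l (by omega)) (abs_nonneg _) (c2_pos hN).le
    _ = CJ b c1 c2 * c1 * X := by
        rw [CJ_eq hN, Finset.sum_const, Finset.card_range, nsmul_eq_mul]
        push_cast
        ring
    _ ≤ _ := by
        apply mul_le_mul_of_nonneg_right _ hX
        exact mul_le_mul_of_nonneg_left h1 (by linarith)

lemma hasSum_LJ (hM : MomJ n h b τ Ω μ) (P : ℝ[X]) (hP : P.natDegree + 2 ≤ h * n) :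
    HasSum (fun i => DJ n h b (τ i) (Ω i) P) (Lf μ P) := by
  rw [Lf_apply μ P (P.natDegree + 1) (Nat.lt_succ_self _)]
  have h1 : (fun i => DJ n h b (τ i) (Ω i) P) = fun i =>
      ∑ k ∈ Finset.range (P.natDegree + 1), P.coeff k * DJ n h b (τ i) (Ω i) (X ^ k) := by
    funext i
    conv_lhs => rw [P.as_sum_range_C_mul_X_pow]
    rw [DJ_sum]
    refine Finset.sum_congr rfl fun k _ => ?_
    rw [DJ_C_mul]
  rw [h1]
  refine hasSum_sum fun k hk => (hM k ?_).mul_left _
  have := Finset.mem_range.1 hk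
  omega

/-- the coefficients of the triangular system -/
def hJ (n h b : ℕ) (t : ℝ) (o : ℕ → ℝ) (G : ℝ[X]) (a : ℕ) : ℝ :=
  DJ n h b t o ((X - C (yv n t)) ^ (b - a) * G)

lemma hJ_zero (t : ℝ) (o : ℕ → ℝ) (G : ℝ[X]) (hn : 1 ≤ n) (ht : 1 ≤ t) : |hJ n h b t o G 0| =
    |o b| * (Rv n h t * (t + t + ((n : ℝ) - 1)) ^ b * |G.eval (yv n t)|) := by
  unfold hJ DJ
  rw [Finset.sum_range_succ, Finset.sum_eq_zero, zero_add, abs_mul, Dv_hq t G 0 (Nat.zero_le b),
    hq_zero t G hn ht]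
  intro l hl
  rw [Finset.mem_range] at hl
  rw [Nat.sub_zero, Dv_vanish (Dvd.dvd.mul_right (pow_dvd_pow _ (by omega)) _), mul_zero]

lemma hJ_bound (hN : NodesJ N b δ c1 c2 τ Ω) (i : ℕ) (t : ℝ) (G : ℝ[X]) (e a : ℕ) (hn : 1 ≤ n) (ht : 1 ≤ t)
    (he : e ≤ 2 * h * n) (hG : Mj (1 / δ) e |G.eval (yv n t)| (Polynomial.aeval (ys n t) G)) (ha : a ≤ b) :
    |hJ n h b t (Ω i) G a| ≤ CJ b c1 c2 * |Ω i b| * ((Rv n h t * (t + t + ((n : ℝ) - 1)) ^ b *
      |G.eval (yv n t)|) * ((4 * h * n + b + 1) / δ) ^ a) := by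
  have hn1 : (1 : ℝ) ≤ (n : ℝ) := by exact_mod_cast hn
  have hδ := hN.nodes.hδ
  have hδ1 := hN.nodes.hδ1
  have hR := (Rv_pos' (h := h) hn ht).le
  have hy1 : 1 ≤ t + t + ((n : ℝ) - 1) := by linarith
  have hW1 : 1 ≤ (4 * h * n + b + 1 : ℝ) / δ := by
    rw [le_div_iff₀ hδ]
    have : (0 : ℝ) ≤ 4 * h * n + b := by positivity
    linarith
  unfold hJ DJ
  apply sum_le hN i _ _ (by positivity)
  intro l hl
  by_cases hla : b - a ≤ l
  · have h1 := hq_bound (h := h) (b := l) t G e (l - (b - a)) hn ht hδ hδ1 he hG (Nat.sub_le _ _)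
    rw [← Dv_hq t G (l - (b - a)) (Nat.sub_le _ _), Nat.sub_sub_self hla] at h1
    refine h1.trans ?_
    apply mul_le_mul
    · apply mul_le_mul_of_nonneg_right _ (abs_nonneg _)
      exact mul_le_mul_of_nonneg_left (pow_le_pow_right₀ hy1 hl) hR
    · have h2 : (4 * h * n + l + 1 : ℝ) / δ ≤ (4 * h * n + b + 1) / δ := by
        apply div_le_div_of_nonneg_right _ hδ.le
        have : (l : ℝ) ≤ b := by exact_mod_cast hl
        linarith
      have h3 : (0 : ℝ) ≤ (4 * h * n + l + 1 : ℝ) / δ := by positivity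
      exact (pow_le_pow_left₀ h3 h2 _).trans (pow_le_pow_right₀ hW1 (by omega))
    · positivity
    · positivity
  · rw [Dv_vanish (Dvd.dvd.mul_right (pow_dvd_pow _ (by omega)) _), abs_zero]
    positivity

end

open Pool.Agent.W165.OZ.CO (tau_gt tau_mono y_mono y_ge L_zero) in
theorem t_co : S_CO := by
  intro N b δ c1 c2 τ Ω hNJ n h hn hh μ hM M M0 hM0 hMM hmn Q hQ0 hQd hQ
  have hN := hNJ.nodes
  have hC1 := CJ_ge_one hNJ
  obtain ⟨K1, hK1⟩ : ∃ K1 : ℝ, K1 = CJ b c1 c2 := ⟨_, rfl⟩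
  rw [← hK1] at hC1
  have hc1 := hN.hc1
  have hδ := hN.hδ
  have hδ1 := hN.hδ1
  have ht1 : ∀ i, 1 ≤ τ i := fun i => (tau_gt hN i).le
  obtain ⟨y, hydef⟩ : ∃ y : ℕ → ℝ, y = fun i => yv n (τ i) := ⟨_, rfl⟩
  have hyi : ∀ i, yv n (τ i) = y i := fun i => by rw [hydef]
  have hmono : StrictMono y := by
    rw [hydef]; exact y_mono hN hn
  have hy1 : ∀ i, 1 ≤ y i := fun i => by
    rw [← hyi]; exact y_ge hN hn i
  have hR0 : ∀ i, 0 < Rv n h (τ i) := fun i => Rv_pos' hn (ht1 i)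
  have hMY : ∀ (l : ℕ) (s : Finset ℕ), (∀ i ∈ s, i ≤ l) → MY n (τ l) (s.card * ((b + 1) * 1)) (GG y (b + 1) s) := by
    intro l s hs
    rw [hydef]; exact MY_GG hN hn (b + 1) l s hs
  have hMj : ∀ (j : ℕ) (s : Finset ℕ), j ∉ s → Mj (1 / δ) (s.card * ((b + 1) * (1 + 1)))
      (|(GG y (b + 1) s).eval (y j)|) (Polynomial.aeval (ys n (τ j)) (GG y (b + 1) s)) := by
    intro j s hs
    rw [hydef]; exact Mj_GG hN hn (b + 1) j s hs
  have hn1 : (1 : ℝ) ≤ n := by exact_mod_cast hn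
  obtain ⟨E, hE⟩ : ∃ E : ℕ, E = ((b + 1) * M - 1) + ((b + 1) * M0 - 1) := ⟨_, rfl⟩
  have hbM0 : (b + 1) * M0 ≤ (b + 1) * M := Nat.mul_le_mul_left _ hMM
  have hbM1 : (b + 1) ≤ (b + 1) * M0 := Nat.le_mul_of_pos_right _ hM0
  have eM0 : (M0 - 1) * (b + 1) + (b + 1) = (b + 1) * M0 := by
    obtain ⟨m, rfl⟩ : ∃ m, M0 = m + 1 := ⟨M0 - 1, by omega⟩
    rw [Nat.add_sub_cancel]; ring
  have eM : (M - 1) * (b + 1) + (b + 1) = (b + 1) * M := by
    obtain ⟨m, rfl⟩ : ∃ m, M = m + 1 := ⟨M - 1, by omega⟩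
    rw [Nat.add_sub_cancel]; ring
  have hE2 : E + 2 ≤ h * n := by omega
  obtain ⟨hYs, -⟩ := Pool.Agent.W165.OZ.t_tb N δ c1 c2 τ (fun i => Ω i b) hN n h M E hn hh hE2
  rw [← hE]
  simp only [hyi] at hYs ⊢
  obtain ⟨Y, hY⟩ : ∃ Y : ℝ, Y = ∑' i, |Ω (i + M) b| * (Rv n h (τ (i + M)) * y (i + M) ^ E) := ⟨_, rfl⟩
  rw [← hY]
  -- partial fractions
  obtain ⟨c, hc⟩ := pf_real y hmono.injective (b + 1) (Finset.range M0) Q (by
    rw [Polynomial.degree_eq_natDegree (GG_monic y (b + 1) (Finset.range M0)).ne_zero, GG_natDegree,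
      Finset.card_range]
    refine lt_of_le_of_lt Polynomial.degree_le_natDegree ?_
    rw [mul_comm M0]
    exact_mod_cast hQd)
  obtain ⟨Z, hZ⟩ : ∃ Z : ℝ, Z = ∑ j ∈ Finset.range M0, ∑ i ∈ Finset.range (b + 1), |c j i| := ⟨_, rfl⟩
  have hZ0 : 0 < Z := by
    have h0 : 0 ≤ Z := by
      rw [hZ]
      exact Finset.sum_nonneg fun _ _ => Finset.sum_nonneg fun _ _ => abs_nonneg _
    refine lt_of_le_of_ne h0 fun h1 => hQ0 ?_
    rw [hc]
    refine Finset.sum_eq_zero fun j hj => Finset.sum_eq_zero fun i hi => ?_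
    rw [← h1] at hZ
    have h2 := (Finset.sum_eq_zero_iff_of_nonneg (fun j _ => Finset.sum_nonneg fun i _ => abs_nonneg (c j i))).1
      hZ.symm j hj
    have h3 := (Finset.sum_eq_zero_iff_of_nonneg (fun i _ => abs_nonneg (c j i))).1 h2 i hi
    rw [abs_eq_zero.1 h3, map_zero, zero_mul]
  obtain ⟨W2, hW2⟩ : ∃ W2 : ℝ, W2 = (4 * h * n + b + 1 : ℝ) ^ b := ⟨_, rfl⟩
  have hW20 : 0 < W2 := by rw [hW2]; positivity
  obtain ⟨W0, hW0⟩ : ∃ W0 : ℝ, W0 = (4 * h * n + b + 1 : ℝ) / δ := ⟨_, rfl⟩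
  have hW01 : 1 ≤ W0 := by
    rw [hW0, le_div_iff₀ hδ]
    have : (0 : ℝ) ≤ 4 * h * n + b := by positivity
    linarith
  obtain ⟨W, hW⟩ : ∃ W : ℝ, W = K1 * W0 := ⟨_, rfl⟩
  have hW1 : 1 ≤ W := by
    rw [hW]
    nlinarith
  have hPW : CJ b c1 c2 ^ (b + 1) * PW n h b δ = ((b : ℝ) + 1) * (2 * W) ^ b * (K1 * W2) := by
    unfold PW
    rw [hW, hW0, hW2, ← hK1, pow_succ, mul_pow, mul_pow, mul_pow]
    ring
  rw [hPW]
  -- the test polynomials
  have hexp : ∀ P : ℝ[X], Q * P = ∑ k ∈ Finset.range M0, ∑ i' ∈ Finset.range (b + 1),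
      C (c k i') * (((X - C (y k)) ^ i' * GG y (b + 1) ((Finset.range M0).erase k)) * P) := by
    intro P
    conv_lhs => rw [hc]
    rw [Finset.sum_mul]
    refine Finset.sum_congr rfl fun k _ => ?_
    rw [Finset.sum_mul]
    refine Finset.sum_congr rfl fun i' _ => ?_
    ring
  have htail0 : ∀ j < M0, ∀ i ≤ b, ∀ l, ∀ b' ≤ b, |Dv n h b' (τ (l + M)) (Q * ((X - C (y j)) ^ (b - i) *
      GG y (b + 1) ((Finset.range M).erase j)))| ≤ Z * W2 * (Rv n h (τ (l + M)) * y (l + M) ^ E) := by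
    intro j hj i hi l b' hb'
    rw [hexp, Dv_sum]
    refine (Finset.abs_sum_le_sum_abs _ _).trans ?_
    rw [hZ, Finset.sum_mul, Finset.sum_mul]
    refine Finset.sum_le_sum fun k hk => ?_
    rw [Dv_sum, Finset.sum_mul, Finset.sum_mul]
    refine (Finset.abs_sum_le_sum_abs _ _).trans (Finset.sum_le_sum fun i' hi' => ?_)
    rw [Finset.mem_range] at hk hi'
    rw [Dv_C_mul, abs_mul, mul_assoc |c k i'| W2]
    apply mul_le_mul_of_nonneg_left _ (abs_nonneg _)
    have hlin : ∀ a, a < M → MY n (τ (l + M)) 1 (X - C (y a)) := by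
      intro a ha
      apply MY.lin hn (ht1 _)
      · linarith [hy1 a]
      · rw [hyi]; exact hmono.monotone (by omega)
    have m1 := ((hlin k (by omega)).pow hn (ht1 _) i').mul hn (ht1 _)
      (hMY (l + M) ((Finset.range M0).erase k) (fun a ha => by
        have := Finset.mem_range.1 (Finset.mem_of_mem_erase ha); omega))
    have m2 := ((hlin j (by omega)).pow hn (ht1 _) (b - i)).mul hn (ht1 _)
      (hMY (l + M) ((Finset.range M).erase j) (fun a ha => by
        have := Finset.mem_range.1 (Finset.mem_of_mem_erase ha); omega))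
    have m3 := m1.mul hn (ht1 _) m2
    rw [Finset.card_erase_of_mem (Finset.mem_range.2 hk), Finset.card_range,
      Finset.card_erase_of_mem (Finset.mem_range.2 (by omega : j < M)), Finset.card_range] at m3
    have hK : (i' * 1 + (M0 - 1) * ((b + 1) * 1)) + ((b - i) * 1 + (M - 1) * ((b + 1) * 1)) ≤ E := by
      rw [mul_one, mul_one, mul_one]
      omega
    have h5 := Dv_bound (h := h) (b := b') hn (ht1 _) (by omega) m3
    refine h5.trans ?_
    have h5a : (4 * h * n + b' + 1 : ℝ) ^ b' ≤ W2 := by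
      rw [hW2]
      have h5b : (b' : ℝ) ≤ b := by exact_mod_cast hb'
      have h5c : (0 : ℝ) ≤ 4 * h * n := by positivity
      have h5d : (0 : ℝ) ≤ b' := Nat.cast_nonneg _
      exact (pow_le_pow_left₀ (by linarith) (by linarith : (4 * h * n + b' + 1 : ℝ) ≤ 4 * h * n + b + 1) _).trans
        (pow_le_pow_right₀ (by linarith) hb')
    apply mul_le_mul h5a _ (mul_nonneg (hR0 _).le (pow_nonneg (by rw [hyi]; linarith [hy1 (l + M)]) _)) hW20.le
    apply mul_le_mul_of_nonneg_left _ (hR0 _).le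
    rw [hyi]
    exact pow_le_pow_right₀ (hy1 _) hK
  have htail : ∀ j < M0, ∀ i ≤ b, ∀ l, |DJ n h b (τ (l + M)) (Ω (l + M)) (Q * ((X - C (y j)) ^ (b - i) *
      GG y (b + 1) ((Finset.range M).erase j)))| ≤
        Z * (K1 * W2) * (|Ω (l + M) b| * (Rv n h (τ (l + M)) * y (l + M) ^ E)) := by
    intro j hj i hi l
    have h1 := sum_le hNJ (l + M) _ _ (mul_nonneg (mul_nonneg hZ0.le hW20.le)
      (mul_nonneg (hR0 (l + M)).le (pow_nonneg (by linarith [hy1 (l + M)]) E))) (htail0 j hj i hi l)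
    rw [← hK1] at h1
    refine h1.trans (le_of_eq ?_)
    ring
  have hkey : ∀ j < M0, ∀ i ≤ b, |DJ n h b (τ j) (Ω j) (Q * ((X - C (y j)) ^ (b - i) *
      GG y (b + 1) ((Finset.range M).erase j)))| ≤ Z * (K1 * W2) * Y := by
    intro j hj i hi
    have hjM : j < M := by omega
    obtain ⟨P, hP⟩ : ∃ P : ℝ[X], P = (X - C (y j)) ^ (b - i) * GG y (b + 1) ((Finset.range M).erase j) := ⟨_, rfl⟩
    have ht := htail j hj i hi
    rw [← hP] at ht ⊢
    have hPd : P.natDegree < (b + 1) * M := by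
      rw [hP, ((Polynomial.monic_X_sub_C _).pow _).natDegree_mul (GG_monic _ _ _),
        (Polynomial.monic_X_sub_C _).natDegree_pow, Polynomial.natDegree_X_sub_C, GG_natDegree,
        Finset.card_erase_of_mem (Finset.mem_range.2 hjM), Finset.card_range, mul_one]
      omega
    have hL : Lf μ (Q * P) = 0 := L_zero Q hQ P hPd
    have hdeg : (Q * P).natDegree + 2 ≤ h * n := by
      have := natDegree_mul_le (p := Q) (q := P)
      omega
    have h1 := hasSum_LJ hM (Q * P) hdeg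
    rw [hL] at h1
    have h2 := (hasSum_nat_add_iff' M).2 h1
    have h3 : ∑ l ∈ Finset.range M, DJ n h b (τ l) (Ω l) (Q * P) = DJ n h b (τ j) (Ω j) (Q * P) := by
      refine Finset.sum_eq_single_of_mem j (Finset.mem_range.2 hjM) fun l hl hlj => ?_
      apply DJ_vanish
      rw [hyi, hP]
      exact Dvd.dvd.mul_left (Dvd.dvd.mul_left (GG_dvd y (b + 1) _ (Finset.mem_erase.2 ⟨hlj, hl⟩)) _) _
    rw [h3, zero_sub] at h2
    have h4 : ‖∑' l, DJ n h b (τ (l + M)) (Ω (l + M)) (Q * P)‖ ≤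
        ∑' l, Z * (K1 * W2) * (|Ω (l + M) b| * (Rv n h (τ (l + M)) * y (l + M) ^ E)) := by
      refine tsum_of_norm_bounded (hYs.mul_left _).hasSum fun l => ?_
      rw [Real.norm_eq_abs]
      exact ht l
    rw [tsum_mul_left, ← hY, h2.tsum_eq, norm_neg, Real.norm_eq_abs] at h4
    exact h4
  -- the triangular systems
  have hA : ∀ j < M0, 0 < c1 * Rv n h (τ j) * (∏ l ∈ (Finset.range M).erase j, |y j - y l|) ^ (b + 1) *
        (∏ l ∈ (Finset.range M0).erase j, |y j - y l|) ^ (b + 1) := by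
    intro j _
    have hPi : ∀ (M : ℕ), 0 < ∏ l ∈ (Finset.range M).erase j, |y j - y l| := fun M =>
      Finset.prod_pos fun l hl => abs_pos.2 (sub_ne_zero.2 fun h =>
        (Finset.ne_of_mem_erase hl) (hmono.injective h).symm)
    have := hPi M
    have := hPi M0
    have := hR0 j
    positivity
  have hY0 : 0 ≤ Y := by
    rw [hY]
    refine tsum_nonneg fun i => ?_
    have := hR0 (i + M)
    have := hy1 (i + M)
    positivity
  have hcb : ∀ j < M0, ∀ i ≤ b, |c j i| ≤ Z * (K1 * W2) * Y / (c1 * Rv n h (τ j) *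
      (∏ l ∈ (Finset.range M).erase j, |y j - y l|) ^ (b + 1) *
        (∏ l ∈ (Finset.range M0).erase j, |y j - y l|) ^ (b + 1)) * (2 * W) ^ b := by
    intro j hj i hi
    have hjM : j < M := by omega
    obtain ⟨G, hG⟩ : ∃ G : ℝ[X], G = GG y (b + 1) ((Finset.range M0).erase j) *
      GG y (b + 1) ((Finset.range M).erase j) := ⟨_, rfl⟩
    have hGe : |G.eval (y j)| = (∏ l ∈ (Finset.range M0).erase j, |y j - y l|) ^ (b + 1) *
        (∏ l ∈ (Finset.range M).erase j, |y j - y l|) ^ (b + 1) := by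
      rw [hG, Polynomial.eval_mul, abs_mul, GG_eval_abs, GG_eval_abs]
    have hGM : Mj (1 / δ) ((M0 - 1) * ((b + 1) * (1 + 1)) + (M - 1) * ((b + 1) * (1 + 1)))
        |G.eval (yv n (τ j))| (Polynomial.aeval (ys n (τ j)) G) := by
      rw [hyi, hG, Polynomial.eval_mul, abs_mul, map_mul]
      have g1 := hMj j ((Finset.range M0).erase j) (Finset.notMem_erase _ _)
      have g2 := hMj j ((Finset.range M).erase j) (Finset.notMem_erase _ _)
      rw [Finset.card_erase_of_mem (Finset.mem_range.2 hj), Finset.card_range] at g1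
      rw [Finset.card_erase_of_mem (Finset.mem_range.2 hjM), Finset.card_range] at g2
      exact Mj.mul (by positivity) (abs_nonneg _) g1 g2
    have hte : (M0 - 1) * ((b + 1) * (1 + 1)) + (M - 1) * ((b + 1) * (1 + 1)) ≤ 2 * h * n := by
      have e1 : (M0 - 1) * ((b + 1) * (1 + 1)) = 2 * ((M0 - 1) * (b + 1)) := by ring
      have e2 : (M - 1) * ((b + 1) * (1 + 1)) = 2 * ((M - 1) * (b + 1)) := by ring
      have e3 : 2 * h * n = 2 * (h * n) := by ring
      omega
    obtain ⟨y', hy'⟩ : ∃ y' : ℝ, y' = τ j + τ j + ((n : ℝ) - 1) := ⟨_, rfl⟩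
    have hy'1 : 1 ≤ y' := by rw [hy']; linarith [ht1 j]
    have hGpos : 0 < |G.eval (y j)| := by
      rw [hGe]
      have h6 := hA j hj
      have h7 := hR0 j
      by_contra hcon
      rw [not_lt] at hcon
      have h8 : c1 * Rv n h (τ j) * (∏ l ∈ (Finset.range M).erase j, |y j - y l|) ^ (b + 1) *
          (∏ l ∈ (Finset.range M0).erase j, |y j - y l|) ^ (b + 1) ≤ 0 := by
        calc _ = c1 * Rv n h (τ j) * ((∏ l ∈ (Finset.range M0).erase j, |y j - y l|) ^ (b + 1) *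
        (∏ l ∈ (Finset.range M).erase j, |y j - y l|) ^ (b + 1)) := by ring
          _ ≤ 0 := mul_nonpos_of_nonneg_of_nonpos (by positivity) hcon
      linarith
    have hRj := hR0 j
    have hwj : c1 ≤ |Ω j b| := hN.wlo j
    have hwj0 : 0 < |Ω j b| := lt_of_lt_of_le hc1 hwj
    have hA0 : 0 < |Ω j b| * (Rv n h (τ j) * y' ^ b * |G.eval (y j)|) := by positivity
    have hK10 : 0 < K1 := by linarith
    have htri := tri_inv b (c j) (hJ n h b (τ j) (Ω j) G) (|Ω j b| * (Rv n h (τ j) * y' ^ b * |G.eval (y j)|)) W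
      (Z * (K1 * W2) * Y) hA0 hW1
      (by rw [hJ_zero (τ j) (Ω j) G hn (ht1 j), hyi, hy'])
      (fun a ha => by
        rcases Nat.eq_zero_or_pos a with rfl | ha0
        · rw [hJ_zero (τ j) (Ω j) G hn (ht1 j), hyi, hy', pow_zero, mul_one]
        have := hJ_bound (h := h) hNJ j (τ j) G _ a hn (ht1 j) hte hGM ha
        rw [hyi, ← hW0, ← hy', ← hK1] at this
        refine this.trans ?_
        have e1 : K1 ≤ K1 ^ a := le_self_pow₀ hC1 (by omega)
        have e2 : 0 ≤ |Ω j b| * (Rv n h (τ j) * y' ^ b * |G.eval (y j)|) * W0 ^ a := by positivity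
        calc K1 * |Ω j b| * (Rv n h (τ j) * y' ^ b * |G.eval (y j)| * W0 ^ a) =
              K1 * (|Ω j b| * (Rv n h (τ j) * y' ^ b * |G.eval (y j)|) * W0 ^ a) := by ring
          _ ≤ K1 ^ a * (|Ω j b| * (Rv n h (τ j) * y' ^ b * |G.eval (y j)|) * W0 ^ a) :=
              mul_le_mul_of_nonneg_right e1 e2
          _ = _ := by rw [hW, mul_pow]; ring)
      (fun i hi => by
        have h6 := hkey j hj i hi
        rw [hexp, DJ_sum, Finset.sum_eq_single_of_mem j (Finset.mem_range.2 hj)] at h6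
        · rw [DJ_sum] at h6
          have h7 : ∑ i' ∈ Finset.range (i + 1), c j i' * hJ n h b (τ j) (Ω j) G (i - i') =
              ∑ i' ∈ Finset.range (b + 1), DJ n h b (τ j) (Ω j) (C (c j i') *
                (((X - C (y j)) ^ i' * GG y (b + 1) ((Finset.range M0).erase j)) *
                ((X - C (y j)) ^ (b - i) * GG y (b + 1) ((Finset.range M).erase j)))) := by
            have h8 : ∀ i' ∈ Finset.range (b + 1), i' ∉ Finset.range (i + 1) → DJ n h b (τ j) (Ω j) (C (c j i') *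
                (((X - C (y j)) ^ i' * GG y (b + 1) ((Finset.range M0).erase j)) *
                ((X - C (y j)) ^ (b - i) * GG y (b + 1) ((Finset.range M).erase j)))) = 0 := by
              intro i' h9 h10
              rw [Finset.mem_range] at h9 h10
              apply DJ_vanish
              rw [hyi]
              have e : C (c j i') * (((X - C (y j)) ^ i' * GG y (b + 1) ((Finset.range M0).erase j)) *
                ((X - C (y j)) ^ (b - i) * GG y (b + 1) ((Finset.range M).erase j))) =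
                (X - C (y j)) ^ (i' + (b - i)) * (C (c j i') * (GG y (b + 1) ((Finset.range M0).erase j) *
                  GG y (b + 1) ((Finset.range M).erase j))) := by
                rw [pow_add]; ring
              rw [e]
              exact Dvd.dvd.mul_right (pow_dvd_pow _ (by omega)) _
            rw [← Finset.sum_subset (Finset.range_subset_range.2 (by omega : i + 1 ≤ b + 1)) h8]
            refine Finset.sum_congr rfl fun i' hi' => ?_
            rw [Finset.mem_range] at hi'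
            rw [DJ_C_mul]
            unfold hJ
            rw [hyi, hG]
            congr 2
            have e : b - (i - i') = i' + (b - i) := by omega
            rw [e, pow_add]
            ring
          rw [h7]
          exact h6
        · intro k hk hkj
          rw [DJ_sum]
          refine Finset.sum_eq_zero fun i' _ => ?_
          apply DJ_vanish
          rw [hyi]
          have h8 := GG_dvd y (b + 1) ((Finset.range M0).erase k)
            (Finset.mem_erase.2 ⟨Ne.symm hkj, Finset.mem_range.2 hj⟩)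
          exact Dvd.dvd.mul_left (Dvd.dvd.mul_right (Dvd.dvd.mul_left h8 _) _) _) i hi
    refine htri.trans ?_
    have h9 : (2 * W) ^ i ≤ (2 * W) ^ b := pow_le_pow_right₀ (by linarith) hi
    apply mul_le_mul _ h9 (by positivity) (div_nonneg (by positivity) (hA j hj).le)
    apply div_le_div_of_nonneg_left (by positivity) (hA j hj)
    have h10 : 1 ≤ y' ^ b := one_le_pow₀ hy'1
    rw [hGe]
    have h11 : 0 < (∏ l ∈ (Finset.range M0).erase j, |y j - y l|) ^ (b + 1) *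
        (∏ l ∈ (Finset.range M).erase j, |y j - y l|) ^ (b + 1) := by rw [← hGe]; exact hGpos
    calc c1 * Rv n h (τ j) * (∏ l ∈ (Finset.range M).erase j, |y j - y l|) ^ (b + 1) *
          (∏ l ∈ (Finset.range M0).erase j, |y j - y l|) ^ (b + 1) =
          c1 * (Rv n h (τ j) * 1 * ((∏ l ∈ (Finset.range M0).erase j, |y j - y l|) ^ (b + 1) *
        (∏ l ∈ (Finset.range M).erase j, |y j - y l|) ^ (b + 1))) := by ring
      _ ≤ _ := by gcongr
  -- conclusion
  have hfin : Z ≤ Z * (((b : ℝ) + 1) * (2 * W) ^ b * (K1 * W2) * ∑ j ∈ Finset.range M0, Y / (c1 * Rv n h (τ j) *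
      (∏ l ∈ (Finset.range M).erase j, |y j - y l|) ^ (b + 1) *
        (∏ l ∈ (Finset.range M0).erase j, |y j - y l|) ^ (b + 1))) := by
    conv_lhs => rw [hZ]
    rw [Finset.mul_sum, Finset.mul_sum]
    refine Finset.sum_le_sum fun j hj => ?_
    rw [Finset.mem_range] at hj
    refine (Finset.sum_le_sum fun i hi => hcb j hj i (by
      have := Finset.mem_range.1 hi; omega)).trans (le_of_eq ?_)
    rw [Finset.sum_const, Finset.card_range, nsmul_eq_mul]
    push_cast
    ring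
  exact le_of_mul_le_mul_left (by rw [mul_one]; exact hfin) hZ0

end

end Run7.h795.HJ
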