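import Pool.Agent.Run7.h795.HJ.Stm
import Pool.Agent.W165.OZ.FJ

/-!
# Rational combinations of consecutive zeta values: the final theorem
-/

set_option autoImplicit false

open Polynomial Pool.Agent.H337R2 Pool.Agent.W165.OZ Filter Topology

namespace Run7.h795.HJ

noncomputable section

open Run7.h795.UW

/-- the combination `∑_{l ≤ b} a_l C(i + l - 1, l) ζ(i + l)` -/
def Zc (b : ℕ) (a : ℕ → ℚ) (i : ℕ) : ℝ :=
  ∑ l ∈ Finset.range (b + 1), (a l : ℝ) * (Nat.choose (i + l - 1) l : ℝ) * ∑' n : ℕ, 1 / ((n : ℝ) + 1) ^ (i + l)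

theorem choose_shift (t l m : ℕ) :
    (l + m).descFactorial m * Nat.choose (t + (l + m)) t = Nat.choose (t + m + l) l * (t + m).descFactorial m := by
  have h1 := Nat.factorial_mul_descFactorial (Nat.le_add_left m l)
  rw [Nat.add_sub_cancel] at h1
  have h2 := Nat.factorial_mul_descFactorial (Nat.le_add_left m t)
  rw [Nat.add_sub_cancel] at h2
  have h3 := Nat.add_choose_mul_factorial_mul_factorial (l + m) t
  have h4 := Nat.add_choose_mul_factorial_mul_factorial (t + m) l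
  have h5 : l + m + t = t + m + l := by ring
  have h6 : t + (l + m) = t + m + l := by ring
  rw [h5] at h3
  rw [h6]
  have h7 : 0 < l.factorial * t.factorial := Nat.mul_pos (Nat.factorial_pos _) (Nat.factorial_pos _)
  apply Nat.eq_of_mul_eq_mul_left h7
  calc l.factorial * t.factorial * ((l + m).descFactorial m * Nat.choose (t + m + l) t)
      = Nat.choose (t + m + l) t * (l.factorial * (l + m).descFactorial m) * t.factorial := by ring
    _ = (t + m + l).factorial := by rw [h1, h3]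
    _ = Nat.choose (t + m + l) l * (t.factorial * (t + m).descFactorial m) * l.factorial := by rw [h2, h4]
    _ = _ := by ring

theorem top_index (b : ℕ) (a : ℕ → ℚ) (ha : ∃ l, l ≤ b ∧ a l ≠ 0) :
    ∃ b0, b0 ≤ b ∧ a b0 ≠ 0 ∧ ∀ l, b0 < l → l ≤ b → a l = 0 := by
  classical
  obtain ⟨l0, hl0, hl1⟩ := ha
  have hne : ((Finset.range (b + 1)).filter (fun l => a l ≠ 0)).Nonempty :=
    ⟨l0, by rw [Finset.mem_filter, Finset.mem_range]; exact ⟨by omega, hl1⟩⟩
  obtain ⟨b0, hb0, hmax⟩ := Finset.exists_max_image _ (fun l => l) hne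
  rw [Finset.mem_filter, Finset.mem_range] at hb0
  refine ⟨b0, by omega, hb0.2, fun l h1 h2 => ?_⟩
  by_contra h3
  have := hmax l (by rw [Finset.mem_filter, Finset.mem_range]; exact ⟨by omega, h3⟩)
  omega

theorem Zc_top (b b0 : ℕ) (a : ℕ → ℚ) (h : b0 ≤ b) (h0 : ∀ l, b0 < l → l ≤ b → a l = 0) (i : ℕ) :
    Zc b a i = Zc b0 a i := by
  unfold Zc
  symm
  apply Finset.sum_subset (Finset.range_subset_range.2 (by omega))
  intro l h1 h2
  rw [Finset.mem_range] at h1 h2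
  rw [h0 l (by omega) (by omega)]
  simp

/-- a common denominator -/
theorem den_exists (b : ℕ) (a : ℕ → ℚ) : ∃ q : ℕ, 1 ≤ q ∧ ∃ c : ℕ → ℤ, ∀ l ≤ b, (c l : ℚ) = q * a l := by
  obtain ⟨q, hqdef⟩ : ∃ q : ℕ, q = ∏ i ∈ Finset.range (b + 1), (a i).den := ⟨_, rfl⟩
  have hq : 1 ≤ q := by
    rw [hqdef]
    exact Nat.one_le_iff_ne_zero.2 (Finset.prod_ne_zero_iff.2 fun i _ => (a i).den_nz)
  have hqz : ∀ i, ∃ c : ℤ, i ≤ b → (c : ℚ) = q * a i := by
    intro i
    by_cases hi : i ≤ b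
    · have hd : (a i).den ∣ q := by
        rw [hqdef]
        exact Finset.dvd_prod_of_mem _ (Finset.mem_range.2 (by omega))
      obtain ⟨e, he⟩ := hd
      refine ⟨e * (a i).num, fun _ => ?_⟩
      rw [he]
      have e1 : ((a i).den : ℚ) * a i = (a i).num := by
        rw [mul_comm]; exact Rat.mul_den_eq_num _
      push_cast
      rw [← e1]
      ring
    · exact ⟨0, fun h => absurd h hi⟩
  choose c hc using hqz
  exact ⟨q, hq, c, fun l hl => hc l hl⟩

/-- the coefficients of the functional -/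
def alf (m : ℕ) (c : ℕ → ℤ) (l : ℕ) : ℤ :=
  if l < m then 0 else (-1) ^ l * c (l - m) * (l.descFactorial m : ℤ)

theorem xi_alf (m b0 q : ℕ) (a : ℕ → ℚ) (c : ℕ → ℤ) (hc : ∀ l ≤ b0, (c l : ℚ) = q * a l) (t : ℕ) (ht : 2 ≤ t) :
    xi (b0 + m) (alf m c) (t + 1) = (q : ℝ) * ((t + m).descFactorial m : ℝ) * Zc b0 a (t + 1 + m) := by
  unfold xi Zc
  rw [show b0 + m + 1 = m + (b0 + 1) by ring, Finset.sum_range_add, Finset.sum_eq_zero, zero_add, Finset.mul_sum]
  · refine Finset.sum_congr rfl fun l hl => ?_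
    rw [Finset.mem_range] at hl
    rw [if_pos (by omega)]
    have h1 : ((c l : ℤ) : ℝ) = q * a l := by
      have := hc l (by omega)
      exact_mod_cast this
    unfold alf
    rw [if_neg (by omega), Nat.add_sub_cancel_left]
    have h2 : ((m + l).descFactorial m : ℝ) * (bc (m + l) (t + 1) : ℝ) =
        (Nat.choose (t + 1 + m + l - 1) l : ℝ) * ((t + m).descFactorial m : ℝ) := by
      have := choose_shift t l m
      unfold bc
      rw [Nat.add_sub_cancel, show t + 1 + m + l - 1 = t + m + l by omega, add_comm m l]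
      exact_mod_cast this
    have h3 : ((-1 : ℝ) ^ (m + l)) * (-1) ^ (m + l) = 1 := by
      rw [← mul_pow]; norm_num
    have h4 : t + 1 + (m + l) = t + 1 + m + l := by ring
    have h5 : zr (t + 1 + (m + l)) = ∑' n : ℕ, 1 / ((n : ℝ) + 1) ^ (t + 1 + m + l) := by
      rw [h4]; rfl
    rw [h5]
    push_cast
    rw [h1]
    calc (-1 : ℝ) ^ (m + l) * ((-1) ^ (m + l) * (q * a l) * ((m + l).descFactorial m : ℝ)) *
          (bc (m + l) (t + 1) : ℝ) * (∑' n : ℕ, 1 / ((n : ℝ) + 1) ^ (t + 1 + m + l))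
        = ((-1 : ℝ) ^ (m + l) * (-1) ^ (m + l)) * (q * a l) * (((m + l).descFactorial m : ℝ) *
          (bc (m + l) (t + 1) : ℝ)) * (∑' n : ℕ, 1 / ((n : ℝ) + 1) ^ (t + 1 + m + l)) := by ring
      _ = _ := by
        rw [h3, h2]; ring
  · intro l hl
    rw [Finset.mem_range] at hl
    unfold alf
    rw [if_pos hl]
    simp

/-- comparison of the bounds at `K - 1` and at `K` -/
theorem shift_bound' : ∃ K1 : ℕ, ∀ K ≥ K1, 2 ≤ K ∧ 0 < Real.log (Real.log ((K - 1 : ℕ) : ℝ)) ∧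
    Real.log (Real.log (K : ℝ)) ≤ 2 * Real.log (Real.log ((K - 1 : ℕ) : ℝ)) ∧
    (K : ℝ) * Real.log (Real.log K) / Real.log K ≤
      4 * (((K - 1 : ℕ) : ℝ) * Real.log (Real.log ((K - 1 : ℕ) : ℝ)) / Real.log ((K - 1 : ℕ) : ℝ)) :=
  shift_bound

theorem sqrt_large (c : ℝ) (hc : 0 < c) : ∃ K1 : ℕ, ∀ K ≥ K1,
    2 ≤ c * Real.sqrt (K * Real.log (Real.log K) / Real.log K) := by
  have t1 : Tendsto (fun s : ℕ => Real.log (s : ℝ)) atTop atTop :=
    Real.tendsto_log_atTop.comp tendsto_natCast_atTop_atTop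
  have t2 : Tendsto (fun s : ℕ => Real.log (Real.log (s : ℝ))) atTop atTop :=
    Real.tendsto_log_atTop.comp t1
  have t3 : Tendsto (fun s : ℕ => (s : ℝ)) atTop atTop := tendsto_natCast_atTop_atTop
  obtain ⟨K1, hK1⟩ := eventually_atTop.1 (((t1.eventually_ge_atTop 1).and (t2.eventually_ge_atTop 1)).and
    (t3.eventually_ge_atTop ((4 / c ^ 2) ^ 2 * 4)))
  refine ⟨max K1 1, fun K hK => ?_⟩
  obtain ⟨⟨a1, a2⟩, a3⟩ := hK1 K ((le_max_left _ _).trans hK)
  have hK0 : (0 : ℝ) < K := by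
    have : 0 < K := lt_of_lt_of_le Nat.one_pos ((le_max_right _ _).trans hK)
    exact_mod_cast this
  -- `log K ≤ 2 √K`
  have b1 : Real.log K ≤ 2 * Real.sqrt K := by
    have h1 : Real.log K = 2 * Real.log (Real.sqrt K) := by
      rw [Real.log_sqrt hK0.le]; ring
    have h2 := Real.log_le_sub_one_of_pos (Real.sqrt_pos.2 hK0)
    linarith
  have hs0 : 0 < Real.sqrt K := Real.sqrt_pos.2 hK0
  have b2 : Real.sqrt K / 2 ≤ (K : ℝ) * Real.log (Real.log K) / Real.log K := by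
    rw [div_le_div_iff₀ (by norm_num) (by linarith)]
    have h3 : Real.sqrt K * Real.sqrt K = K := Real.mul_self_sqrt hK0.le
    calc Real.sqrt K * Real.log K ≤ Real.sqrt K * (2 * Real.sqrt K) := mul_le_mul_of_nonneg_left b1 hs0.le
      _ = (K : ℝ) * 1 * 2 := by linear_combination 2 * h3
      _ ≤ K * Real.log (Real.log K) * 2 := by
        apply mul_le_mul_of_nonneg_right _ (by norm_num)
        exact mul_le_mul_of_nonneg_left a2 hK0.le
  have b3 : 4 / c ^ 2 * 2 ≤ Real.sqrt K := by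
    apply Real.le_sqrt_of_sq_le
    calc (4 / c ^ 2 * 2) ^ 2 = (4 / c ^ 2) ^ 2 * 4 := by ring
      _ ≤ (K : ℝ) := a3
  have b4 : (2 / c) ^ 2 ≤ (K : ℝ) * Real.log (Real.log K) / Real.log K := by
    calc (2 / c) ^ 2 = 4 / c ^ 2 := by rw [div_pow]; norm_num
      _ ≤ Real.sqrt K / 2 := by linarith
      _ ≤ _ := b2
  have b5 := Real.le_sqrt_of_sq_le b4
  rw [div_le_iff₀ hc] at b5
  linarith

/-- **Rational combinations of consecutive zeta values.** -/
theorem w_jets (hM : S_MB) : ∃ c : ℝ, 0 < c ∧ ∃ K0 : ℕ, ∀ K ≥ K0, ∀ (j0 b : ℕ) (a : ℕ → ℚ), 3 ≤ j0 →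
    (∃ l, l ≤ b ∧ a l ≠ 0) →
    c * Real.sqrt (K * Real.log (Real.log K) / Real.log K) ≤
      (Set.ncard {i : ℕ | i % 2 = j0 % 2 ∧ j0 ≤ i ∧ i ≤ K * (j0 + b) ∧ Irrational (Zc b a i)} : ℝ) := by
  obtain ⟨C1, hC1, hM⟩ := hM
  obtain ⟨c, hc, s1, hs⟩ := Pool.Agent.W165.OZ.t_fj C1 hC1
  obtain ⟨K1, hK1⟩ := shift_bound'
  obtain ⟨K2, hK2⟩ := sqrt_large c hc
  have t2 : Tendsto (fun s : ℕ => c * Real.log (Real.log (s : ℝ))) atTop atTop :=
    (Real.tendsto_log_atTop.comp (Real.tendsto_log_atTop.comp tendsto_natCast_atTop_atTop)).const_mul_atTop hc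
  obtain ⟨K3, hK3⟩ := eventually_atTop.1 (t2.eventually_ge_atTop 1)
  refine ⟨c / 6, by positivity, max (s1 + 1) (max K1 (max (K2 + 1) (K3 + 1))), fun K hK j0 b a hj ha => ?_⟩
  have hKs1 : s1 + 1 ≤ K := (le_max_left _ _).trans hK
  have hKK1 : K1 ≤ K := ((le_max_left _ _).trans (le_max_right _ _)).trans hK
  have hKK2 : K2 + 1 ≤ K := ((le_max_left _ _).trans ((le_max_right _ _).trans (le_max_right _ _))).trans hK
  have hKK3 : K3 + 1 ≤ K := ((le_max_right _ _).trans ((le_max_right _ _).trans (le_max_right _ _))).trans hK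
  obtain ⟨k1, k2, k3, k4⟩ := hK1 K hKK1
  obtain ⟨b0, hb0, hab0, htop⟩ := top_index b a ha
  obtain ⟨q, hq, ct, hct⟩ := den_exists b0 a
  obtain ⟨m, hm⟩ : ∃ m, j0 = m + 3 := ⟨j0 - 3, by omega⟩
  obtain ⟨κ, B', g1, g2, g3, g4, g5⟩ := hs (K - 1) (by omega) 1 le_rfl (by
    rw [Nat.cast_one]; exact hK3 (K - 1) (by omega))
  rw [Nat.cast_one, one_mul] at g4
  rw [Nat.cast_one, mul_one] at g5
  have g6 := (hK2 (K - 1) (by omega)).trans g4
  have g7 : 2 ≤ B' := by exact_mod_cast g6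
  obtain ⟨B, hB⟩ : ∃ B : ℕ, B = B' / 2 := ⟨_, rfl⟩
  have hB1 : 1 ≤ B := by omega
  have hB2 : 2 * B ≤ B' := by omega
  have hB3 : B' ≤ 3 * B := by omega
  have hB2R : (((2 * B : ℕ) : ℕ) : ℝ) ≤ B' := by exact_mod_cast hB2
  have hB2p : (1 : ℝ) ≤ ((2 * B : ℕ) : ℝ) := by
    have : 1 ≤ 2 * B := by omega
    exact_mod_cast this
  have hκ0 : 0 < κ := by
    have : 0 < B' * (B' + 1) := Nat.mul_pos (by omega) (by omega)
    omega
  have hκr : (0 : ℝ) < κ := by exact_mod_cast hκ0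
  have hprod : ((2 * B : ℕ) : ℝ) * ((2 * B : ℕ) + 1) ≤ (B' : ℝ) * (B' + 1) := by
    apply mul_le_mul hB2R (by linarith) (by linarith) (by linarith)
  have hm1 : 16 * ((2 * B) * (2 * B + 1)) ≤ κ := by
    have : (2 * B) * (2 * B + 1) ≤ B' * (B' + 1) := Nat.mul_le_mul hB2 (by omega)
    omega
  have hlog : Real.log ((2 * B : ℕ) : ℝ) ≤ Real.log B' := Real.log_le_log (by linarith) hB2R
  have hlog0 : 0 ≤ Real.log ((2 * B : ℕ) : ℝ) := Real.log_nonneg hB2p
  have hm2 : C1 * (1 + (((2 * B : ℕ) : ℝ) * ((2 * B : ℕ) + 1) / κ) * (1 + Real.log ((2 * B : ℕ) : ℝ))) <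
      (1 / 16) * Real.log ((κ : ℝ) / (((2 * B : ℕ) : ℝ) * ((2 * B : ℕ) + 1))) := by
    have e1 : C1 * (1 + (((2 * B : ℕ) : ℝ) * ((2 * B : ℕ) + 1) / κ) * (1 + Real.log ((2 * B : ℕ) : ℝ))) ≤
        C1 * (1 + ((B' : ℝ) * (B' + 1) / κ) * (1 + Real.log B')) := by
      apply mul_le_mul_of_nonneg_left _ hC1.le
      have e2 : (((2 * B : ℕ) : ℝ) * ((2 * B : ℕ) + 1) / κ) * (1 + Real.log ((2 * B : ℕ) : ℝ)) ≤
          ((B' : ℝ) * (B' + 1) / κ) * (1 + Real.log B') := by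
        apply mul_le_mul (div_le_div_of_nonneg_right hprod hκr.le) (by linarith) (by linarith) (by positivity)
      linarith
    have e3 : (1 / 16) * Real.log ((κ : ℝ) / ((B' : ℝ) * (B' + 1))) ≤
        (1 / 16) * Real.log ((κ : ℝ) / (((2 * B : ℕ) : ℝ) * ((2 * B : ℕ) + 1))) := by
      apply mul_le_mul_of_nonneg_left _ (by norm_num)
      have hB'0 : (0 : ℝ) < B' := by linarith
      apply Real.log_le_log (by positivity)
      exact div_le_div_of_nonneg_left hκr.le (by positivity) hprod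
    linarith
  have hal : alf m ct (b0 + m) ≠ 0 := by
    unfold alf
    rw [if_neg (by omega), Nat.add_sub_cancel]
    have h1 : (ct b0 : ℚ) ≠ 0 := by
      rw [hct b0 le_rfl]
      have : (q : ℚ) ≠ 0 := by
        have : q ≠ 0 := by omega
        exact_mod_cast this
      exact mul_ne_zero this hab0
    have h2 : ct b0 ≠ 0 := by exact_mod_cast h1
    have h3 : (((b0 + m).descFactorial m : ℕ) : ℤ) ≠ 0 := by
      have : (b0 + m).descFactorial m ≠ 0 := by
        rw [Ne, Nat.descFactorial_eq_zero_iff_lt]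
        omega
      exact_mod_cast this
    exact mul_ne_zero (mul_ne_zero (pow_ne_zero _ (by norm_num)) h2) h3
  obtain ⟨I, hI, hI2⟩ := hM κ B (b0 + m) (alf m ct) hal hB1 hm1 hm2
  have hfin : {i : ℕ | i % 2 = j0 % 2 ∧ j0 ≤ i ∧ i ≤ K * (j0 + b) ∧ Irrational (Zc b a i)}.Finite :=
    (Set.finite_Iic (K * (j0 + b))).subset fun i hi => hi.2.2.1
  have hsub : ((I.image (· + m) : Finset ℕ) : Set ℕ) ⊆
      {i : ℕ | i % 2 = j0 % 2 ∧ j0 ≤ i ∧ i ≤ K * (j0 + b) ∧ Irrational (Zc b a i)} := by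
    intro j hj
    rw [Finset.mem_coe, Finset.mem_image] at hj
    obtain ⟨i, hi, rfl⟩ := hj
    obtain ⟨a1, a2, a3, a4⟩ := hI2 i hi
    obtain ⟨t, ht⟩ : ∃ t, i = t + 1 := ⟨i - 1, by omega⟩
    refine ⟨?_, by omega, ?_, ?_⟩
    · obtain ⟨u, hu⟩ := a3
      omega
    · have e1 : 2 * ((b0 + m + 1) * κ) ≤ (b0 + m + 1) * (K - 1) := by
        calc 2 * ((b0 + m + 1) * κ) = (b0 + m + 1) * (2 * κ) := by ring
          _ ≤ (b0 + m + 1) * (K - 1) := Nat.mul_le_mul_left _ g1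
      have e2 : (b0 + m + 1) * (K - 1) ≤ (j0 + b) * (K - 1) := Nat.mul_le_mul_right _ (by omega)
      have e3 : K * (j0 + b) = (j0 + b) * (K - 1) + (j0 + b) := by
        obtain ⟨k, rfl⟩ : ∃ k, K = k + 1 := ⟨K - 1, by omega⟩
        rw [Nat.add_sub_cancel]; ring
      show i + m ≤ K * (j0 + b)
      rw [e3]
      omega
    · rw [Zc_top b b0 a hb0 htop]
      rw [ht] at a4 ⊢
      rw [xi_alf m b0 q a ct hct t (by omega)] at a4
      show Irrational (Zc b0 a (t + 1 + m))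
      have e4 : (q : ℝ) * ((t + m).descFactorial m : ℝ) = ((q * (t + m).descFactorial m : ℕ) : ℝ) := by
        push_cast; rfl
      rw [e4] at a4
      rintro ⟨y, hy⟩
      apply a4
      exact ⟨((q * (t + m).descFactorial m : ℕ) : ℚ) * y, by rw [← hy]; push_cast; ring⟩
  have h7 := Set.ncard_le_ncard hsub hfin
  rw [Set.ncard_coe_finset, Finset.card_image_of_injective _ (add_left_injective m)] at h7
  have h8 : (B : ℝ) ≤ (Set.ncard {i : ℕ | i % 2 = j0 % 2 ∧ j0 ≤ i ∧ i ≤ K * (j0 + b) ∧ Irrational (Zc b a i)} : ℝ) := by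
    exact_mod_cast hI.trans h7
  refine le_trans ?_ h8
  have e1 : (K : ℝ) * Real.log (Real.log K) / Real.log K ≤
      2 ^ 2 * (((K - 1 : ℕ) : ℝ) * Real.log (Real.log ((K - 1 : ℕ) : ℝ)) / Real.log ((K - 1 : ℕ) : ℝ)) := by
    linarith
  have e2 := Real.sqrt_le_sqrt e1
  rw [Real.sqrt_mul (by norm_num), Real.sqrt_sq (by norm_num)] at e2
  have e3 : (B' : ℝ) ≤ 3 * B := by exact_mod_cast hB3
  have e4 : c / 6 * Real.sqrt (K * Real.log (Real.log K) / Real.log K) ≤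
      c / 6 * (2 * Real.sqrt (((K - 1 : ℕ) : ℝ) * Real.log (Real.log ((K - 1 : ℕ) : ℝ)) /
        Real.log ((K - 1 : ℕ) : ℝ))) := mul_le_mul_of_nonneg_left e2 (by positivity)
  linarith

end

end Run7.h795.HJ
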