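import Pool.Agent.Run7.h795.HJ.Stm
import Pool.Agent.Run7.h795.UW.MB
import Pool.Agent.W165.OZ.EV

/-!
# Rational combinations of consecutive zeta values: the main inequality
-/

set_option autoImplicit false

open Polynomial Pool.Agent.H337R2 Pool.Agent.W165.OZ Filter Topology

namespace Run7.h795.HJ

noncomputable section

open Run7.h795.UW

theorem mj_cast (n h B b : ℕ) (α w : ℕ → ℤ) (x : ℕ → ℚ) (k : ℕ) :
    ((mj (A := ℚ) n h B b α w x k : ℚ) : ℝ) = mj (A := ℝ) n h B b α w (fun i => (x i : ℝ)) k := by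
  unfold mj Lj
  simp only [eq_ratCast, Rat.cast_id]
  push_cast
  rfl

theorem DHmj_cast (n h B b : ℕ) (α w : ℕ → ℤ) (x : ℕ → ℚ) (r : ℕ) :
    ((DH (mj (A := ℚ) n h B b α w x) r : ℚ) : ℝ) = DH (mj (A := ℝ) n h B b α w (fun i => (x i : ℝ))) r := by
  have h1 := mb_DH_map (Rat.castHom ℝ) (mj (A := ℚ) n h B b α w x) r
  rw [Rat.coe_castHom] at h1
  rw [h1]
  congr 1
  funext k
  exact mj_cast n h B b α w x k

theorem mj_eq (n h B b : ℕ) (hn : 1 ≤ n) (α w : ℕ → ℤ) (I : Finset ℕ) (x : ℕ → ℝ)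
    (hI : ∀ i ∈ I, WW B w (i + b) = 0)
    (hx : ∀ i, Odd i → 3 ≤ i → i ≤ 2 * h → i ∉ I → x i = xi b α i) (k : ℕ) (hk : k + 2 ≤ h * n) :
    mj (A := ℝ) n h B b α w (xi b α) k = mj (A := ℝ) n h B b α w x k := by
  unfold mj Lj
  congr 1
  refine Finset.sum_congr rfl fun i hi => ?_
  rw [Finset.mem_Icc] at hi
  by_cases h1 : i ∈ I
  · rw [hI i h1]; simp
  · rcases Nat.even_or_odd i with h2 | h2
    · rw [Pool.Agent.W165.OZ.t_ev n h (X ^ k) i hn h2 hi.1]; simp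
    · by_cases h3 : 3 ≤ i
      · rw [hx i h2 h3 hi.2 h1]
      · have h4 : i = 1 := by
          obtain ⟨j, hj⟩ := h2
          omega
        rw [h4, rho_one n h k hk]
        simp

theorem t_mb (h1 : S_WE) (h2 : S_NO) (h3 : S_RM) (h4 : S_NV) (h5 : S_AR) (h6 : S_PR) (h7 : S_AS) : S_MB := by
  classical
  obtain ⟨C1, hC1, hAS⟩ := h7
  refine ⟨C1, hC1, fun κ B b α hα hB hBh hineq => ?_⟩
  by_contra hcon
  obtain ⟨h, hhdef⟩ : ∃ h : ℕ, h = (b + 1) * κ := ⟨_, rfl⟩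
  obtain ⟨I, hIdef⟩ : ∃ I : Finset ℕ, I =
      (Finset.Icc 3 (2 * h)).filter (fun i => Odd i ∧ Irrational (xi b α i)) := ⟨_, rfl⟩
  have hImem : ∀ i, i ∈ I ↔ (3 ≤ i ∧ i ≤ 2 * h) ∧ Odd i ∧ Irrational (xi b α i) := by
    intro i
    rw [hIdef, Finset.mem_filter, Finset.mem_Icc]
  have hIcard : I.card < B := by
    by_contra hlt
    rw [not_lt] at hlt
    refine hcon ⟨I, hlt, fun i hi => ?_⟩
    have := (hImem i).1 hi
    exact ⟨this.1.1, hhdef ▸ this.1.2, this.2.1, this.2.2⟩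
  obtain ⟨w, hWI', hw⟩ := h1 B (I.image (· + b)) (lt_of_le_of_lt Finset.card_image_le hIcard) (by
    intro j hj
    rw [Finset.mem_image] at hj
    obtain ⟨i, hi, rfl⟩ := hj
    have := ((hImem i).1 hi).1.1
    omega)
  have hWI : ∀ i ∈ I, WW (2 * B) w (i + b) = 0 := fun i hi => hWI' _ (Finset.mem_image_of_mem _ hi)
  obtain ⟨B2, hB2⟩ : ∃ B2 : ℕ, B2 = 2 * B := ⟨_, rfl⟩
  rw [← hB2] at hWI hw hBh hineq
  have hB21 : 1 ≤ B2 := by omega
  obtain ⟨N, δ, c1, c2, τ, Ω, hNod, h2N, hNO⟩ := h2 B2 b α w hB21 hα hw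
  have hN := hNod.nodes.hN
  have hκ : 1 ≤ κ := by
    have : 1 * 2 ≤ B2 * (B2 + 1) := Nat.mul_le_mul hB21 (by omega)
    omega
  have hh : 1 ≤ h := by
    rw [hhdef]; exact Nat.mul_pos (by omega) hκ
  have h32 : 32 * N ≤ κ := by omega
  have h2N' : 2 * N ≤ κ := by omega
  have hc2 : 0 < c2 := lt_of_lt_of_le (lt_of_lt_of_le hNod.nodes.hc1 (hNod.nodes.wlo 0)) (hNod.nodes.whi 0)
  have hCJ : 0 < CJ b c1 c2 := by
    unfold CJ
    have := hNod.nodes.hc1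
    positivity
  -- the rational values
  have hval : ∀ i, ∃ y : ℚ, (Odd i → 3 ≤ i → i ≤ 2 * h → i ∉ I → (y : ℝ) = xi b α i) ∧
      (2 * h < i → y = 0) := by
    intro i
    by_cases hc : Odd i ∧ 3 ≤ i ∧ i ≤ 2 * h ∧ i ∉ I
    · have h8 : ¬ Irrational (xi b α i) := by
        intro hirr
        exact hc.2.2.2 ((hImem i).2 ⟨⟨hc.2.1, hc.2.2.1⟩, hc.1, hirr⟩)
      rw [irrational_iff_ne_rational] at h8
      push Not at h8
      obtain ⟨a, c, hc0, hac⟩ := h8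
      refine ⟨(a : ℚ) / c, fun _ _ _ _ => ?_, fun hx => by omega⟩
      rw [hac]
      push_cast
      rfl
    · exact ⟨0, fun a b c d => absurd ⟨a, b, c, d⟩ hc, fun _ => rfl⟩
  choose x hx1 hx2 using hval
  obtain ⟨q, hqdef⟩ : ∃ q : ℕ, q = ∏ i ∈ Finset.range (2 * h + 1), (x i).den := ⟨_, rfl⟩
  have hq : 1 ≤ q := by
    rw [hqdef]
    exact Nat.one_le_iff_ne_zero.2 (Finset.prod_ne_zero_iff.2 fun i _ => (x i).den_nz)
  have hqz : ∀ i, ∃ a : ℤ, (q : ℚ) * x i = a := by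
    intro i
    by_cases hi : i ≤ 2 * h
    · have hd : (x i).den ∣ q := by
        rw [hqdef]
        exact Finset.dvd_prod_of_mem _ (Finset.mem_range.2 (by omega))
      obtain ⟨e, he⟩ := hd
      refine ⟨e * (x i).num, ?_⟩
      rw [he]
      have e1 : ((x i).den : ℚ) * x i = (x i).num := by
        rw [mul_comm]; exact Rat.mul_den_eq_num _
      push_cast
      rw [mul_assoc, mul_comm (e : ℚ), ← mul_assoc, e1, mul_comm]
    · refine ⟨0, ?_⟩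
      rw [hx2 i (by omega)]
      simp
  have hMom : ∀ n, 2 ≤ n → Even n → MomJ n h b τ Ω (mj (A := ℝ) n h B2 b α w (fun i => (x i : ℝ))) := by
    intro n hn2 hne k hk
    obtain ⟨hs, hv⟩ := h3 n h B2 b α w hn2 hne hh k hk
    have h8 := hNO (fun l t => Dv n h l t (X ^ k)) hs
    rw [← hv, mj_eq n h B2 b (by omega) α w I (fun i => (x i : ℝ)) hWI
      (fun i g1 g2 g3 g4 => hx1 i g1 g2 g3 g4) k hk] at h8
    exact h8
  obtain ⟨n0, hn0⟩ := h4 N b δ c1 c2 τ Ω hNod κ h32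
  rw [← hhdef] at hn0
  have hC : 0 < CJ b c1 c2 * (4 * (N : ℝ) ^ 2 * c2) := by
    have : (0 : ℝ) < N := by exact_mod_cast hN
    positivity
  obtain ⟨n1, hn1⟩ := hAS N κ B2 b q (CJ b c1 c2 * (4 * (N : ℝ) ^ 2 * c2)) hN hκ hB21 hq hC h2N'
  rw [← hhdef] at hn1
  obtain ⟨n, hndef⟩ : ∃ n, n = 2 * (n0 + n1 + B2 + 1) := ⟨_, rfl⟩
  have hne : Even n := ⟨n0 + n1 + B2 + 1, by omega⟩
  have hn2' : 2 ≤ n := by omega
  obtain ⟨r, hr1, hr2, hr3⟩ := hn0 n (by omega) hne _ (hMom n hn2' hne)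
  rw [← DHmj_cast] at hr3
  have hr3' : DH (mj (A := ℚ) n h B2 b α w x) r ≠ 0 := by
    intro h8
    apply hr3
    rw [h8, Rat.cast_zero]
  have e1 := h6 n h B2 b α w x q hq hqz hn2' hne hh hB21 (by omega) r hr2 hr3'
  have e2 := h5 N b δ c1 c2 τ Ω hNod n h (by omega) hh hne _ (hMom n hn2' hne) r hr2
  have e3 := hn1 n (by omega) hne r hr1 hr2
  -- abbreviations
  obtain ⟨s, hs⟩ : ∃ s : ℚ, s = ∏ i ∈ Finset.range r, sc n h B2 i ^ 2 := ⟨_, rfl⟩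
  have hs0 : 0 ≤ s := by
    rw [hs]; exact Finset.prod_nonneg fun i _ => sq_nonneg _
  have hs0R : (0 : ℝ) ≤ (s : ℝ) := by exact_mod_cast hs0
  have hsr : (∏ i ∈ Finset.range r, (sc n h B2 i : ℝ) ^ 2) = (s : ℝ) := by
    rw [hs]; push_cast; rfl
  rw [← hs] at e1
  rw [hsr] at e3
  obtain ⟨PP, hPPdef⟩ : ∃ PP : ℕ, PP = PPn n (hj h b) B2 := ⟨_, rfl⟩
  rw [← hPPdef] at e1 e3
  rw [← DHmj_cast] at e2
  have e4 : (1 : ℝ) ≤ |((DH (mj (A := ℚ) n h B2 b α w x) r : ℚ) : ℝ)| *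
      (((q : ℝ) * (Dl n B2 : ℝ) ^ b) ^ r * (s : ℝ) * (PP : ℝ)) := by
    exact_mod_cast e1
  have e5 : (1 : ℝ) ≤ UW.Arc N n h b (CJ b c1 c2 * (4 * (N : ℝ) ^ 2 * c2)) r *
      (((q : ℝ) * (Dl n B2 : ℝ) ^ b) ^ r * (s : ℝ) * (PP : ℝ)) :=
    e4.trans (mul_le_mul_of_nonneg_right e2 (by positivity))
  have e6 := Real.log_nonneg e5
  have hκr : (0 : ℝ) < κ := by exact_mod_cast hκ
  have hNr : (0 : ℝ) < N := by exact_mod_cast hN
  have hB2r : (0 : ℝ) < B2 := by exact_mod_cast hB21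
  have hnr : (0 : ℝ) < n := by
    have : 0 < n := by omega
    exact_mod_cast this
  have e7 : (1 / 16) * Real.log ((κ : ℝ) / ((B2 : ℝ) * (B2 + 1))) ≤ (1 / 16) * Real.log ((κ : ℝ) / (2 * N)) := by
    apply mul_le_mul_of_nonneg_left _ (by norm_num)
    apply Real.log_le_log (by positivity)
    apply div_le_div_of_nonneg_left hκr.le (by positivity)
    exact_mod_cast h2N
  have e8 : 0 < (((b : ℝ) + 1) * κ * n) ^ 2 := by positivity
  have e9 : C1 * (1 + ((B2 : ℝ) * (B2 + 1) / κ) * (1 + Real.log B2)) -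
      (1 / 16) * Real.log ((κ : ℝ) / (2 * N)) < 0 := by linarith
  have e10 := mul_neg_of_neg_of_pos e9 e8
  linarith

end

end Run7.h795.HJ
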