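import Pool.Agent.Run7.h795.UW.Fin

/-!
# Rational combinations of consecutive zeta values: definitions and the statements of the parts

For integers `α_0, …, α_b`, `α_b ≠ 0`, the functional is
`Q ↦ ∑_{d ≤ B} w_d ∑_{u > d} ∑_{l ≤ b} α_l d^(b - l) [s^l] (R(u/d + s) Q(y(u/d + s)))`.
Its values are linear forms in `1` and `ξ_i = ∑_{l ≤ b} (-1)^l α_l C(i - 1 + l, l) ζ(i + l)`, `i` odd,
`3 ≤ i ≤ 2h - 1`. This is `Pool.Agent.Run7.h795.UW` (there `α = (0, …, 0, 1)` and `b` is even).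
-/

open Polynomial Pool.Agent.H337R2 Pool.Agent.W165.OZ Filter Topology

namespace Run7.h795.HJ

noncomputable section

open Run7.h795.UW

/-! ### The linear forms -/

/-- the rational part -/
def btj (n h B b : ℕ) (α w : ℕ → ℤ) (P : ℚ[X]) : ℚ :=
  ∑ l ∈ Finset.range (b + 1), (-1) ^ l * (α l : ℚ) * ∑ i ∈ Finset.Icc 1 (2 * h),
    (bc l i : ℚ) * bet n h B l (fun d => w d * (d : ℤ) ^ (b - l)) P i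

/-- the linear form, with `x i` in the place of `ξ_i` -/
def Lj {A : Type*} [CommRing A] [Algebra ℚ A] (n h B b : ℕ) (α w : ℕ → ℤ) (x : ℕ → A) (P : ℚ[X]) : A :=
  (∑ i ∈ Finset.Icc 1 (2 * h), algebraMap ℚ A (rhoP n h P i * WW B w (i + b)) * x i) -
    algebraMap ℚ A (btj n h B b α w P)

/-- the moments -/
def mj {A : Type*} [CommRing A] [Algebra ℚ A] (n h B b : ℕ) (α w : ℕ → ℤ) (x : ℕ → A) (k : ℕ) : A :=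
  Lj n h B b α w x (num n (X ^ k))

/-- the numbers `ξ_i` -/
def xi (b : ℕ) (α : ℕ → ℤ) (i : ℕ) : ℝ :=
  ∑ l ∈ Finset.range (b + 1), (-1) ^ l * (α l : ℝ) * (bc l i : ℝ) * (if 2 ≤ i + l then zr (i + l) else 0)

/-! ### The real side -/

/-- nodes `τ i` with coefficient vectors `(Ω i 0, …, Ω i b)`; the last coefficient is not small -/
structure NodesJ (N b : ℕ) (δ c1 c2 : ℝ) (τ : ℕ → ℝ) (Ω : ℕ → ℕ → ℝ) : Prop where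
  nodes : Nodes N δ c1 c2 τ (fun i => Ω i b)
  le : ∀ i l, l ≤ b → |Ω i l| ≤ c2

/-- the moments of a system of nodes -/
def MomJ (n h b : ℕ) (τ : ℕ → ℝ) (Ω : ℕ → ℕ → ℝ) (μ : ℕ → ℝ) : Prop :=
  ∀ k, k + 2 ≤ h * n → HasSum (fun i => ∑ l ∈ Finset.range (b + 1), Ω i l * Dv n h l (τ i) (X ^ k)) (μ k)

/-- the constant in the place of `1` in `Run7.h795.UW` -/
def CJ (b : ℕ) (c1 c2 : ℝ) : ℝ := ((b : ℝ) + 1) * c2 / c1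

/-- the exponent of the primes `> n` -/
def hj (h b : ℕ) : ℕ := (b + 1) * (h + (b + 1) / 2)

/-! ### The statements -/

/-- WE: the weights -/
def S_WE : Prop := ∀ (B : ℕ) (I : Finset ℕ), I.card < B → (∀ i ∈ I, 1 ≤ i) →
  ∃ w : ℕ → ℤ, (∀ i ∈ I, WW (2 * B) w i = 0) ∧
    ∀ e ∈ Finset.Icc 1 (2 * B), ∑ d ∈ (Finset.Icc 1 (2 * B)).filter (fun d => e ∣ d), w d ≠ 0

/-- NO: the nodes -/
def S_NO : Prop := ∀ (B b : ℕ) (α w : ℕ → ℤ), 1 ≤ B → α b ≠ 0 →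
  (∀ e ∈ Finset.Icc 1 B, ∑ d ∈ (Finset.Icc 1 B).filter (fun d => e ∣ d), w d ≠ 0) →
  ∃ (N : ℕ) (δ c1 c2 : ℝ) (τ : ℕ → ℝ) (Ω : ℕ → ℕ → ℝ), NodesJ N b δ c1 c2 τ Ω ∧ 2 * N ≤ B * (B + 1) ∧
    ∀ F : ℕ → ℝ → ℝ, (∀ l ≤ b, ∀ d ∈ Finset.Icc 1 B, Summable (fun u : ℕ => F l (((u : ℝ) + d + 1) / d))) →
      HasSum (fun i => ∑ l ∈ Finset.range (b + 1), Ω i l * F l (τ i))
        (∑ l ∈ Finset.range (b + 1), ∑ d ∈ Finset.Icc 1 B, ((w d : ℝ) * (d : ℝ) ^ (b - l) * (α l : ℝ)) *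
          ∑' u : ℕ, F l (((u : ℝ) + d + 1) / d))

/-- RM: the real moments -/
def S_RM : Prop := ∀ (n h B b : ℕ) (α w : ℕ → ℤ), 2 ≤ n → Even n → 1 ≤ h → ∀ k, k + 2 ≤ h * n →
  (∀ l ≤ b, ∀ d ∈ Finset.Icc 1 B, Summable (fun u : ℕ => Dv n h l (((u : ℝ) + d + 1) / d) (X ^ k))) ∧
  mj n h B b α w (xi b α) k =
    ∑ l ∈ Finset.range (b + 1), ∑ d ∈ Finset.Icc 1 B, ((w d : ℝ) * (d : ℝ) ^ (b - l) * (α l : ℝ)) *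
      ∑' u : ℕ, Dv n h l (((u : ℝ) + d + 1) / d) (X ^ k)

/-- CO: the core of the non-vanishing argument -/
def S_CO : Prop := ∀ (N b : ℕ) (δ c1 c2 : ℝ) (τ : ℕ → ℝ) (Ω : ℕ → ℕ → ℝ), NodesJ N b δ c1 c2 τ Ω →
  ∀ n h : ℕ, 1 ≤ n → 1 ≤ h →
  ∀ μ : ℕ → ℝ, MomJ n h b τ Ω μ → ∀ M M0 : ℕ, 1 ≤ M0 → M0 ≤ M → 2 * ((b + 1) * M) ≤ h * n →
  ∀ Q : ℝ[X], Q ≠ 0 → Q.natDegree < (b + 1) * M0 → (∀ j < (b + 1) * M, Lf μ (Q * X ^ j) = 0) →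
  1 ≤ CJ b c1 c2 ^ (b + 1) * PW n h b δ * ∑ j ∈ Finset.range M0,
    (∑' i, |Ω (i + M) b| * (Rv n h (τ (i + M)) *
      yv n (τ (i + M)) ^ (((b + 1) * M - 1) + ((b + 1) * M0 - 1)))) /
      (c1 * Rv n h (τ j) * (∏ l ∈ (Finset.range M).erase j, |yv n (τ j) - yv n (τ l)|) ^ (b + 1) *
        (∏ l ∈ (Finset.range M0).erase j, |yv n (τ j) - yv n (τ l)|) ^ (b + 1))

/-- NV: the non-vanishing theorem -/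
def S_NV : Prop := ∀ (N b : ℕ) (δ c1 c2 : ℝ) (τ : ℕ → ℝ) (Ω : ℕ → ℕ → ℝ), NodesJ N b δ c1 c2 τ Ω →
  ∀ κ : ℕ, 32 * N ≤ κ →
  ∃ n0 : ℕ, ∀ n ≥ n0, Even n → ∀ μ : ℕ → ℝ, MomJ n ((b + 1) * κ) b τ Ω μ →
    ∃ r : ℕ, (b + 1) * κ * n ≤ 16 * r ∧ 2 * r ≤ (b + 1) * κ * n ∧ DH μ r ≠ 0

/-- AR: the archimedean bound -/
def S_AR : Prop := ∀ (N b : ℕ) (δ c1 c2 : ℝ) (τ : ℕ → ℝ) (Ω : ℕ → ℕ → ℝ), NodesJ N b δ c1 c2 τ Ω →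
  ∀ n h : ℕ, 1 ≤ n → 1 ≤ h → Even n → ∀ μ : ℕ → ℝ, MomJ n h b τ Ω μ → ∀ r : ℕ, 2 * r ≤ h * n →
  |DH μ r| ≤ UW.Arc N n h b (CJ b c1 c2 * (4 * (N : ℝ) ^ 2 * c2)) r

/-- SE: integrality at the primes `p ≤ n` -/
def S_SE : Prop := ∀ (A : Type) [CommRing A] [Algebra ℚ A] (p : ℕ) [Fact p.Prime] (S : Subring A),
  (∀ x : ℚ, padicNorm p x ≤ 1 → algebraMap ℚ A x ∈ S) →
  ∀ (n h B b : ℕ) (α w : ℕ → ℤ) (x : ℕ → A) (q : ℕ), (∀ i, (q : A) * x i ∈ S) →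
  2 ≤ n → Even n → 1 ≤ h → 1 ≤ B → p ≤ n → ∀ r : ℕ, 2 * r ≤ h * n →
  algebraMap ℚ A (((q : ℚ) * (Dl n B : ℚ) ^ b) ^ r * ∏ i ∈ Finset.range r, sc n h B i ^ 2) *
    DH (mj n h B b α w x) r ∈ S

/-- SF: integrality at the primes `p > n` -/
def S_SF : Prop := ∀ (A : Type) [CommRing A] [Algebra ℚ A] (p : ℕ) [Fact p.Prime] (S : Subring A),
  (∀ x : ℚ, padicNorm p x ≤ 1 → algebraMap ℚ A x ∈ S) →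
  ∀ (n h B b : ℕ) (α w : ℕ → ℤ) (x : ℕ → A) (q : ℕ), (∀ i, (q : A) * x i ∈ S) →
  2 ≤ n → 1 ≤ h → 1 ≤ B → B ≤ n → n < p → ∀ r : ℕ, 2 * r ≤ h * n →
  algebraMap ℚ A ((q : ℚ) ^ r * (p : ℚ) ^ (2 * hj h b * Sp n B p)) * DH (mj n h B b α w x) r ∈ S

/-- PR: the lower bound for the determinants -/
def S_PR : Prop := ∀ (n h B b : ℕ) (α w : ℕ → ℤ) (x : ℕ → ℚ) (q : ℕ), 1 ≤ q →
  (∀ i, ∃ a : ℤ, (q : ℚ) * x i = a) → 2 ≤ n → Even n → 1 ≤ h → 1 ≤ B → B ≤ n → ∀ r : ℕ,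
  2 * r ≤ h * n → DH (mj n h B b α w x) r ≠ 0 →
  1 ≤ |DH (mj n h B b α w x) r| * (((q : ℚ) * (Dl n B : ℚ) ^ b) ^ r *
    (∏ i ∈ Finset.range r, sc n h B i ^ 2) * (PPn n (hj h b) B : ℚ))

/-- AS: the asymptotic size -/
def S_AS : Prop := ∃ C1 : ℝ, 0 < C1 ∧ ∀ (N κ B b q : ℕ) (C : ℝ), 1 ≤ N → 1 ≤ κ → 1 ≤ B → 1 ≤ q → 0 < C →
  2 * N ≤ κ →
  ∃ n0 : ℕ, ∀ n ≥ n0, Even n → ∀ r : ℕ, (b + 1) * κ * n ≤ 16 * r → 2 * r ≤ (b + 1) * κ * n →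
    Real.log (UW.Arc N n ((b + 1) * κ) b C r * (((q : ℝ) * (Dl n B : ℝ) ^ b) ^ r *
      (∏ i ∈ Finset.range r, (sc n ((b + 1) * κ) B i : ℝ) ^ 2) * (PPn n (hj ((b + 1) * κ) b) B : ℝ))) ≤
      (C1 * (1 + ((B : ℝ) * (B + 1) / κ) * (1 + Real.log B)) -
        (1 / 16) * Real.log ((κ : ℝ) / (2 * N))) * (((b : ℝ) + 1) * κ * n) ^ 2

/-- MB: the main inequality -/
def S_MB : Prop := ∃ C1 : ℝ, 0 < C1 ∧ ∀ (κ B b : ℕ) (α : ℕ → ℤ), α b ≠ 0 → 1 ≤ B →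
  16 * ((2 * B) * (2 * B + 1)) ≤ κ →
  C1 * (1 + (((2 * B : ℕ) : ℝ) * ((2 * B : ℕ) + 1) / κ) * (1 + Real.log ((2 * B : ℕ) : ℝ))) <
    (1 / 16) * Real.log ((κ : ℝ) / (((2 * B : ℕ) : ℝ) * ((2 * B : ℕ) + 1))) →
  ∃ I : Finset ℕ, B ≤ I.card ∧ ∀ i ∈ I, 3 ≤ i ∧ i ≤ 2 * ((b + 1) * κ) ∧ Odd i ∧ Irrational (xi b α i)

end

end Run7.h795.HJ
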