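import Pool.Agent.W940.OZ.NO
import Pool.Agent.Run7.h795.HJ.Stm

/-!
Project HJ (helper42 for helper795): the nodes (S_NO). A port of `Pool/Agent/W940/OZ/NO.lean` (helper940) with all the
fractions of denominator at most `B` in the place of the fractions of nonzero weight.
-/

set_option autoImplicit false

open Polynomial Pool.Agent.H337R2 Filter Topology

namespace Run7.h795.HJ

open Pool.Agent.W165.OZ Pool.Agent.W940.OZ

/-- the weight of a fraction, from the divisor sums -/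
lemma om_ne {B : ℕ} {w : ℕ → ℤ}
    (hw : ∀ e ∈ Finset.Icc 1 B, ∑ d ∈ (Finset.Icc 1 B).filter (fun d => e ∣ d), w d ≠ 0)
    {x : ℚ} (hx : x ∈ Pt B) : om B w x ≠ 0 := by
  classical
  have hx0 := Pt_pos hx
  obtain ⟨d, hd, hx'⟩ := Finset.mem_biUnion.1 hx
  obtain ⟨j, h1, h2, hj⟩ := mem_Sd.1 hx'
  obtain ⟨hd1, hdB⟩ := Finset.mem_Icc.1 hd
  have key : ∀ d : ℕ, 1 ≤ d → (x ∈ Sd d ↔ x.den ∣ d) := by
    intro d hd
    have hd0 : (d : ℚ) ≠ 0 := by exact_mod_cast (by omega : d ≠ 0)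
    constructor
    · intro h
      obtain ⟨j, h1, h2, h3⟩ := mem_Sd.1 h
      have h4 : x.den ∣ (d : ℤ).natAbs := by
        have h5 : x = Rat.divInt (j : ℤ) (d : ℤ) := by
          rw [← h3, Rat.divInt_eq_div]
          push_cast
          rfl
        have h6 : ((Rat.divInt (j : ℤ) (d : ℤ)).den : ℤ) ∣ (d : ℤ) := Rat.den_dvd _ _
        rw [← h5] at h6
        exact Int.natCast_dvd.1 h6
      simpa using h4
    · rintro ⟨c, hc⟩
      have hden : (x.den : ℚ) ≠ 0 := by exact_mod_cast x.den_nz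
      have hnum : 0 < x.num := Rat.num_pos.2 hx0.1
      have hle : x.num ≤ x.den := by
        have h5 : x = (x.num : ℚ) / x.den := (Rat.num_div_den x).symm
        have h6 : (x.num : ℚ) / x.den ≤ 1 := by rw [← h5]; exact hx0.2
        rw [div_le_one (by positivity)] at h6
        exact_mod_cast h6
      have hc0 : 1 ≤ c := by
        rcases Nat.eq_zero_or_pos c with h | h
        · subst h; omega
        · exact h
      refine mem_Sd.2 ⟨x.num.toNat * c, ?_, ?_, ?_⟩
      · have : 1 ≤ x.num.toNat := by omega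
        exact Nat.one_le_iff_ne_zero.2 (Nat.mul_ne_zero (by omega) (by omega))
      · rw [hc]
        exact Nat.mul_le_mul_right c (by omega)
      · have h5 : ((x.num.toNat : ℕ) : ℚ) = (x.num : ℚ) := by
          have : ((x.num.toNat : ℕ) : ℤ) = x.num := Int.toNat_of_nonneg hnum.le
          exact_mod_cast this
        have hcq : (c : ℚ) ≠ 0 := by exact_mod_cast (by omega : c ≠ 0)
        rw [hc]
        push_cast
        rw [h5, mul_div_mul_right _ _ hcq]
        exact Rat.num_div_den x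
  have hden : x.den ∈ Finset.Icc 1 B := by
    have h3 : x.den ∣ d := (key d hd1).1 hx'
    exact Finset.mem_Icc.2 ⟨x.den_pos, (Nat.le_of_dvd (by omega) h3).trans hdB⟩
  have h4 := hw x.den hden
  unfold om
  have h5 : (Finset.Icc 1 B).filter (fun d => x ∈ Sd d) = (Finset.Icc 1 B).filter (fun d => x.den ∣ d) := by
    refine Finset.filter_congr fun d hd => ?_
    exact key d (Finset.mem_Icc.1 hd).1
  rw [h5]
  exact h4

/-- the enumeration of the fractions -/
noncomputable def xe (B : ℕ) (hN : 0 < (Pt B).card) (i : ℕ) : ℚ :=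
  (Pt B).orderEmbOfFin rfl ⟨i % (Pt B).card, Nat.mod_lt _ hN⟩

lemma xe_mem (B : ℕ) (hN : 0 < (Pt B).card) (i : ℕ) : xe B hN i ∈ Pt B :=
  Finset.orderEmbOfFin_mem _ _ _

/-- one series -/
lemma one_series (B : ℕ) (hN : 0 < (Pt B).card) (w : ℕ → ℤ) (F : ℝ → ℝ)
    (hF : ∀ d ∈ Finset.Icc 1 B, Summable (fun u : ℕ => F (((u : ℝ) + d + 1) / d))) :
    HasSum (fun i => ((om B w (xe B hN i) : ℤ) : ℝ) * F (1 + ((i / (Pt B).card : ℕ) : ℝ) + ((xe B hN i : ℚ) : ℝ)))
      (∑ d ∈ Finset.Icc 1 B, (w d : ℝ) * ∑' u : ℕ, F (((u : ℝ) + d + 1) / d)) := by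
  classical
  set X := Pt B with hXdef
  set N := X.card with hNdef
  have hN' : 1 ≤ N := hN
  set xf : ℕ → ℚ := xe B hN with hxfdef
  have hxfe : ∀ i, xf i = X.orderEmbOfFin rfl ⟨i % N, Nat.mod_lt _ hN⟩ := fun i => rfl
  have hxf : ∀ i, xf i ∈ X := fun i => xe_mem B hN i
  let G : ℚ → ℝ := fun x => ∑' v : ℕ, F (1 + (v : ℝ) + ((x : ℚ) : ℝ))
  have hG : ∀ x ∈ Pt B, HasSum (fun v : ℕ => F (1 + (v : ℝ) + ((x : ℚ) : ℝ))) (G x) := by
    intro x hx
    obtain ⟨d, hd, hx⟩ := Finset.mem_biUnion.1 hx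
    exact ((tsum_d (Finset.mem_Icc.1 hd).1 F (hF d hd)).1 x hx).hasSum
  have hsum : ∑ d ∈ Finset.Icc 1 B, (w d : ℝ) * ∑' u : ℕ, F (((u : ℝ) + d + 1) / d) =
      ∑ e ∈ Finset.range N, ((om B w (xf e) : ℤ) : ℝ) * G (xf e) := by
    have e1 : ∑ d ∈ Finset.Icc 1 B, (w d : ℝ) * ∑' u : ℕ, F (((u : ℝ) + d + 1) / d) =
        ∑ d ∈ Finset.Icc 1 B, ∑ x ∈ Sd d, (w d : ℝ) * G x := by
      refine Finset.sum_congr rfl fun d hd => ?_
      rw [(tsum_d (Finset.mem_Icc.1 hd).1 F (hF d hd)).2, Finset.mul_sum]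
    have e2 : ∑ d ∈ Finset.Icc 1 B, ∑ x ∈ Sd d, (w d : ℝ) * G x =
        ∑ x ∈ Pt B, ∑ d ∈ (Finset.Icc 1 B).filter (fun d => x ∈ Sd d), (w d : ℝ) * G x := by
      refine Finset.sum_comm' fun d x => ?_
      rw [Finset.mem_filter]
      constructor
      · rintro ⟨h1, h2⟩
        exact ⟨⟨h1, h2⟩, Finset.mem_biUnion.2 ⟨d, h1, h2⟩⟩
      · rintro ⟨h1, -⟩
        exact h1
    have e3 : ∑ x ∈ Pt B, ∑ d ∈ (Finset.Icc 1 B).filter (fun d => x ∈ Sd d), (w d : ℝ) * G x =
        ∑ x ∈ Pt B, ((om B w x : ℤ) : ℝ) * G x := by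
      refine Finset.sum_congr rfl fun x _ => ?_
      unfold om
      push_cast
      rw [Finset.sum_mul]
    have e5 : ∑ x ∈ Pt B, ((om B w x : ℤ) : ℝ) * G x =
        ∑ e ∈ Finset.range N, ((om B w (xf e) : ℤ) : ℝ) * G (xf e) := by
      symm
      refine Finset.sum_bij (fun e _ => xf e) (fun e _ => hxf e) ?_ ?_ (fun _ _ => rfl)
      · intro a ha b hb hab
        have h1 := (X.orderEmbOfFin rfl).injective hab
        rw [Fin.mk.injEq, Nat.mod_eq_of_lt (Finset.mem_range.1 ha),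
          Nat.mod_eq_of_lt (Finset.mem_range.1 hb)] at h1
        exact h1
      · intro x hx
        have h1 : x ∈ Set.range (X.orderEmbOfFin rfl) := by
          rw [Finset.range_orderEmbOfFin]
          exact hx
        obtain ⟨i, hi⟩ := h1
        refine ⟨i.1, Finset.mem_range.2 i.2, ?_⟩
        rw [← hi]
        show X.orderEmbOfFin rfl _ = _
        congr 1
        apply Fin.ext
        exact Nat.mod_eq_of_lt i.2
    rw [e1, e2, e3, e5]
  rw [hsum]
  refine hasSum_of_mod N hN' _ _ fun e he => ?_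
  have hx : ∀ v : ℕ, xf (v * N + e) = xf e := by
    intro v
    show X.orderEmbOfFin rfl _ = X.orderEmbOfFin rfl _
    congr 1
    apply Fin.ext
    show (v * N + e) % N = e % N
    rw [Nat.add_comm, Nat.add_mul_mod_self_right]
  have hdiv : ∀ v : ℕ, (v * N + e) / N = v := by
    intro v
    rw [Nat.add_comm, Nat.add_mul_div_right _ _ hN, Nat.div_eq_of_lt he, zero_add]
  have h1 := (hG (xf e) (hxf e)).mul_left (((om B w (xf e) : ℤ) : ℝ))
  have h2 : (fun v : ℕ => ((om B w (xf (v * N + e)) : ℤ) : ℝ) *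
      F (1 + (((v * N + e) / N : ℕ) : ℝ) + ((xf (v * N + e) : ℚ) : ℝ))) =
      fun v : ℕ => ((om B w (xf e) : ℤ) : ℝ) * F (1 + (v : ℝ) + ((xf e : ℚ) : ℝ)) := by
    funext v
    rw [hx, hdiv]
  show HasSum (fun v : ℕ => ((om B w (xf (v * N + e)) : ℤ) : ℝ) *
      F (1 + (((v * N + e) / N : ℕ) : ℝ) + ((xf (v * N + e) : ℚ) : ℝ))) _
  rw [h2]
  exact h1

theorem t_no : S_NO := by
  classical
  intro B b α w hB hα hw
  have hX : (Pt B).Nonempty := by
    refine ⟨1, Finset.mem_biUnion.2 ⟨1, Finset.mem_Icc.2 ⟨le_rfl, hB⟩, mem_Sd.2 ⟨1, le_rfl, le_rfl, by simp⟩⟩⟩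
  have hN : 1 ≤ (Pt B).card := Finset.card_pos.2 hX
  have hNpos : 0 < (Pt B).card := hN
  set xf : ℕ → ℚ := xe B hNpos with hxfdef
  have hxf : ∀ i, xf i ∈ Pt B := fun i => xe_mem B hNpos i
  have hBr : (1 : ℝ) ≤ B := by exact_mod_cast hB
  set wl : ℕ → ℕ → ℤ := fun l d => w d * (d : ℤ) ^ (b - l) * α l with hwl
  set c2 : ℝ := ∑ l ∈ Finset.range (b + 1), ∑ d ∈ Finset.Icc 1 B, |(wl l d : ℝ)| with hc2
  have hbd : ∀ i l, l ≤ b → |((om B (wl l) (xf i) : ℤ) : ℝ)| ≤ c2 := by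
    intro i l hl
    have h1 : |((om B (wl l) (xf i) : ℤ) : ℝ)| ≤ ∑ d ∈ Finset.Icc 1 B, |(wl l d : ℝ)| := by
      unfold om
      rw [Int.cast_sum]
      refine (Finset.abs_sum_le_sum_abs _ _).trans ?_
      exact Finset.sum_le_sum_of_subset_of_nonneg (Finset.filter_subset _ _) fun _ _ _ => abs_nonneg _
    refine h1.trans ?_
    rw [hc2]
    exact Finset.single_le_sum (f := fun l => ∑ d ∈ Finset.Icc 1 B, |(wl l d : ℝ)|)
      (fun l _ => Finset.sum_nonneg fun d _ => abs_nonneg _) (Finset.mem_range.2 (by omega))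
  have hom : ∀ i, om B (wl b) (xf i) = α b * om B w (xf i) := by
    intro i
    unfold om
    rw [Finset.mul_sum]
    refine Finset.sum_congr rfl fun d _ => ?_
    rw [hwl]
    simp only [Nat.sub_self, pow_zero, mul_one]
    ring
  refine ⟨(Pt B).card, 1 / (B : ℝ) ^ 2, 1, c2, fun i => 1 + ((i / (Pt B).card : ℕ) : ℝ) + ((xf i : ℚ) : ℝ),
    fun i l => ((om B (wl l) (xf i) : ℤ) : ℝ), ⟨⟨hN, by positivity, ?_, one_pos, ?_, ?_, ?_, ?_, ?_⟩, ?_⟩, ?_, ?_⟩
  · rw [div_le_one (by positivity)]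
    nlinarith
  · intro i
    have : (0 : ℝ) < ((xf i : ℚ) : ℝ) := by exact_mod_cast (Pt_pos (hxf i)).1
    linarith
  · intro i
    have : ((xf i : ℚ) : ℝ) ≤ 1 := by exact_mod_cast (Pt_pos (hxf i)).2
    linarith
  · intro i
    have hxfe : ∀ i, xf i = (Pt B).orderEmbOfFin rfl ⟨i % (Pt B).card, Nat.mod_lt _ hNpos⟩ := fun i => rfl
    by_cases hi : i % (Pt B).card + 1 < (Pt B).card
    · have e1 : (i + 1) / (Pt B).card = i / (Pt B).card := by
        rw [Nat.div_eq_iff hNpos]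
        have := Nat.div_add_mod i (Pt B).card
        have h3 : (Pt B).card * (i / (Pt B).card) = i / (Pt B).card * (Pt B).card := mul_comm _ _
        constructor
        · omega
        · omega
      have e2 : (i + 1) % (Pt B).card = i % (Pt B).card + 1 := by
        rw [Nat.add_mod_eq_ite]
        have h1N : 1 % (Pt B).card = 1 := Nat.mod_eq_of_lt (by omega)
        rw [h1N, if_neg (by omega)]
      have h3 : xf i < xf (i + 1) := by
        rw [hxfe, hxfe]
        apply ((Pt B).orderEmbOfFin rfl).strictMono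
        rw [Fin.lt_def]
        simp only
        omega
      have h4 := Pt_gap (hxf i) (hxf (i + 1)) h3
      have h5 : (((1 / (B : ℚ) ^ 2 : ℚ)) : ℝ) ≤ (((xf (i + 1) - xf i : ℚ)) : ℝ) := by
        exact_mod_cast h4
      push_cast at h5
      rw [e1]
      linarith
    · have hlt := Nat.mod_lt i hNpos
      have e1 : (i + 1) / (Pt B).card = i / (Pt B).card + 1 := by
        rw [Nat.div_eq_iff hNpos]
        have := Nat.div_add_mod i (Pt B).card
        have h3 : (Pt B).card * (i / (Pt B).card) = i / (Pt B).card * (Pt B).card := mul_comm _ _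
        have h4 : (i / (Pt B).card + 1) * (Pt B).card = i / (Pt B).card * (Pt B).card + (Pt B).card := by ring
        constructor
        · omega
        · omega
      have h4 := Pt_lo (hxf (i + 1))
      have h5 : (((1 / (B : ℚ) ^ 2 : ℚ)) : ℝ) ≤ (((xf (i + 1) : ℚ)) : ℝ) := by
        exact_mod_cast h4
      push_cast at h5
      have h6 : ((xf i : ℚ) : ℝ) ≤ 1 := by exact_mod_cast (Pt_pos (hxf i)).2
      rw [e1]
      push_cast
      linarith
  · intro i
    have h1 : om B (wl b) (xf i) ≠ 0 := by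
      rw [hom]
      exact mul_ne_zero hα (om_ne hw (hxf i))
    have := Int.one_le_abs h1
    exact_mod_cast this
  · exact fun i => hbd i b le_rfl
  · exact fun i l hl => hbd i l hl
  · exact card_Pt B
  · intro F hF
    refine hasSum_sum fun l hl => ?_
    have h1 := one_series B hNpos (wl l) (F l) (hF l (by have := Finset.mem_range.1 hl; omega))
    have h2 : ∀ d : ℕ, ((wl l d : ℤ) : ℝ) = (w d : ℝ) * (d : ℝ) ^ (b - l) * (α l : ℝ) := by
      intro d
      rw [hwl]
      push_cast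
      rfl
    simp only [h2] at h1
    exact h1

end Run7.h795.HJ
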