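import Pool.Agent.Run7.h795.HJ.Stm

/-!
# Rational combinations of consecutive zeta values: the non-vanishing theorem
-/

open Polynomial Pool.Agent.H337R2 Pool.Agent.W165.OZ Filter Topology

namespace Run7.h795.HJ

open Run7.h795.UW

/-- NV: the non-vanishing theorem -/
theorem t_nv (h2 : S_CO) : S_NV := by
  intro N b δ c1 c2 τ Ω hNJ κ hκ
  have h1 := Pool.Agent.W165.OZ.t_hk
  have h3 := Pool.Agent.W165.OZ.t_tb
  have h4 := Pool.Agent.W165.OZ.t_rl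
  have h5 := Pool.Agent.W165.OZ.t_pi
  have h6 := Run7.h795.UW.t_nu
  have hN := hNJ.nodes
  obtain ⟨ω, hω⟩ : ∃ ω : ℕ → ℝ, ω = fun i => Ω i b := ⟨_, rfl⟩
  rw [← hω] at hN
  have hc1 : 0 < c1 := hN.hc1
  have hc2 : 0 < c2 := lt_of_lt_of_le hc1 ((hN.wlo 0).trans (hN.whi 0))
  have hN1 : 1 ≤ N := hN.hN
  have hN0 : (0 : ℝ) < N := by exact_mod_cast hN1
  have hCJ : 0 < CJ b c1 c2 := by unfold CJ; positivity
  have hCJ1 : 0 < CJ b c1 c2 ^ (b + 1) := pow_pos hCJ _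
  obtain ⟨n0, hn0⟩ := h6 N δ c1 (c2 * CJ b c1 c2 ^ (b + 1)) hN1 hN.hδ hN.hδ1 hc1 (mul_pos hc2 hCJ1) κ b hκ
  refine ⟨max n0 2, fun n hn hev μ hμ => ?_⟩
  have hnn0 : n0 ≤ n := (le_max_left _ _).trans hn
  have hn2 : 2 ≤ n := (le_max_right _ _).trans hn
  obtain ⟨M, hM⟩ : ∃ M, 2 * M = κ * n := by
    obtain ⟨a, ha⟩ := hev
    exact ⟨κ * a, by rw [ha]; ring⟩
  have hκn : 2 ≤ κ * n := by nlinarith
  obtain ⟨M0, hM0⟩ : ∃ M0, M0 = (M + 7) / 8 := ⟨_, rfl⟩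
  have hM1 : 1 ≤ M := by omega
  have hM01 : 1 ≤ M0 := by omega
  have hM0M : M0 ≤ M := by omega
  have hM8 : M ≤ 8 * M0 := by omega
  obtain ⟨h, hh⟩ : ∃ h, h = (b + 1) * κ := ⟨_, rfl⟩
  rw [← hh] at hμ ⊢
  have hh1 : 1 ≤ h := by
    rw [hh]; exact Nat.mul_pos (by omega) (by omega)
  have hhn : h * n = 2 * ((b + 1) * M) := by
    rw [hh, mul_assoc, ← hM]; ring
  have hmm : (b + 1) * M0 ≤ (b + 1) * M := Nat.mul_le_mul_left _ hM0M
  have hm1 : 1 ≤ (b + 1) * M0 := Nat.mul_pos (by omega) (by omega)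
  have hm8 : (b + 1) * M ≤ 8 * ((b + 1) * M0) := by
    calc (b + 1) * M ≤ (b + 1) * (8 * M0) := Nat.mul_le_mul_left _ hM8
      _ = 8 * ((b + 1) * M0) := by ring
  by_contra hcon
  push Not at hcon
  have hzero : ∀ r, (b + 1) * M0 ≤ r → r ≤ (b + 1) * M → DH μ r = 0 := fun r hr hr' =>
    hcon r (by omega) (by omega)
  obtain ⟨Q, hQ0, hQd, hQo⟩ := h1 μ ((b + 1) * M0) ((b + 1) * M) hm1 hmm hzero
  have hco := h2 N b δ c1 c2 τ Ω hNJ n h (by omega) hh1 μ hμ M M0 hM01 hM0M (by omega) Q hQ0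
    hQd hQo
  have hωi : ∀ i, Ω i b = ω i := fun i => by rw [hω]
  simp only [hωi] at hco
  have hnum := hn0 n hnn0 M M0 hM hM0
  rw [← hh] at hnum
  have hk : ((b + 1) * M - 1) + ((b + 1) * M0 - 1) + 2 ≤ h * n := by omega
  have htb := (h3 N δ c1 c2 τ ω hN n h M (((b + 1) * M - 1) + ((b + 1) * M0 - 1)) (by omega) hh1 hk).2
  have hexp : h * n - 2 - (((b + 1) * M - 1) + ((b + 1) * M0 - 1)) = (b + 1) * (M - M0) := by
    rw [Nat.mul_sub]; omega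
  rw [hexp] at htb
  obtain ⟨A, hA⟩ : ∃ A : ℝ, A = δ ^ (6 * N) * (((M - 1).factorial : ℝ) ^ 2 /
    (6 * (N : ℝ) ^ 2) ^ (M - 1)) := ⟨_, rfl⟩
  obtain ⟨B, hB⟩ : ∃ B : ℝ, B = δ ^ (6 * N) * (((M0 - 1).factorial : ℝ) ^ 2 /
    (6 * (N : ℝ) ^ 2) ^ (M0 - 1)) := ⟨_, rfl⟩
  have hδ := hN.hδ
  have hA0 : 0 < A := by rw [hA]; positivity
  have hB0 : 0 < B := by rw [hB]; positivity
  rw [← hA, ← hB] at hnum
  obtain ⟨X, hX⟩ : ∃ X : ℝ, X = 4 * (N : ℝ) ^ 2 * c2 * (MM N M ^ (2 * ((b + 1) * (M - M0))))⁻¹ :=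
    ⟨_, rfl⟩
  have hMM : 0 < MM N M := by
    unfold MM
    exact lt_of_lt_of_le one_pos (le_max_left _ _)
  have hX0 : 0 ≤ X := by rw [hX]; positivity
  rw [← hX] at htb
  have hX' : 4 * (N : ℝ) ^ 2 * (c2 * CJ b c1 c2 ^ (b + 1)) * (MM N M ^ (2 * ((b + 1) * (M - M0))))⁻¹ =
      CJ b c1 c2 ^ (b + 1) * X := by
    rw [hX]; ring
  rw [hX'] at hnum
  obtain ⟨Y, hY⟩ : ∃ Y : ℝ, Y = (2 + (M0 : ℝ) / N + n) ^ (2 * h * n) := ⟨_, rfl⟩
  have hY0 : 0 < Y := by rw [hY]; positivity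
  rw [← hY] at hnum
  have hPW : 0 ≤ PW n h b δ := by unfold PW; positivity
  have hterm : ∀ j ∈ Finset.range M0,
      (∑' i, |ω (i + M)| * (Rv n h (τ (i + M)) *
        yv n (τ (i + M)) ^ (((b + 1) * M - 1) + ((b + 1) * M0 - 1)))) /
      (c1 * Rv n h (τ j) * (∏ l ∈ (Finset.range M).erase j, |yv n (τ j) - yv n (τ l)|) ^ (b + 1) *
        (∏ l ∈ (Finset.range M0).erase j, |yv n (τ j) - yv n (τ l)|) ^ (b + 1)) ≤
      X * Y / (c1 * A ^ (b + 1) * B ^ (b + 1)) := by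
    intro j hj
    rw [Finset.mem_range] at hj
    have e1 := h5 N δ c1 c2 τ ω hN n (by omega) M j (by omega)
    have e2 := h5 N δ c1 c2 τ ω hN n (by omega) M0 j hj
    rw [← hA] at e1
    rw [← hB] at e2
    have e1' := pow_le_pow_left₀ hA0.le e1 (b + 1)
    have e2' := pow_le_pow_left₀ hB0.le e2 (b + 1)
    have e3 := h4 N δ c1 c2 τ ω hN n h j (by omega)
    have e4 : (2 + (j : ℝ) / N + n) ^ (2 * h * n) ≤ Y := by
      rw [hY]
      refine pow_le_pow_left₀ (by positivity) ?_ _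
      have : (j : ℝ) / N ≤ (M0 : ℝ) / N := by
        refine div_le_div_of_nonneg_right ?_ hN0.le
        exact_mod_cast hj.le
      linarith
    have e5 : Y⁻¹ ≤ Rv n h (τ j) := by
      refine le_trans ?_ e3
      exact inv_anti₀ (by positivity) e4
    have hYi : 0 < Y⁻¹ := inv_pos.2 hY0
    have hA1 : 0 < A ^ (b + 1) := pow_pos hA0 _
    have hB1 : 0 < B ^ (b + 1) := pow_pos hB0 _
    have e6 : c1 * Y⁻¹ * A ^ (b + 1) * B ^ (b + 1) ≤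
        c1 * Rv n h (τ j) * (∏ l ∈ (Finset.range M).erase j, |yv n (τ j) - yv n (τ l)|) ^ (b + 1) *
        (∏ l ∈ (Finset.range M0).erase j, |yv n (τ j) - yv n (τ l)|) ^ (b + 1) := by
      have f1 : c1 * Y⁻¹ ≤ c1 * Rv n h (τ j) := mul_le_mul_of_nonneg_left e5 hc1.le
      have f0 : 0 ≤ c1 * Rv n h (τ j) := le_trans (by positivity) f1
      have f2 : c1 * Y⁻¹ * A ^ (b + 1) ≤ c1 * Rv n h (τ j) *
          (∏ l ∈ (Finset.range M).erase j, |yv n (τ j) - yv n (τ l)|) ^ (b + 1) :=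
        mul_le_mul f1 e1' hA1.le f0
      exact mul_le_mul f2 e2' hB1.le (le_trans (by positivity) f2)
    have e7 : X * Y / (c1 * A ^ (b + 1) * B ^ (b + 1)) =
        X / (c1 * Y⁻¹ * A ^ (b + 1) * B ^ (b + 1)) := by
      field_simp
    rw [e7]
    exact div_le_div₀ hX0 htb (by positivity) e6
  have hsum := Finset.sum_le_sum hterm
  rw [Finset.sum_const, Finset.card_range, nsmul_eq_mul] at hsum
  have h7 := mul_le_mul_of_nonneg_left hsum (mul_nonneg hCJ1.le hPW)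
  have h8 : CJ b c1 c2 ^ (b + 1) * PW n h b δ * ((M0 : ℝ) * (X * Y / (c1 * A ^ (b + 1) * B ^ (b + 1)))) =
      PW n h b δ * ((M0 : ℝ) * (CJ b c1 c2 ^ (b + 1) * X * Y / (c1 * A ^ (b + 1) * B ^ (b + 1)))) := by
    ring
  rw [h8] at h7
  linarith

end Run7.h795.HJ
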