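import Pool.Agent.Run7.h795.HJ.Stm
import Pool.Agent.W165.OZ.PK

/-!
# Part PR: the determinants over the rational numbers (helper834)
-/

open Polynomial Pool.Agent.H337R2 Pool.Agent.W165.OZ Filter Topology

namespace Run7.h795.HJ

open Pool.Agent.W165.OZ.PRaux Run7.h795.UW

theorem t_pr (h1 : S_SE) (h2 : S_SF) : S_PR := by
  intro n h B b α w x q hq hx hn hev hh hB hBn r hr hne
  have hint : ∀ p : ℕ, [Fact p.Prime] → padicNorm p
      ((((q : ℚ) * (Dl n B : ℚ) ^ b) ^ r * (∏ i ∈ Finset.range r, sc n h B i ^ 2) *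
        (PPn n (hj h b) B : ℚ)) * DH (mj n h B b α w x) r) ≤ 1 := by
    intro p hp
    let S : Subring ℚ := Sring p
    have hmem : ∀ y : ℚ, y ∈ S ↔ padicNorm p y ≤ 1 := fun y => mem_Sring p y
    have hS : ∀ y : ℚ, padicNorm p y ≤ 1 → algebraMap ℚ ℚ y ∈ S := fun y hy => (hmem _).2 hy
    have hqz : ∀ i, ((q : ℕ) : ℚ) * x i ∈ S := by
      intro i
      obtain ⟨a, ha⟩ := hx i
      rw [hmem, ha]
      exact padicNorm.of_int a
    rw [← hmem]
    by_cases hpn : p ≤ n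
    · have h3 := h1 ℚ p S hS n h B b α w x q hqz hn hev hh hB hpn r hr
      have h4 : algebraMap ℚ ℚ ((PPn n (hj h b) B : ℕ) : ℚ) ∈ S := hS _ (padicNorm.of_nat _)
      have h5 := S.mul_mem h3 h4
      have h6 : algebraMap ℚ ℚ (((q : ℚ) * (Dl n B : ℚ) ^ b) ^ r *
          ∏ i ∈ Finset.range r, sc n h B i ^ 2) *
          DH (mj n h B b α w x) r * algebraMap ℚ ℚ ((PPn n (hj h b) B : ℕ) : ℚ) =
          (((q : ℚ) * (Dl n B : ℚ) ^ b) ^ r * (∏ i ∈ Finset.range r, sc n h B i ^ 2) *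
            (PPn n (hj h b) B : ℚ)) * DH (mj n h B b α w x) r := by
        simp only [Algebra.algebraMap_self, RingHom.id_apply]
        ring
      rwa [h6] at h5
    · have hpn' : n < p := by omega
      have h3 := h2 ℚ p S hS n h B b α w x q hqz hn hh hB hBn hpn' r hr
      obtain ⟨m, hm⟩ := dvd_PPn p n (hj h b) B hpn'
      have h4 : (m : ℚ) ∈ S := (hmem _).2 (padicNorm.of_nat _)
      have h4' : (((Dl n B) ^ (b * r) : ℕ) : ℚ) ∈ S := (hmem _).2 (padicNorm.of_nat _)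
      have h5 : (∏ i ∈ Finset.range r, sc n h B i ^ 2) ∈ S := by
        refine Subring.prod_mem _ fun i _ => Subring.pow_mem _ ?_ _
        rw [hmem]
        exact padicNorm_sc p n h B i hn hpn'
      have h6 := S.mul_mem (S.mul_mem (S.mul_mem h3 h5) h4) h4'
      have h7 : algebraMap ℚ ℚ ((q : ℚ) ^ r * (p : ℚ) ^ (2 * hj h b * Sp n B p)) *
          DH (mj n h B b α w x) r * (∏ i ∈ Finset.range r, sc n h B i ^ 2) *
          (m : ℚ) * (((Dl n B) ^ (b * r) : ℕ) : ℚ) =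
          (((q : ℚ) * (Dl n B : ℚ) ^ b) ^ r * (∏ i ∈ Finset.range r, sc n h B i ^ 2) *
            (PPn n (hj h b) B : ℚ)) * DH (mj n h B b α w x) r := by
        have h8 : ((PPn n (hj h b) B : ℕ) : ℚ) = (p : ℚ) ^ (2 * hj h b * Sp n B p) * (m : ℚ) := by
          rw [hm]; push_cast; ring
        rw [h8, Nat.cast_pow, mul_pow, ← pow_mul]
        simp only [Algebra.algebraMap_self, RingHom.id_apply]
        ring
      rwa [h7] at h6
  have hq0 : 0 < (q : ℚ) := by exact_mod_cast hq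
  have hD0 : 0 < (Dl n B : ℚ) := by
    have : 0 < Dl n B := Finset.prod_pos fun p hp => by
      rw [Finset.mem_filter] at hp
      exact pow_pos hp.2.pos _
    exact_mod_cast this
  have hpos : 0 < ((q : ℚ) * (Dl n B : ℚ) ^ b) ^ r * (∏ i ∈ Finset.range r, sc n h B i ^ 2) *
      (PPn n (hj h b) B : ℚ) := by
    have a2 : (0 : ℚ) < ∏ i ∈ Finset.range r, sc n h B i ^ 2 :=
      Finset.prod_pos fun i _ => pow_pos (PRaux.sc_pos n h B i) 2
    have a3 : (0 : ℚ) < (PPn n (hj h b) B : ℚ) := by exact_mod_cast PRaux.PPn_pos n (hj h b) B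
    positivity
  have h9 := one_le_abs hint (mul_ne_zero hpos.ne' hne)
  rw [abs_mul, abs_of_pos hpos, mul_comm] at h9
  exact h9

end Run7.h795.HJ
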