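import Pool.Agent.Run7.h795.HJ.Stm
import Pool.Agent.Run7.h795.UW.RM
import Pool.Agent.W165.OZ.DS
import Pool.Agent.W165.OZ.PF

/-!
# The real moments (helper437, after `UW/RM.lean`)
-/

open Polynomial Pool.Agent.H337R2 Pool.Agent.W165.OZ Filter Topology

namespace Run7.h795.HJ

noncomputable section

open Run7.h795.UW

namespace RM

/-- the value of the functional without derivative -/
lemma Dv0 (n h k : ℕ) (t : ℝ) : Dv n h 0 t (X ^ k) = Rv n h t * yv n t ^ k := by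
  unfold Dv Rs Rv yv
  rw [PowerSeries.coeff_zero_eq_constantCoeff_apply, map_mul, map_mul, Polynomial.aeval_X_pow,
    map_pow, map_pow, map_prod, map_add, map_mul]
  have h1 : ∀ k ∈ Finset.range n, PowerSeries.constantCoeff (ir (t + (k : ℝ))) =
      (t + (k : ℝ))⁻¹ := by
    intro k _
    rw [← PowerSeries.coeff_zero_eq_constantCoeff_apply]
    simp [ir, PowerSeries.coeff_mk]
  rw [Finset.prod_congr rfl h1]
  have h2 : PowerSeries.constantCoeff (ys n t) = t * (t + ((n : ℝ) - 1)) := by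
    unfold ys
    simp
  rw [h2]
  simp only [PowerSeries.constantCoeff_C, PowerSeries.constantCoeff_X, mul_zero, zero_add]
  rw [Finset.prod_inv_distrib, inv_pow, div_eq_mul_inv]

/-- the sum over the nodes with denominator `d`, at least one derivative -/
theorem hasSum_l (n h d l : ℕ) (P : ℚ[X]) (hd : 1 ≤ d) (hl : 1 ≤ l)
    (hP : P.natDegree < 2 * h * n) :
    HasSum (fun u : ℕ => ((PowerSeries.coeff l (RS (sP n) (mP h) P (((u : ℚ) + d + 1) / d)) : ℚ) : ℝ))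
      (∑ i ∈ Finset.Icc 1 (2 * h), ((-1) ^ l * (bc l i : ℝ)) *
        ((((rhoP n h P i * (d : ℚ) ^ (i + l) : ℚ) : ℝ)) * zr (i + l) -
        (((d : ℚ) ^ (i + l) * ∑ k ∈ sP n, pa (sP n) (mP h) P k i * hs (i + l) (d * (k + 1)) : ℚ) : ℝ))) := by
  have hd0 : (0 : ℝ) < d := by exact_mod_cast hd
  have hdq : (0 : ℚ) < d := by exact_mod_cast hd
  have hdeg : P.degree < (QQ (sP n) (mP h)).degree := by
    rw [Polynomial.degree_eq_natDegree (QQ_monic _ _).ne_zero]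
    refine lt_of_le_of_lt Polynomial.degree_le_natDegree ?_
    rw [QQ_natDegree]
    simp only [mP, Finset.sum_const, Finset.card_range, smul_eq_mul]
    have : P.natDegree < n * (2 * h) := by
      rw [mul_comm n]; exact hP
    exact_mod_cast this
  have hterm : ∀ u : ℕ, ((PowerSeries.coeff l (RS (sP n) (mP h) P (((u : ℚ) + d + 1) / d)) : ℚ) : ℝ) =
      ∑ k ∈ sP n, ∑ i ∈ Finset.Icc 1 (2 * h), (((pa (sP n) (mP h) P k i : ℚ) : ℝ) *
        ((-1) ^ l * (bc l i : ℝ)) * (d : ℝ) ^ (i + l)) *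
        (1 / ((u : ℝ) + (((d * (k + 1) : ℕ) : ℝ) + 1)) ^ (i + l)) := by
    intro u
    have hne : ∀ m ∈ sP n, (((u : ℚ) + d + 1) / d) + (m : ℚ) ≠ 0 := by
      intro m _; positivity
    rw [coeff_RS (sP n) (mP h) P hdeg _ hne l]
    push_cast
    refine Finset.sum_congr rfl fun k hk => ?_
    have h1 := sum_pfc_eq (sP n) (mP h) P (2 * h) k le_rfl
      (fun a i => (a : ℝ) * ((-1) ^ l * (Nat.choose (i - 1 + l) (i - 1) : ℝ) /
        (((u : ℝ) + d + 1) / d + k) ^ (i + l))) (by intro i; simp)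
    refine h1.trans ?_
    refine Finset.sum_congr rfl fun i _ => ?_
    have e : ((u : ℝ) + d + 1) / d + k = ((u : ℝ) + ((d : ℝ) * (k + 1) + 1)) / d := by
      field_simp
      ring
    have h2 : (0 : ℝ) < (u : ℝ) + ((d : ℝ) * (k + 1) + 1) := by positivity
    rw [e, div_pow]
    unfold bc
    field_simp
  simp only [hterm]
  have hS : ∀ k ∈ sP n, HasSum (fun u : ℕ => ∑ i ∈ Finset.Icc 1 (2 * h),
      (((pa (sP n) (mP h) P k i : ℚ) : ℝ) * ((-1) ^ l * (bc l i : ℝ)) * (d : ℝ) ^ (i + l)) *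
        (1 / ((u : ℝ) + (((d * (k + 1) : ℕ) : ℝ) + 1)) ^ (i + l)))
      (∑ i ∈ Finset.Icc 1 (2 * h), (((pa (sP n) (mP h) P k i : ℚ) : ℝ) *
        ((-1) ^ l * (bc l i : ℝ)) * (d : ℝ) ^ (i + l)) *
        (zr (i + l) - ((hs (i + l) (d * (k + 1)) : ℚ) : ℝ))) := by
    intro k _
    refine hasSum_sum fun i hi => (hasSum_tail ?_ (d * (k + 1))).mul_left _
    have := (Finset.mem_Icc.1 hi).1
    omega
  have hT := hasSum_sum hS
  have hE : ∑ i ∈ Finset.Icc 1 (2 * h), ((-1) ^ l * (bc l i : ℝ)) *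
      ((((rhoP n h P i * (d : ℚ) ^ (i + l) : ℚ) : ℝ)) * zr (i + l) -
        (((d : ℚ) ^ (i + l) * ∑ k ∈ sP n, pa (sP n) (mP h) P k i * hs (i + l) (d * (k + 1)) : ℚ) : ℝ)) =
      ∑ k ∈ sP n, ∑ i ∈ Finset.Icc 1 (2 * h), (((pa (sP n) (mP h) P k i : ℚ) : ℝ) *
        ((-1) ^ l * (bc l i : ℝ)) * (d : ℝ) ^ (i + l)) *
        (zr (i + l) - ((hs (i + l) (d * (k + 1)) : ℚ) : ℝ)) := by
    rw [Finset.sum_comm]
    refine Finset.sum_congr rfl fun i _ => ?_
    unfold rhoP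
    push_cast
    rw [Finset.sum_mul, Finset.sum_mul, Finset.mul_sum, ← Finset.sum_sub_distrib, Finset.mul_sum]
    refine Finset.sum_congr rfl fun k _ => ?_
    ring
  rw [hE]
  exact hT

/-- the zeta values -/
def Zt (j : ℕ) : ℝ := if 2 ≤ j then zr j else 0

/-- the sum over the nodes with denominator `d` -/
theorem hasSum_Dv (n h d l k : ℕ) (hn : 1 ≤ n) (hh : 1 ≤ h) (hd : 1 ≤ d) (hk : k + 2 ≤ h * n) :
    HasSum (fun u : ℕ => Dv n h l (((u : ℝ) + d + 1) / d) (X ^ k))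
      (∑ i ∈ Finset.Icc 1 (2 * h), ((-1) ^ l * (bc l i : ℝ)) *
        ((((rhoP n h (num n (X ^ k)) i * (d : ℚ) ^ (i + l) : ℚ) : ℝ)) * Zt (i + l) -
        (((d : ℚ) ^ (i + l) * ∑ m ∈ sP n, pa (sP n) (mP h) (num n (X ^ k)) m i *
          hs (i + l) (d * (m + 1)) : ℚ) : ℝ))) := by
  have hdeg := rm_natDegree n k
  rcases Nat.eq_zero_or_pos l with hl | hl
  · subst hl
    have h3 := t_ds t_pf n h d (num n (X ^ k)) hn hh hd (by
      have h3 : 2 * h * n = 2 * (h * n) := by ring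
      omega)
    have h4 : ∑ i ∈ Finset.Icc 1 (2 * h), (((rhoP n h (num n (X ^ k)) i * (d : ℚ) ^ i : ℚ) : ℝ) *
        (if 2 ≤ i then zr i else 0) - (((d : ℚ) ^ i * ∑ m ∈ sP n,
          pa (sP n) (mP h) (num n (X ^ k)) m i * hs i (d * (m + 1)) : ℚ) : ℝ)) =
        ∑ i ∈ Finset.Icc 1 (2 * h), ((-1) ^ 0 * (bc 0 i : ℝ)) *
        ((((rhoP n h (num n (X ^ k)) i * (d : ℚ) ^ (i + 0) : ℚ) : ℝ)) * Zt (i + 0) -
        (((d : ℚ) ^ (i + 0) * ∑ m ∈ sP n, pa (sP n) (mP h) (num n (X ^ k)) m i *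
          hs (i + 0) (d * (m + 1)) : ℚ) : ℝ)) := by
      refine Finset.sum_congr rfl fun i _ => ?_
      have h5 : bc 0 i = 1 := by
        unfold bc
        rw [add_zero, Nat.choose_self]
      rw [h5, pow_zero, Nat.cast_one, one_mul, one_mul, add_zero]
      rfl
    rw [h4] at h3
    refine h3.congr_fun ?_ |> fun h => h
    intro u
    rw [Dv0]
    exact (rm_term n h k d u).symm
  · have h3 := hasSum_l n h d l (num n (X ^ k)) hd hl (by
      have h3 : 2 * h * n = 2 * (h * n) := by ring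
      omega)
    have h4 : ∑ i ∈ Finset.Icc 1 (2 * h), ((-1) ^ l * (bc l i : ℝ)) *
        ((((rhoP n h (num n (X ^ k)) i * (d : ℚ) ^ (i + l) : ℚ) : ℝ)) * zr (i + l) -
        (((d : ℚ) ^ (i + l) * ∑ m ∈ sP n, pa (sP n) (mP h) (num n (X ^ k)) m i *
          hs (i + l) (d * (m + 1)) : ℚ) : ℝ)) =
        ∑ i ∈ Finset.Icc 1 (2 * h), ((-1) ^ l * (bc l i : ℝ)) *
        ((((rhoP n h (num n (X ^ k)) i * (d : ℚ) ^ (i + l) : ℚ) : ℝ)) * Zt (i + l) -
        (((d : ℚ) ^ (i + l) * ∑ m ∈ sP n, pa (sP n) (mP h) (num n (X ^ k)) m i *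
          hs (i + l) (d * (m + 1)) : ℚ) : ℝ)) := by
      refine Finset.sum_congr rfl fun i hi => ?_
      have h5 : Zt (i + l) = zr (i + l) := by
        unfold Zt
        rw [if_pos]
        have := (Finset.mem_Icc.1 hi).1
        omega
      rw [h5]
    rw [h4] at h3
    refine h3.congr_fun ?_ |> fun h => h
    intro u
    rw [← UW.RM.Dv_rat]
    push_cast
    rfl

end RM

open RM in
theorem t_rm : S_RM := by
  intro n h B b α w hn _ hh k hk
  refine ⟨fun l _ d hd => (hasSum_Dv n h d l k (by omega) hh (Finset.mem_Icc.1 hd).1 hk).summable, ?_⟩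
  set P := num n (X ^ k) with hP
  -- the two parts
  have hL : mj n h B b α w (xi b α) k =
      (∑ l ∈ Finset.range (b + 1), ∑ d ∈ Finset.Icc 1 B, ∑ i ∈ Finset.Icc 1 (2 * h),
        ((-1) ^ l * (α l : ℝ) * (bc l i : ℝ)) * (((rhoP n h P i : ℚ) : ℝ) * ((w d : ℝ) *
          (d : ℝ) ^ (i + b)) * Zt (i + l))) -
      ∑ l ∈ Finset.range (b + 1), ∑ d ∈ Finset.Icc 1 B, ∑ i ∈ Finset.Icc 1 (2 * h),
        ((-1) ^ l * (α l : ℝ) * (bc l i : ℝ)) * (((w d : ℝ) * (d : ℝ) ^ (b - l) *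
          (d : ℝ) ^ (i + l)) * ((∑ m ∈ sP n, pa (sP n) (mP h) P m i *
            hs (i + l) (d * (m + 1)) : ℚ) : ℝ)) := by
    unfold mj Lj
    rw [← hP]
    congr 1
    · have h1 : ∀ i ∈ Finset.Icc 1 (2 * h), algebraMap ℚ ℝ (rhoP n h P i * WW B w (i + b)) *
          xi b α i = ∑ l ∈ Finset.range (b + 1), ∑ d ∈ Finset.Icc 1 B,
        ((-1) ^ l * (α l : ℝ) * (bc l i : ℝ)) * (((rhoP n h P i : ℚ) : ℝ) * ((w d : ℝ) *
          (d : ℝ) ^ (i + b)) * Zt (i + l)) := by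
        intro i _
        unfold xi WW
        rw [eq_ratCast]
        push_cast
        rw [Finset.mul_sum]
        refine Finset.sum_congr rfl fun l _ => ?_
        rw [Finset.mul_sum, Finset.sum_mul]
        refine Finset.sum_congr rfl fun d _ => ?_
        unfold Zt
        ring
      rw [Finset.sum_congr rfl h1, Finset.sum_comm]
      refine Finset.sum_congr rfl fun l _ => ?_
      rw [Finset.sum_comm]
    · unfold btj bet
      rw [eq_ratCast]
      push_cast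
      refine Finset.sum_congr rfl fun l _ => ?_
      rw [Finset.mul_sum, Finset.sum_comm]
      have h1 : ∀ i ∈ Finset.Icc 1 (2 * h), (-1) ^ l * (α l : ℝ) * ((bc l i : ℝ) *
          ∑ d ∈ Finset.Icc 1 B, (w d : ℝ) * (d : ℝ) ^ (b - l) * (d : ℝ) ^ (i + l) *
            ∑ m ∈ sP n, ((pa (sP n) (mP h) P m i : ℚ) : ℝ) * ((hs (i + l) (d * (m + 1)) : ℚ) : ℝ)) =
          ∑ d ∈ Finset.Icc 1 B, ((-1) ^ l * (α l : ℝ) * (bc l i : ℝ)) * (((w d : ℝ) *
            (d : ℝ) ^ (b - l) * (d : ℝ) ^ (i + l)) * ∑ m ∈ sP n,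
              ((pa (sP n) (mP h) P m i : ℚ) : ℝ) * ((hs (i + l) (d * (m + 1)) : ℚ) : ℝ)) := by
        intro i _
        rw [← mul_assoc, Finset.mul_sum]
      exact Finset.sum_congr rfl h1
  rw [hL, ← Finset.sum_sub_distrib]
  refine Finset.sum_congr rfl fun l hl => ?_
  rw [← Finset.sum_sub_distrib]
  refine Finset.sum_congr rfl fun d hd => ?_
  rw [(hasSum_Dv n h d l k (by omega) hh (Finset.mem_Icc.1 hd).1 hk).tsum_eq,
    ← Finset.sum_sub_distrib, Finset.mul_sum]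
  refine Finset.sum_congr rfl fun i _ => ?_
  have hlb : l ≤ b := by
    rw [Finset.mem_range] at hl
    omega
  have e1 : (d : ℝ) ^ (i + b) = (d : ℝ) ^ (b - l) * (d : ℝ) ^ (i + l) := by
    rw [← pow_add]
    congr 1
    omega
  rw [e1, ← hP]
  push_cast
  ring

end

end Run7.h795.HJ
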