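import Pool.Agent.Run7.h795.HJ.Lin
import Pool.Agent.Run7.h795.UW.SE

/-!
# Integrality at the primes `p ≤ n` (helper437, after `UW/SE.lean` by helper366)
-/

open Polynomial Pool.Agent.H337R2 Pool.Agent.W165.OZ Filter Topology

namespace Run7.h795.HJ

noncomputable section

open Run7.h795.UW

namespace SE

/-- one entry -/
lemma entry (A : Type) [CommRing A] [Algebra ℚ A] (p : ℕ) [hp : Fact p.Prime]
    (S : Subring A) (hS : ∀ x : ℚ, padicNorm p x ≤ 1 → algebraMap ℚ A x ∈ S)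
    (n h B b : ℕ) (α w : ℕ → ℤ) (x : ℕ → A) (q : ℕ) (hx : ∀ i, (q : A) * x i ∈ S)
    (hn : 2 ≤ n) (he : Even n) (hh : 1 ≤ h) (hB : 1 ≤ B) (hpn : p ≤ n) (i i' : ℕ)
    (hi : 2 * i < h * n) (hi' : 2 * i' < h * n) :
    algebraMap ℚ A (((q : ℚ) * (Dl n B : ℚ) ^ b) * sc n h B i * sc n h B i') *
      LjL n h B b α w x (Qb n i * Qb n i') ∈ S := by
  set c : ℚ := sc n h B i * sc n h B i' with hc
  set P := num n (Qb n i * Qb n i') with hP
  set L := Nat.log p (B * n) with hl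
  have hpa : ∀ k < n, ∀ ι, 1 ≤ ι → ι ≤ 2 * h →
      padicNorm p (c * pa (sP n) (mP h) P k ι) * (p : ℚ) ^ (ι * L) ≤ 1 :=
    fun k hk ι h1 h2' => t_pa p n h B hn he hh hB hpn i i' k ι hi hi' hk h1 h2'
  have hp1 : (1 : ℚ) ≤ p := by exact_mod_cast hp.out.one_lt.le
  have hp0 : (0 : ℚ) < p := by exact_mod_cast hp.out.pos
  have hpa1 : ∀ k < n, ∀ ι, 1 ≤ ι → ι ≤ 2 * h → padicNorm p (c * pa (sP n) (mP h) P k ι) ≤ 1 := by
    intro k hk ι h1 h2'
    refine le_trans ?_ (hpa k hk ι h1 h2')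
    exact le_mul_of_one_le_right (padicNorm.nonneg _) (one_le_pow₀ hp1)
  have hDl0 : padicNorm p (Dl n B : ℚ) ≤ 1 := padicNorm.of_nat _
  have hDl : ∀ l ≤ b, padicNorm p ((Dl n B : ℚ) ^ b) * (p : ℚ) ^ (l * L) ≤ 1 := by
    intro l hlb
    have h1 : padicNorm p ((Dl n B : ℚ) ^ b) =
        padicNorm p (Dl n B : ℚ) ^ (b - l) * padicNorm p (Dl n B : ℚ) ^ l := by
      rw [hb_pow, ← pow_add, Nat.sub_add_cancel hlb]
    rw [h1, mul_comm l L, pow_mul, mul_assoc, ← mul_pow]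
    have h2 : (padicNorm p (Dl n B : ℚ) * (p : ℚ) ^ L) ^ l ≤ 1 :=
      pow_le_one₀ (mul_nonneg (padicNorm.nonneg _) (by positivity)) (UW.SE.norm_Dl p n B hpn)
    have h3 : padicNorm p (Dl n B : ℚ) ^ (b - l) ≤ 1 := pow_le_one₀ (padicNorm.nonneg _) hDl0
    calc padicNorm p (Dl n B : ℚ) ^ (b - l) * (padicNorm p (Dl n B : ℚ) * (p : ℚ) ^ L) ^ l
        ≤ 1 * 1 := mul_le_mul h3 h2 (pow_nonneg (mul_nonneg (padicNorm.nonneg _) (by positivity)) _)
          zero_le_one
      _ = 1 := one_mul 1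
  have hDl1 : padicNorm p ((Dl n B : ℚ) ^ b) ≤ 1 := by
    rw [hb_pow]
    exact pow_le_one₀ (padicNorm.nonneg _) hDl0
  change algebraMap ℚ A (((q : ℚ) * (Dl n B : ℚ) ^ b) * sc n h B i * sc n h B i') *
    Lj n h B b α w x P ∈ S
  unfold Lj
  rw [mul_sub, Finset.mul_sum]
  apply S.sub_mem
  · refine Subring.sum_mem _ fun ι hι => ?_
    rw [Finset.mem_Icc] at hι
    have e1 : algebraMap ℚ A (((q : ℚ) * (Dl n B : ℚ) ^ b) * sc n h B i * sc n h B i') *
        (algebraMap ℚ A (rhoP n h P ι * WW B w (ι + b)) * x ι) =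
        algebraMap ℚ A ((Dl n B : ℚ) ^ b * (c * rhoP n h P ι * WW B w (ι + b))) * ((q : A) * x ι) := by
      rw [hc]
      simp only [map_mul, map_natCast]
      ring
    rw [e1]
    apply S.mul_mem _ (hx ι)
    apply hS
    apply Pool.Agent.W165.OZ.SE.norm_mul_le hDl1
    apply Pool.Agent.W165.OZ.SE.norm_mul_le
    · unfold rhoP
      rw [Finset.mul_sum]
      apply padicNorm.sum_le' _ zero_le_one
      intro k hk
      exact hpa1 k (Finset.mem_range.1 hk) ι hι.1 hι.2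
    · exact padicNorm.of_int _
  · rw [← map_mul]
    apply hS
    have e0 : ((q : ℚ) * (Dl n B : ℚ) ^ b) * sc n h B i * sc n h B i' * btj n h B b α w P =
        (q : ℚ) * ∑ l ∈ Finset.range (b + 1), ((-1) ^ l * (α l : ℤ) : ℤ) *
          ∑ ι ∈ Finset.Icc 1 (2 * h), (bc l ι : ℚ) * ((Dl n B : ℚ) ^ b *
            (c * bet n h B l (fun d => w d * (d : ℤ) ^ (b - l)) P ι)) := by
      unfold btj
      rw [hc, Finset.mul_sum, Finset.mul_sum]
      refine Finset.sum_congr rfl fun l _ => ?_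
      rw [Finset.mul_sum, Finset.mul_sum, Finset.mul_sum, Finset.mul_sum]
      refine Finset.sum_congr rfl fun ι _ => ?_
      push_cast
      ring
    rw [e0]
    apply Pool.Agent.W165.OZ.SE.norm_mul_le (padicNorm.of_nat _)
    apply padicNorm.sum_le' _ zero_le_one
    intro l hlb
    have hlb' : l ≤ b := by
      rw [Finset.mem_range] at hlb
      omega
    apply Pool.Agent.W165.OZ.SE.norm_mul_le (padicNorm.of_int _)
    apply padicNorm.sum_le' _ zero_le_one
    intro ι hι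
    rw [Finset.mem_Icc] at hι
    apply Pool.Agent.W165.OZ.SE.norm_mul_le (padicNorm.of_nat _)
    have e2 : (Dl n B : ℚ) ^ b * (c * bet n h B l (fun d => w d * (d : ℤ) ^ (b - l)) P ι) =
        ∑ d ∈ Finset.Icc 1 B, ((w d * (d : ℤ) ^ (b - l) : ℤ) : ℚ) *
          ∑ k ∈ sP n, (c * pa (sP n) (mP h) P k ι) *
          ((Dl n B : ℚ) ^ b * ((d : ℚ) ^ (ι + l) * hs (ι + l) (d * (k + 1)))) := by
      unfold bet
      rw [Finset.mul_sum, Finset.mul_sum]
      refine Finset.sum_congr rfl fun d _ => ?_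
      rw [Finset.mul_sum, Finset.mul_sum, Finset.mul_sum, Finset.mul_sum]
      refine Finset.sum_congr rfl fun k _ => ?_
      ring
    rw [e2]
    apply padicNorm.sum_le' _ zero_le_one
    intro d hd
    rw [Finset.mem_Icc] at hd
    apply Pool.Agent.W165.OZ.SE.norm_mul_le (padicNorm.of_int _)
    apply padicNorm.sum_le' _ zero_le_one
    intro k hk
    have hk' := Finset.mem_range.1 hk
    rw [padicNorm.mul (c * pa (sP n) (mP h) P k ι), padicNorm.mul ((Dl n B : ℚ) ^ b)]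
    have h3 := t_hb p n B d k (ι + l) hd.1 hd.2 hk'
    have h4 : (p : ℚ) ^ ((ι + l) * L) = (p : ℚ) ^ (l * L) * (p : ℚ) ^ (ι * L) := by
      rw [← pow_add]
      congr 1
      ring
    rw [← hl, h4] at h3
    calc padicNorm p (c * pa (sP n) (mP h) P k ι) * (padicNorm p ((Dl n B : ℚ) ^ b) *
          padicNorm p ((d : ℚ) ^ (ι + l) * hs (ι + l) (d * (k + 1))))
        ≤ padicNorm p (c * pa (sP n) (mP h) P k ι) * (padicNorm p ((Dl n B : ℚ) ^ b) *
          ((p : ℚ) ^ (l * L) * (p : ℚ) ^ (ι * L))) :=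
          mul_le_mul_of_nonneg_left (mul_le_mul_of_nonneg_left h3 (padicNorm.nonneg _))
            (padicNorm.nonneg _)
      _ = (padicNorm p ((Dl n B : ℚ) ^ b) * (p : ℚ) ^ (l * L)) *
          (padicNorm p (c * pa (sP n) (mP h) P k ι) * (p : ℚ) ^ (ι * L)) := by ring
      _ ≤ 1 * 1 := mul_le_mul (hDl l hlb') (hpa k hk' ι hι.1 hι.2)
          (mul_nonneg (padicNorm.nonneg _) (by positivity)) zero_le_one
      _ = 1 := one_mul 1

end SE

theorem t_se : S_SE := by
  intro A _ _ p _ S hS n h B b α w x q hx hn he hh hB hpn r hr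
  have hdet : DH (mj n h B b α w x) r =
      Matrix.det (Matrix.of fun i j : Fin r => LjL n h B b α w x (Qb n i.1 * Qb n j.1)) := by
    rw [t_bas ℚ A (LjL n h B b α w x) (Qb n) (Qb_monic n) (fun i => Qb_natDegree n i hn) r]
    rfl
  set M : Matrix (Fin r) (Fin r) A :=
    Matrix.of fun i j : Fin r => LjL n h B b α w x (Qb n i.1 * Qb n j.1) with hM
  set Q : ℚ := (q : ℚ) * (Dl n B : ℚ) ^ b with hQ
  have hN : Matrix.det (Matrix.of fun i j : Fin r => algebraMap ℚ A (Q * sc n h B i.1) *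
      (Matrix.of fun i j : Fin r => algebraMap ℚ A (sc n h B j.1) * M i j) i j) =
      algebraMap ℚ A (Q ^ r * ∏ i ∈ Finset.range r, sc n h B i ^ 2) * M.det := by
    rw [Matrix.det_mul_column (fun i : Fin r => algebraMap ℚ A (Q * sc n h B i.1)),
      Matrix.det_mul_row (fun j : Fin r => algebraMap ℚ A (sc n h B j.1)), ← mul_assoc]
    congr 1
    rw [← map_prod, ← map_prod, ← map_mul]
    congr 1
    rw [Finset.prod_mul_distrib, Finset.prod_const, Finset.card_univ, Fintype.card_fin, mul_assoc,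
      ← Finset.prod_mul_distrib]
    congr 1
    rw [Finset.prod_range]
    refine Finset.prod_congr rfl fun i _ => ?_
    ring
  rw [hdet, ← hN]
  apply Pool.Agent.W165.OZ.SE.det_mem
  intro i j
  have hi := i.2
  have hj := j.2
  have key := SE.entry A p S hS n h B b α w x q hx hn he hh hB hpn i.1 j.1 (by omega) (by omega)
  have e : (Matrix.of fun i j : Fin r => algebraMap ℚ A (Q * sc n h B i.1) *
      (Matrix.of fun i j : Fin r => algebraMap ℚ A (sc n h B j.1) * M i j) i j) i j =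
      algebraMap ℚ A (((q : ℚ) * (Dl n B : ℚ) ^ b) * sc n h B i.1 * sc n h B j.1) *
        LjL n h B b α w x (Qb n i.1 * Qb n j.1) := by
    simp only [Matrix.of_apply, hM, hQ, map_mul]
    ring
  rw [e]
  exact key

end

end Run7.h795.HJ
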