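import Pool.Agent.Run7.h795.HJ.Stm
import Pool.Agent.Run7.h795.UW.SF

/-!
# Rational combinations of zeta values: integrality at the primes `p > n`
-/

open Polynomial Pool.Agent.H337R2 Pool.Agent.W165.OZ Filter Topology

namespace Run7.h795.HJ

noncomputable section

open Run7.h795.UW

/-- the coefficient of the rational function, indexed by the order of the pole -/
lemma coeff_RSj (n h l : ℕ) (P : ℚ[X]) (hdeg : P.natDegree < 2 * h * n) (c : ℚ)
    (hc : ∀ m < n, c + (m : ℚ) ≠ 0) :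
    (-1) ^ l * PowerSeries.coeff l (RS (sP n) (mP h) P c) = ∑ k ∈ sP n, ∑ i ∈ Finset.Icc 1 (2 * h),
      pa (sP n) (mP h) P k i * ((bc l i : ℚ) / (c + k) ^ (i + l)) := by
  have hne : ∀ k ∈ sP n, c + (k : ℚ) ≠ 0 := fun k hk => hc k (Finset.mem_range.1 hk)
  have hQdeg : (QQ (sP n) (mP h)).natDegree = 2 * h * n := by
    rw [QQ_natDegree, Finset.sum_const, Finset.card_range, smul_eq_mul]
    ring
  have hdeg' : P.degree < (QQ (sP n) (mP h)).degree := by
    rw [Polynomial.degree_eq_natDegree (QQ_monic _ _).ne_zero, hQdeg]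
    exact lt_of_le_of_lt Polynomial.degree_le_natDegree (by exact_mod_cast hdeg)
  rw [coeff_RS (sP n) (mP h) P hdeg' c hne l, Finset.mul_sum]
  refine Finset.sum_congr rfl fun k _ => ?_
  have := pfc_reindex (sP n) (mP h) P k
    (fun x i => x * ((bc l i : ℚ) / (c + k) ^ (i + l)))
  rw [← this, Finset.mul_sum]
  refine Finset.sum_congr rfl fun j _ => ?_
  have h1 : ((-1 : ℚ)) ^ l * (-1) ^ l = 1 := by rw [← mul_pow]; norm_num
  have e : (bc l (mP h k - j) : ℚ) = (Nat.choose (mP h k - j - 1 + l) (mP h k - j - 1) : ℚ) := rfl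
  rw [e]
  linear_combination (pfc (sP n) (mP h) P k j *
    ((Nat.choose (mP h k - j - 1 + l) (mP h k - j - 1) : ℚ) / (c + k) ^ (mP h k - j + l))) * h1

/-- the polar part at a singular node -/
theorem po_gen (p : ℕ) [hp : Fact p.Prime] (n h B l : ℕ) (hnp : n < p) (hBn : B ≤ n) (P : ℚ[X])
    (hP : ∀ j, padicNorm p (P.coeff j) ≤ 1) (hdeg : P.natDegree < 2 * h * n)
    (d k v : ℕ) (hd : 1 ≤ d) (hdB : d ≤ B) (hk : k < n) (hv : 1 ≤ v) (hpv : p * v ≤ d * (k + 1)) :
    padicNorm p ((∑ i ∈ Finset.Icc 1 (2 * h), (bc l i : ℚ) * (pa (sP n) (mP h) P k i *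
        ((d : ℚ) / ((p * v : ℕ) : ℚ)) ^ (i + l))) -
      (-1) ^ l * PowerSeries.coeff l (RS (sP n) (mP h) P (((p * v : ℕ) : ℚ) / d - k))) ≤ 1 := by
  have hp1 : 1 < p := hp.out.one_lt
  have hp0 : (0 : ℚ) < p := by exact_mod_cast hp.out.pos
  have hvp : v < p := by
    have h3 : p * v ≤ n * n := hpv.trans (Nat.mul_le_mul (hdB.trans hBn) hk)
    by_contra hcon
    push Not at hcon
    have h4 : p * p ≤ p * v := Nat.mul_le_mul_left p hcon
    have h5 : n * n < p * p := Nat.mul_lt_mul'' hnp hnp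
    omega
  have hvn : padicNorm p (v : ℚ) = 1 := po_nat_unit p v hv hvp
  have hdn : padicNorm p (d : ℚ) = 1 := po_nat_unit p d hd (by omega)
  have hd0 : (d : ℚ) ≠ 0 := by
    have : (0 : ℚ) < d := by exact_mod_cast hd
    exact this.ne'
  have hv0 : (v : ℚ) ≠ 0 := by
    have : (0 : ℚ) < v := by exact_mod_cast hv
    exact this.ne'
  have hain : (d : ℚ) / ((p * v : ℕ) : ℚ) = (((p * v : ℕ) : ℚ) / d)⁻¹ := by rw [inv_div]
  rw [hain]
  set a : ℚ := ((p * v : ℕ) : ℚ) / d with ha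
  have han : padicNorm p a = (p : ℚ)⁻¹ := by
    rw [ha, padicNorm.div, Nat.cast_mul, padicNorm.mul, hvn, hdn, padicNorm.padicNorm_p_of_prime]
    simp
  have ha1 : padicNorm p a < 1 := by
    rw [han]
    exact inv_lt_one_of_one_lt₀ (by exact_mod_cast hp1)
  have ha0 : a ≠ 0 := by
    rw [ha, Nat.cast_mul]
    exact div_ne_zero (mul_ne_zero hp0.ne' hv0) hd0
  have hother : ∀ k' < n, k' ≠ k → padicNorm p (a - k + (k' : ℚ)) = 1 := by
    intro k' hk' hne
    have h3 := po_int_unit p n k k' hnp hk hk' hne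
    have h4 : a - (k : ℚ) + (k' : ℚ) = a + ((k' : ℚ) - (k : ℚ)) := by ring
    rw [h4, padicNorm.add_eq_max_of_ne (by rw [h3]; exact ha1.ne), h3]
    exact max_eq_right ha1.le
  have hnz : ∀ k' < n, a - k + (k' : ℚ) ≠ 0 := by
    intro k' hk'
    by_cases hkk : k' = k
    · subst hkk
      simpa using ha0
    · intro h0
      have := hother k' hk' hkk
      rw [h0, padicNorm.zero] at this
      exact zero_ne_one this
  have hkmem : k ∈ sP n := Finset.mem_range.mpr hk
  rw [coeff_RSj n h l P hdeg (a - k) hnz, ← Finset.add_sum_erase _ _ hkmem]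
  have h3 : ∑ i ∈ Finset.Icc 1 (2 * h), pa (sP n) (mP h) P k i *
        ((bc l i : ℚ) / (a - (k : ℚ) + (k : ℚ)) ^ (i + l))
      = ∑ i ∈ Finset.Icc 1 (2 * h), (bc l i : ℚ) * (pa (sP n) (mP h) P k i * a⁻¹ ^ (i + l)) := by
    apply Finset.sum_congr rfl
    intro i _
    rw [sub_add_cancel, div_eq_mul_inv, inv_pow]
    ring
  rw [h3, sub_add_cancel_left, padicNorm.neg]
  apply padicNorm.sum_le' _ zero_le_one
  intro k' hk'
  apply padicNorm.sum_le' _ zero_le_one
  intro i _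
  rw [Finset.mem_erase, Finset.mem_range] at hk'
  refine po_mul_le p (t_pj p n h hnp.le P hP k' i hk'.2) ?_
  rw [padicNorm.div, po_pow, hother k' hk'.2 hk'.1, one_pow, div_one]
  exact padicNorm.of_nat _

/-- the rational part is `p`-integral up to the singular part -/
lemma sf_keyj (p : ℕ) [Fact p.Prime] (n h B l : ℕ) (w : ℕ → ℤ)
    (hn : n < p) (hB : B ≤ n) (P : ℚ[X]) (hP : ∀ j, padicNorm p (P.coeff j) ≤ 1)
    (hdeg : P.natDegree < 2 * h * n) :
    (∑ i ∈ Finset.Icc 1 (2 * h), (bc l i : ℚ) * bet n h B l w P i)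
      - ∑ s ∈ SFaux.TT n B p, (w s.1 : ℚ) *
        ((-1) ^ l * PowerSeries.coeff l (RS (sP n) (mP h) P (SFaux.tt p s))) ∈ SFaux.Rp p := by
  have hp0 : 0 < p := lt_of_le_of_lt (Nat.zero_le _) hn
  have e1 : (∑ i ∈ Finset.Icc 1 (2 * h), (bc l i : ℚ) * bet n h B l w P i)
      = ∑ d ∈ Finset.Icc 1 B, ∑ k ∈ Finset.range n, (w d : ℚ) *
        ∑ i ∈ Finset.Icc 1 (2 * h), (bc l i : ℚ) * (d : ℚ) ^ (i + l) * pa (sP n) (mP h) P k i *
          hs (i + l) (d * (k + 1)) := by
    unfold bet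
    simp only [Finset.mul_sum]
    rw [Finset.sum_comm]
    apply Finset.sum_congr rfl
    intro d _
    rw [Finset.sum_comm]
    apply Finset.sum_congr rfl
    intro k _
    apply Finset.sum_congr rfl
    intro i _
    ring
  have e2 : ∑ s ∈ SFaux.TT n B p, (w s.1 : ℚ) *
        ((-1) ^ l * PowerSeries.coeff l (RS (sP n) (mP h) P (SFaux.tt p s)))
      = ∑ d ∈ Finset.Icc 1 B, ∑ k ∈ Finset.range n, ∑ v ∈ Finset.Icc 1 (d * (k + 1) / p),
        (w d : ℚ) * ((-1) ^ l *
          PowerSeries.coeff l (RS (sP n) (mP h) P (((p * v : ℕ) : ℚ) / d - k))) := by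
    unfold SFaux.TT
    rw [Finset.sum_sigma]
    apply Finset.sum_congr rfl
    intro d _
    rw [Finset.sum_sigma]
    rfl
  rw [e1, e2, ← Finset.sum_sub_distrib]
  apply Subring.sum_mem
  intro d hd
  rw [Finset.mem_Icc] at hd
  rw [← Finset.sum_sub_distrib]
  apply Subring.sum_mem
  intro k hk
  rw [Finset.mem_range] at hk
  have e3 : (w d : ℚ) *
        ∑ i ∈ Finset.Icc 1 (2 * h), (bc l i : ℚ) * (d : ℚ) ^ (i + l) * pa (sP n) (mP h) P k i *
          hs (i + l) (d * (k + 1))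
      - ∑ v ∈ Finset.Icc 1 (d * (k + 1) / p),
        (w d : ℚ) * ((-1) ^ l *
          PowerSeries.coeff l (RS (sP n) (mP h) P (((p * v : ℕ) : ℚ) / d - k)))
      = (w d : ℚ) * ((∑ i ∈ Finset.Icc 1 (2 * h), (bc l i : ℚ) * (d : ℚ) ^ (i + l) *
          pa (sP n) (mP h) P k i *
          (hs (i + l) (d * (k + 1)) -
            ∑ v ∈ Finset.Icc 1 (d * (k + 1) / p), 1 / ((p * v : ℕ) : ℚ) ^ (i + l)))
        + ∑ v ∈ Finset.Icc 1 (d * (k + 1) / p),
          ((∑ i ∈ Finset.Icc 1 (2 * h), (bc l i : ℚ) *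
            (pa (sP n) (mP h) P k i * ((d : ℚ) / ((p * v : ℕ) : ℚ)) ^ (i + l))) -
            (-1) ^ l * PowerSeries.coeff l (RS (sP n) (mP h) P (((p * v : ℕ) : ℚ) / d - k)))) := by
    rw [Finset.sum_sub_distrib, ← Finset.mul_sum]
    have e4 : ∑ v ∈ Finset.Icc 1 (d * (k + 1) / p),
        ∑ i ∈ Finset.Icc 1 (2 * h), (bc l i : ℚ) *
          (pa (sP n) (mP h) P k i * ((d : ℚ) / ((p * v : ℕ) : ℚ)) ^ (i + l))
        = ∑ i ∈ Finset.Icc 1 (2 * h), (bc l i : ℚ) * (d : ℚ) ^ (i + l) * pa (sP n) (mP h) P k i *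
          ∑ v ∈ Finset.Icc 1 (d * (k + 1) / p), 1 / ((p * v : ℕ) : ℚ) ^ (i + l) := by
      rw [Finset.sum_comm]
      apply Finset.sum_congr rfl
      intro i _
      rw [Finset.mul_sum]
      apply Finset.sum_congr rfl
      intro v _
      rw [div_pow]
      ring
    rw [e4]
    simp only [mul_sub, Finset.sum_sub_distrib]
    ring
  rw [e3]
  apply Subring.mul_mem _ (SFaux.int_mem _)
  apply Subring.add_mem
  · apply Subring.sum_mem
    intro i _
    apply Subring.mul_mem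
    · apply Subring.mul_mem
      · exact Subring.mul_mem _ (SFaux.nat_mem _) (Subring.pow_mem _ (SFaux.nat_mem d) _)
      · exact t_pj p n h hn.le P hP k i hk
    · exact t_hj p n B d k (i + l) hn hB hd.1 hd.2 hk
  · apply Subring.sum_mem
    intro v hv
    rw [Finset.mem_Icc] at hv
    exact po_gen p n h B l hn hB P hP hdeg d k v hd.1 hd.2 hk hv.1
      (by rw [mul_comm]; exact (Nat.le_div_iff_mul_le hp0).mp hv.2)

/-- the rational part of the form -/
lemma sf_btj (p : ℕ) [Fact p.Prime] (n h B b : ℕ) (α w : ℕ → ℤ)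
    (hn : n < p) (hB : B ≤ n) (P : ℚ[X]) (hP : ∀ j, padicNorm p (P.coeff j) ≤ 1)
    (hdeg : P.natDegree < 2 * h * n) :
    btj n h B b α w P - ∑ s ∈ SFaux.TT n B p, ∑ l ∈ Finset.range (b + 1),
      (w s.1 : ℚ) * ((α l : ℚ) * (s.1 : ℚ) ^ (b - l)) *
        PowerSeries.coeff l (RS (sP n) (mP h) P (SFaux.tt p s)) ∈ SFaux.Rp p := by
  have e : btj n h B b α w P - ∑ s ∈ SFaux.TT n B p, ∑ l ∈ Finset.range (b + 1),
      (w s.1 : ℚ) * ((α l : ℚ) * (s.1 : ℚ) ^ (b - l)) *
        PowerSeries.coeff l (RS (sP n) (mP h) P (SFaux.tt p s)) =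
      ∑ l ∈ Finset.range (b + 1), (-1) ^ l * (α l : ℚ) *
        ((∑ i ∈ Finset.Icc 1 (2 * h), (bc l i : ℚ) *
            bet n h B l (fun d => w d * (d : ℤ) ^ (b - l)) P i) -
          ∑ s ∈ SFaux.TT n B p, ((w s.1 * (s.1 : ℤ) ^ (b - l) : ℤ) : ℚ) *
            ((-1) ^ l * PowerSeries.coeff l (RS (sP n) (mP h) P (SFaux.tt p s)))) := by
    unfold btj
    rw [Finset.sum_comm, ← Finset.sum_sub_distrib]
    refine Finset.sum_congr rfl fun l _ => ?_
    rw [mul_sub]
    congr 1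
    rw [Finset.mul_sum]
    refine Finset.sum_congr rfl fun s _ => ?_
    have h1 : ((-1 : ℚ)) ^ l * (-1) ^ l = 1 := by rw [← mul_pow]; norm_num
    push_cast
    linear_combination (-(w s.1 : ℚ) * ((α l : ℚ) * (s.1 : ℚ) ^ (b - l)) *
        PowerSeries.coeff l (RS (sP n) (mP h) P (SFaux.tt p s))) * h1
  rw [e]
  refine Subring.sum_mem _ fun l _ => ?_
  refine Subring.mul_mem _ (Subring.mul_mem _ ?_ (SFaux.int_mem _))
    (sf_keyj p n h B l (fun d => w d * (d : ℤ) ^ (b - l)) hn hB P hP hdeg)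
  exact Subring.pow_mem _ (Subring.neg_mem _ (Subring.one_mem _)) _

open SFaux in
theorem t_sf : S_SF := by
  intro A _ _ p hpr S hS n h B b α w x q hx hn hh hB hBn hnp r hr
  have hp0 : 0 < p := lt_of_le_of_lt (Nat.zero_le _) hnp
  have hpQ : (0 : ℚ) < p := by exact_mod_cast hp0
  have hp1 : (1 : ℚ) ≤ p := by exact_mod_cast hpr.out.one_lt.le
  have hSR : ∀ x ∈ Rp p, algebraMap ℚ A x ∈ S := fun x hx => hS x hx
  -- the facts on the nodes
  have hnode : ∀ s ∈ TT n B p, (∀ j, padicNorm p (PowerSeries.coeff j (VV (sP n) (mP h) (tt p s))) ≤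
      (p : ℚ) ^ (2 * h + j)) ∧ padicNorm p (tt p s) ≤ 1 := by
    intro s hs
    obtain ⟨a1, a2, a3, a4, a5⟩ := mem_TT hs
    have := UW.t_po p n h B 0 hnp hBn Even.zero 0 (by simp) (by
      rw [Polynomial.natDegree_zero]; positivity) s.1 s.2.1 s.2.2 a1 a2 a3 a4
      (by rw [mul_comm]; exact (Nat.le_div_iff_mul_le hp0).mp a5)
    exact ⟨this.2.1, this.2.2⟩
  -- the series
  let LV : ℚ → PowerSeries ℚ := fun t => TS t (C 2 * X + C ((n : ℚ) - 1)) * VV (sP n) (mP h) t
  have hRS : ∀ (l : ℕ) (t : ℚ) (i j : ℕ), l ≤ b →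
      PowerSeries.coeff l (RS (sP n) (mP h) (num n (X ^ (i + j))) t) =
      ∑ a : Fin (b + 1), PowerSeries.coeff a.1 (TS t (yp n) ^ i) *
        (if a.1 ≤ l then PowerSeries.coeff (l - a.1) (LV t * TS t (yp n) ^ j) else 0) := by
    intro l t i j hl
    have e1 : RS (sP n) (mP h) (num n (X ^ (i + j))) t =
        (TS t (yp n) ^ i) * (LV t * TS t (yp n) ^ j) := by
      unfold RS num
      simp only [LV]
      rw [Polynomial.X_pow_comp, map_mul, map_pow, pow_add]
      ring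
    rw [e1, PowerSeries.coeff_mul, Finset.Nat.sum_antidiagonal_eq_sum_range_succ_mk,
      Fin.sum_univ_eq_sum_range (fun a => PowerSeries.coeff a (TS t (yp n) ^ i) *
        (if a ≤ l then PowerSeries.coeff (l - a) (LV t * TS t (yp n) ^ j) else 0)) (b + 1)]
    have hsub : Finset.range l.succ ⊆ Finset.range (b + 1) := by
      intro a ha
      rw [Finset.mem_range] at ha ⊢
      omega
    rw [← Finset.sum_subset hsub]
    · refine Finset.sum_congr rfl fun a ha => ?_
      rw [Finset.mem_range] at ha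
      rw [if_pos (by omega)]
    · intro a _ ha
      rw [Finset.mem_range] at ha
      rw [if_neg (by omega), mul_zero]
  have hLV : ∀ s ∈ TT n B p, ∀ (j e : ℕ), e ≤ b →
      (p : ℚ) ^ (2 * h + b) * PowerSeries.coeff e (LV (tt p s) * TS (tt p s) (yp n) ^ j) ∈ Rp p := by
    intro s hs j e he
    obtain ⟨h1, h2⟩ := hnode s hs
    have h3 : PB p (p : ℚ) ((p : ℚ) ^ (2 * h)) (VV (sP n) (mP h) (tt p s)) := by
      intro j
      rw [← pow_add]
      exact h1 j
    have h4 := PB.mul hpQ.le (by positivity) zero_le_one (PB.mul hpQ.le zero_le_one (by positivity)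
      (sf_lin p n (tt p s) h2 p hp1) h3) (sf_Y p n (tt p s) h2 p hp1 j)
    have h5 := h4 e
    rw [one_mul, mul_one, ← pow_add] at h5
    rw [mem_Rp, padicNorm.mul, po_pow, padicNorm.padicNorm_p_of_prime]
    calc ((p : ℚ)⁻¹) ^ (2 * h + b) *
          padicNorm p (PowerSeries.coeff e (LV (tt p s) * TS (tt p s) (yp n) ^ j))
        ≤ ((p : ℚ)⁻¹) ^ (2 * h + b) * (p : ℚ) ^ (2 * h + e) := by
          gcongr
      _ ≤ ((p : ℚ)⁻¹) ^ (2 * h + b) * (p : ℚ) ^ (2 * h + b) := by
          gcongr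
      _ = 1 := by
          rw [← mul_pow, inv_mul_cancel₀ hpQ.ne', one_pow]
  -- the coefficient of the right factor
  let cj : (Σ _ : ℕ, Σ _ : ℕ, ℕ) → ℕ → ℕ → ℚ := fun s a j =>
    ∑ l ∈ Finset.range (b + 1), (α l : ℚ) * (s.1 : ℚ) ^ (b - l) *
      (if a ≤ l then PowerSeries.coeff (l - a) (LV (tt p s) * TS (tt p s) (yp n) ^ j) else 0)
  have hcj : ∀ s ∈ TT n B p, ∀ a j : ℕ, (p : ℚ) ^ (2 * h + b) * cj s a j ∈ Rp p := by
    intro s hs a j
    simp only [cj]
    rw [Finset.mul_sum]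
    refine Subring.sum_mem _ fun l hl => ?_
    rw [Finset.mem_range] at hl
    by_cases hal : a ≤ l
    · rw [if_pos hal]
      have e : (p : ℚ) ^ (2 * h + b) * ((α l : ℚ) * (s.1 : ℚ) ^ (b - l) *
          PowerSeries.coeff (l - a) (LV (tt p s) * TS (tt p s) (yp n) ^ j)) =
          ((α l : ℚ) * (s.1 : ℚ) ^ (b - l)) * ((p : ℚ) ^ (2 * h + b) *
            PowerSeries.coeff (l - a) (LV (tt p s) * TS (tt p s) (yp n) ^ j)) := by ring
      rw [e]
      exact Subring.mul_mem _ (Subring.mul_mem _ (int_mem _) (Subring.pow_mem _ (nat_mem _) _))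
        (hLV s hs j (l - a) (by omega))
    · rw [if_neg hal, mul_zero, mul_zero]
      exact Subring.zero_mem _
  have hprod : ∀ (s : Σ _ : ℕ, Σ _ : ℕ, ℕ) (i j : ℕ),
      ∑ a : Fin (b + 1), PowerSeries.coeff a.1 (TS (tt p s) (yp n) ^ i) * cj s a.1 j =
      ∑ l ∈ Finset.range (b + 1), (α l : ℚ) * (s.1 : ℚ) ^ (b - l) *
        PowerSeries.coeff l (RS (sP n) (mP h) (num n (X ^ (i + j))) (tt p s)) := by
    intro s i j
    simp only [cj, Finset.mul_sum]
    rw [Finset.sum_comm]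
    refine Finset.sum_congr rfl fun l hl => ?_
    rw [Finset.mem_range] at hl
    rw [hRS l (tt p s) i j (by omega), Finset.mul_sum]
    refine Finset.sum_congr rfl fun a _ => ?_
    ring
  let V : Matrix (Fin r) (TT n B p × Fin (b + 1)) A := Matrix.of fun i s =>
    algebraMap ℚ A (PowerSeries.coeff s.2.1 (TS (tt p s.1.1) (yp n) ^ i.1))
  let L : Matrix (TT n B p × Fin (b + 1)) (Fin r) A := Matrix.of fun s j =>
    algebraMap ℚ A (-((q : ℚ) * (w s.1.1.1) * cj s.1.1 s.2.1 j.1))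
  let G : Matrix (Fin r) (Fin r) A := Matrix.of fun i j =>
    (q : A) * mj n h B b α w x (i.1 + j.1) - (V * L) i j
  have hLA := t_la A S (algebraMap ℚ A ((p : ℚ) ^ (2 * h + b))) r (TT n B p × Fin (b + 1)) G V L
    (hSR _ (Subring.pow_mem _ (nat_mem p) _)) ?_ ?_ ?_
  · have e1 : G + V * L
        = (q : A) • Matrix.of (fun i j : Fin r => mj n h B b α w x (i.1 + j.1)) := by
      ext i j
      simp [G]
    rw [e1, Matrix.det_smul, Fintype.card_fin, Fintype.card_prod, Fintype.card_coe, TT_card,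
      Fintype.card_fin] at hLA
    obtain ⟨t, ht⟩ : ∃ t, 2 * hj h b * Sp n B p = (2 * h + b) * (Sp n B p * (b + 1)) + t := by
      refine Nat.exists_eq_add_of_le ?_
      unfold hj
      have h1 : 2 * h + b ≤ 2 * (h + (b + 1) / 2) := by omega
      calc (2 * h + b) * (Sp n B p * (b + 1)) ≤ (2 * (h + (b + 1) / 2)) * (Sp n B p * (b + 1)) :=
            Nat.mul_le_mul_right _ h1
        _ = 2 * ((b + 1) * (h + (b + 1) / 2)) * Sp n B p := by ring
    have e2 : algebraMap ℚ A ((q : ℚ) ^ r * (p : ℚ) ^ (2 * hj h b * Sp n B p)) *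
          DH (mj n h B b α w x) r
        = algebraMap ℚ A ((p : ℚ) ^ t) *
          (algebraMap ℚ A ((p : ℚ) ^ (2 * h + b)) ^ (Sp n B p * (b + 1)) * ((q : A) ^ r *
          Matrix.det (Matrix.of fun i j : Fin r => mj n h B b α w x (i.1 + j.1)))) := by
      unfold DH
      rw [ht, map_mul, map_pow, map_natCast, pow_add, map_mul, pow_mul, map_pow, map_pow]
      ring
    rw [e2]
    exact Subring.mul_mem _ (hSR _ (Subring.pow_mem _ (nat_mem p) _)) hLA
  · intro i j
    set k := i.1 + j.1 with hk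
    have hdeg : (num n (X ^ k)).natDegree < 2 * h * n := by
      have := num_natDegree n k
      have := i.2
      have := j.2
      nlinarith
    have hP : ∀ j, padicNorm p ((num n (X ^ k)).coeff j) ≤ 1 := fun j => num_coeff n k j
    have hkey := sf_btj p n h B b α w hnp hBn (num n (X ^ k)) hP hdeg
    have e1 : G i j = (∑ ι ∈ Finset.Icc 1 (2 * h),
        algebraMap ℚ A (rhoP n h (num n (X ^ k)) ι * WW B w (ι + b)) * ((q : A) * x ι))
        - algebraMap ℚ A ((q : ℚ) * (btj n h B b α w (num n (X ^ k))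
          - ∑ s ∈ TT n B p, ∑ l ∈ Finset.range (b + 1),
            (w s.1 : ℚ) * ((α l : ℚ) * (s.1 : ℚ) ^ (b - l)) *
              PowerSeries.coeff l (RS (sP n) (mP h) (num n (X ^ k)) (tt p s)))) := by
      have e2 : (V * L) i j = - algebraMap ℚ A ((q : ℚ) *
          ∑ s ∈ TT n B p, ∑ l ∈ Finset.range (b + 1),
            (w s.1 : ℚ) * ((α l : ℚ) * (s.1 : ℚ) ^ (b - l)) *
              PowerSeries.coeff l (RS (sP n) (mP h) (num n (X ^ k)) (tt p s))) := by
        rw [Matrix.mul_apply, Fintype.sum_prod_type, Finset.mul_sum, map_sum, ← Finset.sum_neg_distrib]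
        refine Eq.trans ?_ (Finset.sum_coe_sort (TT n B p) (fun s => -(algebraMap ℚ A)
          ((q : ℚ) * ∑ l ∈ Finset.range (b + 1),
            (w s.1 : ℚ) * ((α l : ℚ) * (s.1 : ℚ) ^ (b - l)) *
              PowerSeries.coeff l (RS (sP n) (mP h) (num n (X ^ k)) (tt p s)))))
        apply Finset.sum_congr rfl
        intro s _
        have e3 : (q : ℚ) * ∑ l ∈ Finset.range (b + 1),
            (w s.1.1 : ℚ) * ((α l : ℚ) * (s.1.1 : ℚ) ^ (b - l)) *
              PowerSeries.coeff l (RS (sP n) (mP h) (num n (X ^ k)) (tt p s.1)) =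
            ∑ a : Fin (b + 1), (q : ℚ) * (w s.1.1 : ℚ) *
              (PowerSeries.coeff a.1 (TS (tt p s.1) (yp n) ^ i.1) * cj s.1 a.1 j.1) := by
          rw [← Finset.mul_sum, hprod s.1 i.1 j.1, hk, mul_assoc]
          congr 1
          rw [Finset.mul_sum]
          refine Finset.sum_congr rfl fun l _ => ?_
          ring
        rw [e3, map_sum, ← Finset.sum_neg_distrib]
        apply Finset.sum_congr rfl
        intro a _
        simp only [V, L, Matrix.of_apply]
        rw [← map_mul, ← map_neg]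
        congr 1
        ring
      have e3 : (q : A) * mj n h B b α w x k = (∑ ι ∈ Finset.Icc 1 (2 * h),
          algebraMap ℚ A (rhoP n h (num n (X ^ k)) ι * WW B w (ι + b)) * ((q : A) * x ι))
          - algebraMap ℚ A ((q : ℚ) * btj n h B b α w (num n (X ^ k))) := by
        unfold mj Lj
        rw [map_mul (algebraMap ℚ A) (q : ℚ), map_natCast, mul_sub, Finset.mul_sum]
        congr 1
        apply Finset.sum_congr rfl
        intro ι _
        ring
      simp only [G, Matrix.of_apply]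
      rw [e2, e3, mul_sub, map_sub]
      ring
    rw [e1]
    apply Subring.sub_mem
    · apply Subring.sum_mem
      intro ι _
      apply Subring.mul_mem _ _ (hx ι)
      apply hSR
      apply Subring.mul_mem
      · unfold rhoP
        apply Subring.sum_mem
        intro k' hk'
        exact t_pj p n h hnp.le _ hP k' ι (Finset.mem_range.mp hk')
      · exact int_mem _
    · apply hSR
      exact Subring.mul_mem _ (nat_mem q) hkey
  · intro s j
    simp only [L, Matrix.of_apply]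
    rw [← map_mul]
    apply hSR
    have e : (p : ℚ) ^ (2 * h + b) * -((q : ℚ) * (w s.1.1.1) * cj s.1.1 s.2.1 j.1)
        = -((q : ℚ) * (w s.1.1.1) * ((p : ℚ) ^ (2 * h + b) * cj s.1.1 s.2.1 j.1)) := by ring
    rw [e]
    exact Subring.neg_mem _ (Subring.mul_mem _ (Subring.mul_mem _ (nat_mem q)
      (int_mem _)) (hcj s.1.1 s.1.2 s.2.1 j.1))
  · intro i s
    obtain ⟨a1, a2⟩ := hnode s.1.1 s.1.2
    simp only [V, Matrix.of_apply]
    apply hSR
    have := sf_Y p n (tt p s.1.1) a2 1 le_rfl i.1 s.2.1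
    rw [one_pow, mul_one] at this
    exact this

end

end Run7.h795.HJ
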