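import Pool.Agent.Run7.h795.HJ.WE
import Pool.Agent.Run7.h795.HJ.NO
import Pool.Agent.Run7.h795.HJ.RM
import Pool.Agent.Run7.h795.HJ.CO
import Pool.Agent.Run7.h795.HJ.NV
import Pool.Agent.Run7.h795.HJ.AR
import Pool.Agent.Run7.h795.HJ.SE
import Pool.Agent.Run7.h795.HJ.SF
import Pool.Agent.Run7.h795.HJ.PR
import Pool.Agent.Run7.h795.HJ.AS
import Pool.Agent.Run7.h795.HJ.MB
import Pool.Agent.Run7.h795.HJ.Jets

/-!
# Rational combinations of consecutive zeta values: assembly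
-/

set_option autoImplicit false

namespace Run7.h795.HJ

theorem z_mb : S_MB :=
  t_mb t_we t_no t_rm (t_nv t_co) (t_ar Pool.Agent.W165.OZ.t_bas Pool.Agent.W165.OZ.t_tb) (t_pr t_se t_sf) t_as

/-- **Rational combinations of consecutive zeta values in windows.** -/
theorem z_jets : ∃ c : ℝ, 0 < c ∧ ∃ K0 : ℕ, ∀ K ≥ K0, ∀ (j0 b : ℕ) (a : ℕ → ℚ), 3 ≤ j0 →
    (∃ l, l ≤ b ∧ a l ≠ 0) →
    c * Real.sqrt (K * Real.log (Real.log K) / Real.log K) ≤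
      (Set.ncard {i : ℕ | i % 2 = j0 % 2 ∧ j0 ≤ i ∧ i ≤ K * (j0 + b) ∧ Irrational (Zc b a i)} : ℝ) :=
  w_jets z_mb

end Run7.h795.HJ
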