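import Pool.Agent.Run7.h795.HJ.Stm

/-!
# Linearity of the linear forms (helper437)
-/

open Polynomial Pool.Agent.H337R2 Pool.Agent.W165.OZ Filter Topology

namespace Run7.h795.HJ

noncomputable section

open Run7.h795.UW

lemma btj_add (n h B b : ℕ) (α w : ℕ → ℤ) (P Q : ℚ[X]) :
    btj n h B b α w (P + Q) = btj n h B b α w P + btj n h B b α w Q := by
  unfold btj
  rw [← Finset.sum_add_distrib]
  refine Finset.sum_congr rfl fun l _ => ?_
  rw [← mul_add, ← Finset.sum_add_distrib]
  congr 1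
  refine Finset.sum_congr rfl fun i _ => ?_
  rw [bet_add]
  ring

lemma btj_C_mul (n h B b : ℕ) (α w : ℕ → ℤ) (c : ℚ) (P : ℚ[X]) :
    btj n h B b α w (C c * P) = c * btj n h B b α w P := by
  unfold btj
  rw [Finset.mul_sum]
  refine Finset.sum_congr rfl fun l _ => ?_
  rw [mul_left_comm c]
  congr 1
  rw [Finset.mul_sum]
  refine Finset.sum_congr rfl fun i _ => ?_
  rw [bet_C_mul]
  ring

/-- the linear form as a linear map of the polynomial `Q(y)` -/
def LjL {A : Type*} [CommRing A] [Algebra ℚ A] (n h B b : ℕ) (α w : ℕ → ℤ) (x : ℕ → A) :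
    ℚ[X] →ₗ[ℚ] A where
  toFun Q := Lj n h B b α w x (num n Q)
  map_add' P Q := by
    unfold Lj
    rw [num_add, btj_add, map_add]
    have h1 : ∑ i ∈ Finset.Icc 1 (2 * h), algebraMap ℚ A (rhoP n h (num n P + num n Q) i *
        WW B w (i + b)) * x i = ∑ i ∈ Finset.Icc 1 (2 * h), algebraMap ℚ A (rhoP n h (num n P) i *
        WW B w (i + b)) * x i + ∑ i ∈ Finset.Icc 1 (2 * h), algebraMap ℚ A (rhoP n h (num n Q) i *
        WW B w (i + b)) * x i := by
      rw [← Finset.sum_add_distrib]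
      refine Finset.sum_congr rfl fun i _ => ?_
      rw [rhoP_add, add_mul, map_add]
      ring
    rw [h1]
    ring
  map_smul' c P := by
    rw [Polynomial.smul_eq_C_mul, num_C_mul, RingHom.id_apply]
    unfold Lj
    rw [btj_C_mul, Algebra.smul_def, mul_sub, Finset.mul_sum, map_mul (algebraMap ℚ A) c]
    congr 1
    refine Finset.sum_congr rfl fun i _ => ?_
    rw [rhoP_C_mul, mul_assoc c, map_mul]
    ring

lemma mj_eq' {A : Type*} [CommRing A] [Algebra ℚ A] (n h B b : ℕ) (α w : ℕ → ℤ) (x : ℕ → A)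
    (k : ℕ) : mj n h B b α w x k = LjL n h B b α w x (X ^ k) := rfl

end

end Run7.h795.HJ
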