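import Pool.Agent.Run7.h795.HJ.Stm
import Mathlib.Algebra.Polynomial.RuleOfSigns

/-!
# Part WE: the weights (helper834)
-/

open Polynomial Pool.Agent.H337R2 Pool.Agent.W165.OZ Filter Topology

namespace Run7.h795.HJ

namespace WEaux

lemma sv_lt (m : ℕ) : ∀ P : ℚ[X], P ≠ 0 → P.support.card = m → P.signVariations + 1 ≤ m := by
  induction m using Nat.strong_induction_on with
  | _ m ih =>
    intro P hP hm
    have hpos : 0 < P.support.card := Finset.card_pos.2 (Polynomial.support_nonempty.2 hP)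
    have hle := Polynomial.signVariations_le_eraseLead_succ (P := P)
    have hc : P.eraseLead.support.card = m - 1 := by
      rw [Polynomial.eraseLead_support, Finset.card_erase_of_mem (Polynomial.natDegree_mem_support_of_nonzero hP), hm]
    by_cases h0 : P.eraseLead = 0
    · have h1 : P = monomial P.natDegree P.leadingCoeff := by
        have := Polynomial.eraseLead_add_monomial_natDegree_leadingCoeff P
        rw [h0, zero_add] at this
        exact this.symm
      rw [h1, Polynomial.signVariations_monomial]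
      omega
    · have h2 := ih (m - 1) (by omega) P.eraseLead h0 hc
      omega

lemma few_roots (P : ℚ[X]) (hP : P ≠ 0) (S : Finset ℕ) (hS : ∀ d ∈ S, 0 < d ∧ P.eval (d : ℚ) = 0) :
    S.card + 1 ≤ P.support.card := by
  classical
  refine le_trans ?_ (sv_lt _ P hP rfl)
  refine Nat.succ_le_succ (le_trans ?_ (Polynomial.roots_countP_pos_le_signVariations (P := P)))
  rw [Multiset.countP_eq_card_filter]
  have hinj : Function.Injective (fun d : ℕ => (d : ℚ)) := Nat.cast_injective
  have h1 : (S.image (fun d : ℕ => (d : ℚ))).card = S.card := Finset.card_image_of_injective _ hinj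
  rw [← h1]
  apply Multiset.card_le_card
  rw [Multiset.le_iff_subset (Finset.nodup _)]
  intro x hx
  rw [Finset.mem_val, Finset.mem_image] at hx
  obtain ⟨d, hd, rfl⟩ := hx
  rw [Multiset.mem_filter, Polynomial.mem_roots hP]
  exact ⟨(hS d hd).2, by exact_mod_cast (hS d hd).1⟩

/-- no combination of the powers `x ^ i` is the indicator of the multiples of `e` -/
lemma no_comb (B : ℕ) (I : Finset ℕ) (hI : I.card < B) (hI1 : ∀ i ∈ I, 1 ≤ i) (e : ℕ)
    (he : e ∈ Finset.Icc 1 (2 * B)) (c : ℕ → ℚ)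
    (h : ∀ d ∈ Finset.Icc 1 (2 * B), ∑ i ∈ I, c i * (d : ℚ) ^ i = if e ∣ d then 1 else 0) : False := by
  classical
  rw [Finset.mem_Icc] at he
  set P : ℚ[X] := ∑ i ∈ I, monomial i (c i) with hP
  have heval : ∀ d : ℕ, P.eval (d : ℚ) = ∑ i ∈ I, c i * (d : ℚ) ^ i := by
    intro d
    rw [hP, eval_finsetSum]
    exact Finset.sum_congr rfl fun i _ => by rw [eval_monomial]
  have hsupp : P.support ⊆ I := by
    intro k hk
    by_contra hkI
    rw [mem_support_iff] at hk
    apply hk
    rw [hP, finsetSum_coeff]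
    refine Finset.sum_eq_zero fun i hi => ?_
    rw [coeff_monomial, if_neg]
    rintro rfl
    exact hkI hi
  by_cases he1 : e = 1
  · subst he1
    set Q : ℚ[X] := P - C 1 with hQ
    have hQ0 : Q ≠ 0 := by
      intro h0
      have h1 : Q.coeff 0 = 0 := by rw [h0]; simp
      rw [hQ, coeff_sub, coeff_C_zero] at h1
      have h2 : P.coeff 0 = 0 := by
        by_contra h3
        have := hI1 0 (hsupp (mem_support_iff.2 h3))
        omega
      rw [h2] at h1
      norm_num at h1
    have h3 := few_roots Q hQ0 (Finset.Icc 1 (2 * B)) (fun d hd => by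
      refine ⟨(Finset.mem_Icc.1 hd).1, ?_⟩
      rw [hQ, eval_sub, heval, h d hd, if_pos (one_dvd d), eval_C, sub_self])
    have h4 : Q.support ⊆ insert 0 I := by
      intro k hk
      by_contra hkI
      rw [Finset.mem_insert, not_or] at hkI
      rw [mem_support_iff] at hk
      apply hk
      rw [hQ, coeff_sub, coeff_C, if_neg hkI.1, sub_zero]
      by_contra h5
      exact hkI.2 (hsupp (mem_support_iff.2 h5))
    have h5 := (Finset.card_le_card h4).trans (Finset.card_insert_le _ _)
    rw [Nat.card_Icc] at h3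
    omega
  · have hP0 : P ≠ 0 := by
      intro h0
      have h1 := h e (Finset.mem_Icc.2 he)
      rw [← heval, h0, if_pos (dvd_refl e)] at h1
      simp at h1
    have h3 := few_roots P hP0 ((Finset.Icc 1 (2 * B)).filter (fun d => ¬ e ∣ d)) (fun d hd => by
      rw [Finset.mem_filter] at hd
      refine ⟨(Finset.mem_Icc.1 hd.1).1, ?_⟩
      rw [heval, h d hd.1, if_neg hd.2])
    have h4 := Finset.card_le_card hsupp
    -- at least B numbers are not multiples of e
    have h5 : B ≤ ((Finset.Icc 1 (2 * B)).filter (fun d => ¬ e ∣ d)).card := by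
      have h6 : (Finset.range B).card ≤ ((Finset.Icc 1 (2 * B)).filter (fun d => ¬ e ∣ d)).card := by
        apply Finset.card_le_card_of_injOn (fun j => if e ∣ 2 * j + 1 then 2 * j + 2 else 2 * j + 1)
        · intro j hj
          simp only [Finset.coe_range, Set.mem_Iio] at hj
          simp only [Finset.coe_filter, Finset.mem_Icc, Set.mem_ofPred_eq]
          split_ifs with hd
          · refine ⟨⟨by omega, by omega⟩, fun hd2 => ?_⟩
            have h7 : e ∣ 1 := by
              have := (Nat.dvd_add_right hd).1 (show e ∣ (2 * j + 1) + 1 by exact hd2)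
              exact this
            exact he1 (Nat.dvd_one.1 h7)
          · exact ⟨⟨by omega, by omega⟩, hd⟩
        · intro j hj k hk hjk
          simp only at hjk
          split_ifs at hjk <;> omega
      rwa [Finset.card_range] at h6
    omega

lemma sum_Icc_fin {M : Type*} [AddCommMonoid M] (N : ℕ) (f : ℕ → M) :
    ∑ d ∈ Finset.Icc 1 N, f d = ∑ k : Fin N, f ((k : ℕ) + 1) := by
  rw [← Finset.sum_range (fun k => f (k + 1))]
  refine Finset.sum_nbij' (fun d => d - 1) (fun k => k + 1) ?_ ?_ ?_ ?_ ?_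
  · intro d hd
    rw [Finset.mem_Icc] at hd
    rw [Finset.mem_range]
    omega
  · intro k hk
    rw [Finset.mem_range] at hk
    rw [Finset.mem_Icc]
    omega
  · intro d hd
    rw [Finset.mem_Icc] at hd
    omega
  · intro k _
    simp
  · intro d hd
    rw [Finset.mem_Icc] at hd
    have e : d - 1 + 1 = d := by omega
    rw [e]

end WEaux

open WEaux

theorem t_we : S_WE := by
  classical
  intro B I hI hI1
  let ψ : ℕ → (Fin (2 * B) → ℚ) →ₗ[ℚ] ℚ := fun i => ∑ k : Fin (2 * B), ((((k : ℕ) + 1 : ℕ) : ℚ) ^ i) • LinearMap.proj k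
  let φ : ℕ → (Fin (2 * B) → ℚ) →ₗ[ℚ] ℚ := fun e => ∑ k : Fin (2 * B), (if e ∣ (k : ℕ) + 1 then (1 : ℚ) else 0) • LinearMap.proj k
  have hψ : ∀ i x, ψ i x = ∑ k : Fin (2 * B), (((k : ℕ) + 1 : ℕ) : ℚ) ^ i * x k := by
    intro i x
    simp [ψ, LinearMap.sum_apply]
  have hφ : ∀ e x, φ e x = ∑ k : Fin (2 * B), (if e ∣ (k : ℕ) + 1 then (1 : ℚ) else 0) * x k := by
    intro e x
    simp only [φ, LinearMap.sum_apply, LinearMap.smul_apply, LinearMap.proj_apply, smul_eq_mul]
  let V : Submodule ℚ (Fin (2 * B) → ℚ) := ⨅ i : I, LinearMap.ker (ψ i)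
  have hmemV : ∀ x, x ∈ V ↔ ∀ i ∈ I, ψ i x = 0 := by
    intro x
    simp only [V, Submodule.mem_iInf, LinearMap.mem_ker]
    exact ⟨fun h i hi => h ⟨i, hi⟩, fun h i => h i.1 i.2⟩
  have hnot : ∀ e ∈ Finset.Icc 1 (2 * B), ∃ x ∈ V, φ e x ≠ 0 := by
    intro e he
    by_contra hcon
    push Not at hcon
    have hle : ⨅ i : I, LinearMap.ker (ψ i) ≤ LinearMap.ker (φ e) := fun x hx => LinearMap.mem_ker.2 (hcon x hx)
    have hspan := mem_span_of_iInf_ker_le_ker (L := fun i : I => ψ i) (K := φ e) hle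
    obtain ⟨c, hc⟩ := (Submodule.mem_span_range_iff_exists_fun ℚ).1 hspan
    refine no_comb B I hI hI1 e he (fun i => if h : i ∈ I then c ⟨i, h⟩ else 0) (fun d hd => ?_)
    rw [Finset.mem_Icc] at hd
    let k : Fin (2 * B) := ⟨d - 1, by omega⟩
    have hk : (k : ℕ) + 1 = d := by simp only [k]; omega
    have h1 := congrArg (fun L : (Fin (2 * B) → ℚ) →ₗ[ℚ] ℚ => L (Pi.single k 1)) hc
    simp only [LinearMap.sum_apply, LinearMap.smul_apply, smul_eq_mul] at h1
    rw [hφ] at h1
    simp only [hψ, Pi.single_apply, mul_ite, mul_one, mul_zero, Finset.sum_ite_eq', Finset.mem_univ, if_true, hk] at h1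
    rw [← h1, ← Finset.sum_coe_sort I]
    refine Finset.sum_congr rfl fun i _ => ?_
    rw [dif_pos i.2]
  -- a common element
  obtain ⟨x, hxV, hx⟩ : ∃ x ∈ V, ∀ e ∈ Finset.Icc 1 (2 * B), φ e x ≠ 0 := by
    by_contra hcon
    push Not at hcon
    have hcov : ⋃ e : (Finset.Icc 1 (2 * B) : Finset ℕ), ((LinearMap.ker ((φ e).comp V.subtype) : Submodule ℚ V) : Set V) = Set.univ := by
      rw [Set.eq_univ_iff_forall]
      intro y
      obtain ⟨e, he, h0⟩ := hcon y.1 y.2
      rw [Set.mem_iUnion]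
      exact ⟨⟨e, he⟩, by
        rw [SetLike.mem_coe, LinearMap.mem_ker, LinearMap.comp_apply]
        exact h0⟩
    obtain ⟨e, he⟩ := Subspace.exists_eq_top_of_iUnion_eq_univ hcov
    obtain ⟨y, hy, hy0⟩ := hnot e.1 e.2
    apply hy0
    have : (⟨y, hy⟩ : V) ∈ LinearMap.ker ((φ e).comp V.subtype) := by rw [he]; trivial
    rw [LinearMap.mem_ker, LinearMap.comp_apply] at this
    exact this
  -- clear denominators
  set D : ℕ := ∏ k : Fin (2 * B), (x k).den with hD
  have hD0 : (D : ℚ) ≠ 0 := by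
    rw [hD]
    exact_mod_cast (Finset.prod_ne_zero_iff.2 fun k _ => (x k).den_nz)
  have hint : ∀ k : Fin (2 * B), ∃ a : ℤ, (a : ℚ) = x k * D := by
    intro k
    refine ⟨(x k).num * ((∏ j ∈ Finset.univ.erase k, (x j).den : ℕ) : ℤ), ?_⟩
    have h1 : D = (x k).den * ∏ j ∈ Finset.univ.erase k, (x j).den := by
      rw [hD]
      exact (Finset.mul_prod_erase Finset.univ (fun j : Fin (2 * B) => (x j).den)
        (Finset.mem_univ k)).symm
    rw [h1]
    push_cast
    rw [← mul_assoc, Rat.mul_den_eq_num]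
  choose a ha using hint
  obtain ⟨w, hw⟩ : ∃ w : ℕ → ℤ, ∀ k : Fin (2 * B), w ((k : ℕ) + 1) = a k :=
    ⟨fun d => if h : d - 1 < 2 * B then a ⟨d - 1, h⟩ else 0, fun k => by simp⟩
  refine ⟨w, fun i hi => ?_, fun e he => ?_⟩
  · have h1 : ((WW (2 * B) w i : ℤ) : ℚ) = ψ i x * D := by
      unfold WW
      rw [sum_Icc_fin, hψ, Finset.sum_mul]
      push_cast
      refine Finset.sum_congr rfl fun k _ => ?_
      rw [hw, ha]
      ring
    rw [(hmemV x).1 hxV i hi, zero_mul] at h1
    exact_mod_cast h1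
  · have h1 : ((∑ d ∈ (Finset.Icc 1 (2 * B)).filter (fun d => e ∣ d), w d : ℤ) : ℚ) = φ e x * D := by
      rw [Finset.sum_filter, sum_Icc_fin, hφ, Finset.sum_mul]
      push_cast
      refine Finset.sum_congr rfl fun k _ => ?_
      rw [hw]
      split_ifs
      · rw [ha]; ring
      · simp
    intro h0
    rw [h0] at h1
    exact mul_ne_zero (hx e he) hD0 (by rw [← h1]; simp)

end Run7.h795.HJ
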